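import Pool.Agent.L7h18.BP.Gen

/-!
# Project BP: the general transfer (`S_GEN`)
-/

set_option autoImplicit false

namespace Pool.Agent.L7h18.BP

open Finset Filter MeasureTheory
open Pool.Agent.L7h88.BW (th S_POOR grid)

open Classical in
/-- one interval in one block -/
lemma gen_one {Pr : ℕ → Prop} {c₁ Y κ t y₂ : ℝ} {C x y : ℕ} (hc₁ : 0 < c₁) (hY : 1 ≤ Y)
    (hκ0 : 0 < κ) (hκs : κ ≤ 1 / 100) (ht0 : 0 ≤ t) (htκ : t ≤ κ) (hx1 : 1 ≤ x)
    (hk1 : Y - 1 / 4 + 0.01 ≤ Real.log x) (hk2 : Real.log x ≤ Y - 1 / 4 + 0.01 + 1 / 8)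
    (hy₂ : y₂ < y) (hy₂' : y₂ ≤ 1.2 * x) (hlen : ((y : ℝ) - x) / 10 ≤ y₂ - x)
    (hbig : 20 * (κ * Real.exp Y) ≤ y₂ - x)
    (hgood : ∀ j ∈ range (⌊1 / (2 * κ)⌋₊ - 1), (x : ℝ) ≤ Real.exp (Y - 1 / 4 + t + (j : ℕ) * κ) →
      Real.exp (Y - 1 / 4 + t + (j : ℕ) * κ + κ) ≤ y →
      c₁ * (κ * Real.exp Y) / Y ^ C ≤ (((Wu (Y - 1 / 4 + t + (j : ℕ) * κ) κ).Q.filter Pr).card : ℝ)) :
    c₁ / 20 * ((y : ℝ) - x) / Y ^ C ≤ (((Ioo x y).filter Pr).card : ℝ) := by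
  have hx0 : (0 : ℝ) < x := by exact_mod_cast hx1
  have hE : 0 < Real.exp Y := Real.exp_pos _
  have hκE : 0 < κ * Real.exp Y := by positivity
  have hxy2 : (x : ℝ) < y₂ := by linarith
  have hy20 : 0 < y₂ := by linarith
  have hxE : (x : ℝ) ≤ Real.exp Y := by
    rw [← Real.log_le_iff_le_exp hx0]
    linarith
  obtain ⟨M, hM⟩ : ∃ M, M = ⌊1 / (2 * κ)⌋₊ - 1 := ⟨_, rfl⟩
  obtain ⟨s, hs⟩ : ∃ s, s = Y - 1 / 4 + t := ⟨_, rfl⟩
  have hMκ : 1 / 2 - 2 * κ ≤ M * κ := by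
    have h5 : 1 / (2 * κ) - 1 < ⌊1 / (2 * κ)⌋₊ := Nat.sub_one_lt_floor _
    have h6 : ((⌊1 / (2 * κ)⌋₊ : ℝ)) - 1 ≤ M := by
      rw [sub_le_iff_le_add, hM]
      have : ⌊1 / (2 * κ)⌋₊ ≤ ⌊1 / (2 * κ)⌋₊ - 1 + 1 := by omega
      exact_mod_cast this
    have h7 : 1 / (2 * κ) - 2 ≤ M := by linarith
    have h8 := mul_le_mul_of_nonneg_right h7 hκ0.le
    have h9 : (1 / (2 * κ) - 2) * κ = 1 / 2 - 2 * κ := by field_simp
    linarith
  have hsa : s ≤ Real.log x := by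
    rw [hs]
    linarith
  have hbM : Real.log y₂ ≤ s + M * κ := by
    have h5 := Real.log_le_log hy20 hy₂'
    rw [Real.log_mul (by norm_num) hx0.ne'] at h5
    have h7 : Real.log 1.2 ≤ 0.2 := by
      have := Real.log_le_sub_one_of_pos (show (0 : ℝ) < 1.2 by norm_num)
      linarith
    rw [hs]
    linarith
  have hg := grid (M := M) hκ0 hsa hbM
  obtain ⟨G, hG⟩ : ∃ G, G = (range M).filter (fun j : ℕ => Real.log x ≤ s + j * κ ∧ s + j * κ + κ ≤ Real.log y₂) :=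
    ⟨_, rfl⟩
  rw [← hG] at hg
  have hGc : (y₂ - x) / (2 * (κ * Real.exp Y)) ≤ G.card := by
    have h5 : (y₂ - x) / y₂ ≤ Real.log y₂ - Real.log x := by
      have h6 := Real.one_sub_inv_le_log_of_pos (show 0 < y₂ / x by positivity)
      rw [Real.log_div hy20.ne' hx0.ne', inv_div] at h6
      have h7 : (y₂ - x) / y₂ = 1 - x / y₂ := by field_simp
      rw [h7]; exact h6
    have h6 : (y₂ - x) / (1.2 * Real.exp Y) ≤ (y₂ - x) / y₂ := by
      apply div_le_div_of_nonneg_left (by linarith) hy20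
      linarith
    have h7 : (y₂ - x) / (1.2 * Real.exp Y) / κ ≤ (Real.log y₂ - Real.log x) / κ :=
      div_le_div_of_nonneg_right (h6.trans h5) hκ0.le
    have h8 : (y₂ - x) / (1.2 * Real.exp Y) / κ = (y₂ - x) / (κ * Real.exp Y) / 1.2 := by
      field_simp
    have h9 : (y₂ - x) / (2 * (κ * Real.exp Y)) = (y₂ - x) / (κ * Real.exp Y) / 2 := by
      field_simp
    have h10 : 20 ≤ (y₂ - x) / (κ * Real.exp Y) := by
      rw [le_div_iff₀ (by positivity)]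
      linarith
    rw [h8] at h7
    rw [h9]
    obtain ⟨r, hr⟩ : ∃ r, r = (y₂ - x) / (κ * Real.exp Y) := ⟨_, rfl⟩
    rw [← hr] at h7 h10 ⊢
    have h11 : r / 2 + 2 ≤ r / 1.2 := by
      have : r / 1.2 = r / 2 + r / 3 := by ring
      rw [this]
      linarith
    linarith
  have hGp : ∀ j ∈ G, c₁ * (κ * Real.exp Y) / Y ^ C ≤ (((Wu (s + (j : ℕ) * κ) κ).Q.filter Pr).card : ℝ) ∧
      (x : ℝ) ≤ Real.exp (s + (j : ℕ) * κ) ∧ Real.exp (s + (j : ℕ) * κ + κ) ≤ y₂ := by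
    intro j hj
    rw [hG, mem_filter] at hj
    have h5 : (x : ℝ) ≤ Real.exp (s + (j : ℕ) * κ) := (Real.log_le_iff_le_exp hx0).1 hj.2.1
    have h6 : Real.exp (s + (j : ℕ) * κ + κ) ≤ y₂ := (Real.le_log_iff_exp_le hy20).1 hj.2.2
    refine ⟨?_, h5, h6⟩
    rw [hM] at hj
    have := hgood j hj.1
    rw [← hs] at this
    exact this h5 (h6.trans hy₂.le)
  have h5 := sum_win hκ0 G Pr ((Ioo x y).filter Pr) (c₁ * (κ * Real.exp Y) / Y ^ C) (s := s) (by
      intro j hj n hn hP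
      obtain ⟨-, h6, h7⟩ := hGp j hj
      rw [mem_Wu] at hn
      have h8 : (x : ℝ) < n := lt_of_le_of_lt h6 hn.2.1
      have h9 : (n : ℝ) < y := lt_of_le_of_lt (hn.2.2.trans h7) hy₂
      rw [mem_filter, mem_Ioo]
      exact ⟨⟨by exact_mod_cast h8, by exact_mod_cast h9⟩, hP⟩)
    (fun j hj => (hGp j hj).1)
  refine le_trans ?_ h5
  have hYC : 0 < Y ^ C := by positivity
  calc c₁ / 20 * ((y : ℝ) - x) / Y ^ C = c₁ / 2 * (((y : ℝ) - x) / 10) / Y ^ C := by ring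
    _ ≤ c₁ / 2 * (y₂ - x) / Y ^ C := by gcongr
    _ = (y₂ - x) / (2 * (κ * Real.exp Y)) * (c₁ * (κ * Real.exp Y) / Y ^ C) := by field_simp
    _ ≤ G.card * (c₁ * (κ * Real.exp Y) / Y ^ C) := mul_le_mul_of_nonneg_right hGc (by positivity)

/-- **GEN** -/
theorem s_GEN (hB : S_BVP) (hP : S_POOR) : S_GEN := by
  classical
  obtain ⟨δ₁, η, hδ₁, hδ₁', hη, hη', hB⟩ := hB
  obtain ⟨c₀, η', YP, hc₀, hη'0, hP⟩ := hP
  obtain ⟨μ, hμd⟩ : ∃ μ, μ = min (η / 2) η' := ⟨_, rfl⟩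
  have hμ : 0 < μ := by rw [hμd]; exact lt_min (by positivity) hη'0
  have hμη : μ ≤ η / 2 := by rw [hμd]; exact min_le_left _ _
  have hμη' : μ ≤ η' := by rw [hμd]; exact min_le_right _ _
  refine ⟨μ / 2, δ₁, c₀, by positivity, hδ₁, hδ₁', hc₀, fun Pr C hPr => ?_⟩
  obtain ⟨A, c₁, Y₀, hc₁, hW⟩ := hPr
  obtain ⟨YB, hB⟩ := hB A
  obtain ⟨Ys, hYs⟩ : ∃ Ys, Ys = max (max YP YB) (max Y₀ 100) := ⟨_, rfl⟩
  set kap : ℝ → ℝ := fun Y => Real.exp (-((1 / 2 + μ) * Y)) with hkap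
  have hblock : ∀ Y : ℝ, Ys ≤ Y → ∃ t : ℝ, 0 ≤ t ∧ t ≤ kap Y ∧
      ((Bdw δ₁ c₀ Y (kap Y) t A).card : ℝ) ≤ 2 * Real.exp ((1 / 2 - μ) * Y) := by
    intro Y hY
    rw [hYs] at hY
    simp only [max_le_iff] at hY
    obtain ⟨⟨hY1, hY2⟩, hY3, hY4⟩ := hY
    have hk1 : Real.exp (-((1 / 2 + η) * Y)) ≤ kap Y := by
      rw [hkap]; apply Real.exp_le_exp.2; nlinarith
    have hk1' : Real.exp (-((1 / 2 + η') * Y)) ≤ kap Y := by
      rw [hkap]; apply Real.exp_le_exp.2; nlinarith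
    have hk2 : kap Y ≤ Real.exp (-(Y / 4)) := by
      rw [hkap]; apply Real.exp_le_exp.2; nlinarith
    obtain ⟨t, ht0, ht1, ht⟩ := hB Y hY2 (kap Y) hk1 hk2
    refine ⟨t, ht0, ht1, ?_⟩
    refine Bdw_card (by linarith) rfl hμη (by linarith) (hP Y hY1 (kap Y) t hk1' hk2 ht0 ht1) ?_
    refine le_trans (le_of_eq ?_) ht
    rw [Nat.cast_inj]
    congr 1
  choose! tt htt0 htt1 htt2 using hblock
  -- limits
  have hX1 : ∀ᶠ X : ℕ in atTop, Ys + 1 ≤ Real.log X :=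
    (Real.tendsto_log_atTop.comp tendsto_natCast_atTop_atTop).eventually_ge_atTop _
  have hX2 : ∀ᶠ X : ℕ in atTop, (1000 : ℝ) ≤ (X : ℝ) ^ (μ / 2) :=
    ((tendsto_rpow_atTop (by linarith)).comp tendsto_natCast_atTop_atTop).eventually_ge_atTop _
  obtain ⟨X₀, hX₀⟩ := eventually_atTop.1 ((hX1.and hX2).and (eventually_ge_atTop 2))
  refine ⟨c₁ / (20 * 2 ^ C), X₀, by positivity, fun X hX => ?_⟩
  obtain ⟨⟨f1, f2⟩, f3⟩ := hX₀ X hX
  have hXr : (2 : ℝ) ≤ X := by exact_mod_cast f3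
  have hX0 : (0 : ℝ) < X := by linarith
  have hYs100 : 100 ≤ Ys := by rw [hYs]; exact (le_max_right _ _).trans (le_max_right _ _)
  have hYsY₀ : Y₀ ≤ Ys := by rw [hYs]; exact (le_max_left _ _).trans (le_max_right _ _)
  obtain ⟨L, hL⟩ : ∃ L, L = Real.log X := ⟨_, rfl⟩
  have hL1 : Ys + 1 ≤ L := by rw [hL]; exact f1
  have heL : Real.exp L = X := by rw [hL]; exact Real.exp_log hX0
  obtain ⟨Yi, hYi⟩ : ∃ Yi : ℕ → ℝ, Yi = fun i : ℕ => L + (i : ℝ) / 8 := ⟨_, rfl⟩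
  have hYiL : ∀ i, L ≤ Yi i := by
    intro i
    rw [hYi]
    have : (0 : ℝ) ≤ (i : ℝ) / 8 := by positivity
    show L ≤ L + (i : ℝ) / 8
    linarith
  obtain ⟨B, hBd⟩ : ∃ B : Finset ℕ, B = (range 8).biUnion (fun i : ℕ =>
    (Bdw δ₁ c₀ (Yi i) (kap (Yi i)) (tt (Yi i)) A).image (fun j : ℕ =>
      ⌈Real.exp (Yi i - 1 / 4 + tt (Yi i) + j * kap (Yi i))⌉₊)) := ⟨_, rfl⟩
  have hXp : ∀ a b : ℝ, (X : ℝ) ^ (a + b) = (X : ℝ) ^ a * (X : ℝ) ^ b := fun a b => Real.rpow_add hX0 a b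
  have hexpX : ∀ a : ℝ, Real.exp (a * L) = (X : ℝ) ^ a := by
    intro a
    rw [hL, Real.rpow_def_of_pos hX0, mul_comm]
  refine ⟨B, ?_, ?_⟩
  · -- few points
    rw [hBd]
    have h1 : (((range 8).biUnion (fun i : ℕ =>
      (Bdw δ₁ c₀ (Yi i) (kap (Yi i)) (tt (Yi i)) A).image (fun j : ℕ =>
      ⌈Real.exp (Yi i - 1 / 4 + tt (Yi i) + j * kap (Yi i))⌉₊))).card : ℝ) ≤
        ∑ i ∈ range 8, ((Bdw δ₁ c₀ (Yi i) (kap (Yi i)) (tt (Yi i)) A).card : ℝ) := by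
      have h2 := card_biUnion_le (s := range 8) (t := fun i : ℕ =>
        (Bdw δ₁ c₀ (Yi i) (kap (Yi i)) (tt (Yi i)) A).image (fun j : ℕ =>
        ⌈Real.exp (Yi i - 1 / 4 + tt (Yi i) + j * kap (Yi i))⌉₊))
      have h3 : ∑ i ∈ range 8, ((Bdw δ₁ c₀ (Yi i) (kap (Yi i)) (tt (Yi i)) A).image (fun j : ℕ =>
        ⌈Real.exp (Yi i - 1 / 4 + tt (Yi i) + j * kap (Yi i))⌉₊)).card ≤
        ∑ i ∈ range 8, (Bdw δ₁ c₀ (Yi i) (kap (Yi i)) (tt (Yi i)) A).card :=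
        sum_le_sum fun i _ => card_image_le
      exact_mod_cast h2.trans h3
    refine h1.trans ?_
    have h2 : ∀ i ∈ range 8, ((Bdw δ₁ c₀ (Yi i) (kap (Yi i)) (tt (Yi i)) A).card : ℝ) ≤
        8 * (X : ℝ) ^ (1 / 2 - μ) := by
      intro i hi
      refine (htt2 (Yi i) (by linarith [hYiL i])).trans ?_
      have h3 : Yi i ≤ L + 1 := by
        rw [mem_range] at hi
        have : (i : ℝ) ≤ 8 := by exact_mod_cast (by omega : i ≤ 8)
        rw [hYi]
        show L + (i : ℝ) / 8 ≤ L + 1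
        linarith
      have h4 : (1 / 2 - μ) * Yi i ≤ (1 / 2 - μ) * L + 1 := by nlinarith
      have h5 : Real.exp ((1 / 2 - μ) * Yi i) ≤ (X : ℝ) ^ (1 / 2 - μ) * Real.exp 1 := by
        rw [← hexpX, ← Real.exp_add]
        exact Real.exp_le_exp.2 h4
      have h6 := Real.exp_one_lt_d9
      have h7 : 0 < (X : ℝ) ^ (1 / 2 - μ) := by positivity
      nlinarith
    refine (sum_le_card_nsmul _ _ _ h2).trans ?_
    rw [card_range, nsmul_eq_mul]
    have h3 : (X : ℝ) ^ (1 / 2 - μ / 2) = (X : ℝ) ^ (1 / 2 - μ) * (X : ℝ) ^ (μ / 2) := by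
      rw [← hXp]; congr 1; ring
    rw [h3]
    have h7 : 0 < (X : ℝ) ^ (1 / 2 - μ) := by positivity
    push_cast
    nlinarith
  · -- one interval
    intro x y hx hy hxy hdis
    have hxr : (X : ℝ) ≤ x := by exact_mod_cast hx
    have hyr : (y : ℝ) ≤ 2 * X := by exact_mod_cast hy
    have hx0 : (0 : ℝ) < x := by linarith
    have hlx1 : L ≤ Real.log x := by rw [hL]; exact Real.log_le_log hX0 hxr
    have hp0 : 0 < (X : ℝ) ^ (1 / 2 - μ / 2) := by positivity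
    have hxy' : (x : ℝ) < y := by linarith
    have hlx2 : Real.log x ≤ L + 0.7 := by
      have h1 := Real.log_le_log hx0 (hxy'.le.trans hyr)
      rw [Real.log_mul (by norm_num) hX0.ne', ← hL] at h1
      have := Real.log_two_lt_d9
      linarith
    obtain ⟨i, hi⟩ : ∃ i, i = ⌊8 * (Real.log x - L + 0.24)⌋₊ := ⟨_, rfl⟩
    have hpos : 0 ≤ 8 * (Real.log x - L + 0.24) := by linarith
    have hi1 : (i : ℝ) ≤ 8 * (Real.log x - L + 0.24) := by rw [hi]; exact Nat.floor_le hpos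
    have hi2 : 8 * (Real.log x - L + 0.24) < (i : ℝ) + 1 := by rw [hi]; exact Nat.lt_floor_add_one _
    have hi8 : i < 8 := by
      have : (i : ℝ) < 8 := by linarith
      exact_mod_cast this
    obtain ⟨Y, hYd⟩ : ∃ Y, Y = Yi i := ⟨_, rfl⟩
    have hYe : Y = L + (i : ℝ) / 8 := by rw [hYd, hYi]
    have hYL : L ≤ Y := by rw [hYd]; exact hYiL i
    have hYL1 : Y ≤ L + 1 := by
      rw [hYe]
      have : (i : ℝ) ≤ 8 := by exact_mod_cast hi8.le
      linarith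
    have hYs' : Ys ≤ Y := by linarith
    obtain ⟨κ, hκ⟩ : ∃ κ, κ = kap Y := ⟨_, rfl⟩
    have hκe : κ = Real.exp (-((1 / 2 + μ) * Y)) := by rw [hκ]
    have hκ0 : 0 < κ := by rw [hκe]; exact Real.exp_pos _
    have hκs : κ ≤ 1 / 100 := by
      have h1 : κ ≤ Real.exp (-(50 : ℝ)) := by
        rw [hκe]
        apply Real.exp_le_exp.2
        nlinarith
      have h2 : Real.exp (-(50 : ℝ)) ≤ 1 / 100 := by
        rw [Real.exp_neg, one_div]
        apply inv_anti₀ (by norm_num)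
        have := Real.add_one_le_exp (50 : ℝ)
        have h3 : Real.exp (50 : ℝ) = Real.exp 25 * Real.exp 25 := by rw [← Real.exp_add]; norm_num
        have h4 := Real.add_one_le_exp (25 : ℝ)
        rw [h3]
        nlinarith
      exact h1.trans h2
    have hκ6 : Real.exp (-(0.6 * Y)) ≤ κ := by
      rw [hκe]; apply Real.exp_le_exp.2; nlinarith
    have hκ4 : κ ≤ Real.exp (-(Y / 4)) := by
      rw [hκe]; apply Real.exp_le_exp.2; nlinarith
    have ht0 : 0 ≤ tt Y := htt0 Y hYs'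
    have ht1 : tt Y ≤ κ := by rw [hκ]; exact htt1 Y hYs'
    -- the length of the windows
    have hκE : κ * Real.exp Y ≤ 3 * (X : ℝ) ^ (1 / 2 - μ) := by
      rw [hκe, ← Real.exp_add]
      have h1 : -((1 / 2 + μ) * Y) + Y ≤ (1 / 2 - μ) * L + 1 := by nlinarith
      refine (Real.exp_le_exp.2 h1).trans ?_
      rw [Real.exp_add, hexpX]
      have h6 := Real.exp_one_lt_d9
      have h7 : 0 < (X : ℝ) ^ (1 / 2 - μ) := by positivity
      nlinarith
    have hXμ : 1000 * (X : ℝ) ^ (1 / 2 - μ) ≤ (X : ℝ) ^ (1 / 2 - μ / 2) := by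
      have h3 : (X : ℝ) ^ (1 / 2 - μ / 2) = (X : ℝ) ^ (1 / 2 - μ) * (X : ℝ) ^ (μ / 2) := by
        rw [← hXp]; congr 1; ring
      rw [h3]
      have h7 : 0 < (X : ℝ) ^ (1 / 2 - μ) := by positivity
      nlinarith
    have hX1 : (1 : ℝ) ≤ (X : ℝ) ^ (1 / 2 - μ) := Real.one_le_rpow (by linarith) (by linarith)
    have hlen1 : 1000 ≤ (y : ℝ) - x := by linarith
    obtain ⟨y₂, hy₂⟩ : ∃ y₂ : ℝ, y₂ = min ((y : ℝ) - 1 / 2) (1.2 * x) := ⟨_, rfl⟩
    have hyx : (y : ℝ) ≤ 2 * x := hyr.trans (by linarith)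
    have hlen : ((y : ℝ) - x) / 10 ≤ y₂ - x := by
      have : x + ((y : ℝ) - x) / 10 ≤ y₂ := by
        rw [hy₂]
        apply le_min
        · linarith
        · linarith
      linarith
    have hfin := gen_one (Pr := Pr) (C := C) (y := y) hc₁ (by linarith : 1 ≤ Y) hκ0 hκs ht0 ht1
      (by exact_mod_cast (show (1 : ℝ) ≤ x by linarith)) (by rw [hYe]; linarith) (by rw [hYe]; linarith)
      (lt_of_le_of_lt (by rw [hy₂]; exact min_le_left _ _) (by linarith : (y : ℝ) - 1 / 2 < y))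
      (by rw [hy₂]; exact min_le_right _ _) hlen (by linarith) (by
        intro j hj h1 h2
        obtain ⟨b1, b2⟩ := in_block (Y := Y) hκ0 ht0 ht1 hj
        by_cases hb : j ∈ Bdw δ₁ c₀ Y κ (tt Y) A
        · exfalso
          rw [disjoint_left] at hdis
          refine hdis (a := ⌈Real.exp (Y - 1 / 4 + tt Y + j * κ)⌉₊) ?_ ?_
          · rw [hBd, mem_biUnion]
            refine ⟨i, mem_range.2 hi8, ?_⟩
            rw [mem_image]
            refine ⟨j, ?_, ?_⟩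
            · rw [← hYd, ← hκ]; exact hb
            · rw [← hYd, ← hκ]
          · rw [mem_Icc]
            have h3 := Nat.le_ceil (Real.exp (Y - 1 / 4 + tt Y + j * κ))
            have h4 : (x : ℝ) ≤ (⌈Real.exp (Y - 1 / 4 + tt Y + j * κ)⌉₊ : ℝ) := h1.trans h3
            refine ⟨by exact_mod_cast h4, ?_⟩
            have h5 := Nat.ceil_lt_add_one (Real.exp_pos (Y - 1 / 4 + tt Y + j * κ)).le
            have h6 : Real.exp (Y - 1 / 4 + tt Y + j * κ) + 1 ≤ Real.exp (Y - 1 / 4 + tt Y + j * κ + κ) := by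
              have h7 : Real.exp (Y - 1 / 4 + tt Y + j * κ + κ) =
                Real.exp (Y - 1 / 4 + tt Y + j * κ) * Real.exp κ := Real.exp_add _ _
              have h8 := Real.add_one_le_exp κ
              have h9 : Real.exp (Y - 1 / 4) ≤ Real.exp (Y - 1 / 4 + tt Y + j * κ) := Real.exp_le_exp.2 b1
              have h10 : 1 ≤ κ * Real.exp (Y - 1 / 4) := by
                rw [hκe, ← Real.exp_add]
                apply Real.one_le_exp
                nlinarith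
              have h11 : κ * Real.exp (Y - 1 / 4) ≤ κ * Real.exp (Y - 1 / 4 + tt Y + j * κ) :=
                mul_le_mul_of_nonneg_left h9 hκ0.le
              rw [h7]
              have h12 : Real.exp (Y - 1 / 4 + tt Y + j * κ) * (κ + 1) ≤
                Real.exp (Y - 1 / 4 + tt Y + j * κ) * Real.exp κ :=
                mul_le_mul_of_nonneg_left h8 (Real.exp_pos _).le
              linarith
            have h7 : ((⌈Real.exp (Y - 1 / 4 + tt Y + j * κ)⌉₊ : ℕ) : ℝ) ≤ y := by linarith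
            exact_mod_cast h7
        · unfold Bdw at hb
          rw [mem_filter, not_and, not_or, not_not, not_lt] at hb
          obtain ⟨h3, h4⟩ := hb hj
          have := hW Y (by linarith) κ _ hκ6 hκ4 b1 b2 h3 h4
          refine this.trans (le_of_eq ?_)
          rw [Nat.cast_inj])
    refine le_trans ?_ hfin
    have hL0 : 0 < L := by linarith
    have hYC : Y ^ C ≤ 2 ^ C * L ^ C := by
      rw [← mul_pow]
      exact pow_le_pow_left₀ (by linarith) (by linarith) C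
    have hyx0 : 0 ≤ (y : ℝ) - x := by linarith
    rw [← hL]
    calc c₁ / (20 * 2 ^ C) * ((y : ℝ) - x) / L ^ C = c₁ / 20 * ((y : ℝ) - x) / (2 ^ C * L ^ C) := by
          field_simp
      _ ≤ c₁ / 20 * ((y : ℝ) - x) / Y ^ C := by
          exact div_le_div_of_nonneg_left (by positivity) (pow_pos (by linarith) C) hYC

end Pool.Agent.L7h18.BP
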