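import Pool.Agent.L7h18.BP.Nr1

/-! Project BP (helper18), part NRX: near the line one. -/

set_option autoImplicit false

namespace Pool.Agent.L7h18.BP

open Finset Filter MeasureTheory
open Pool.Agent.H376R2.MR (ch DP FK w)
open Pool.Agent.Q240.KS (cf sp ty ed DY zY pic)
open Pool.Agent.Q298.KS (cb cb_le one_le_cb cb_ne)
open Pool.Agent.L7h88.BW
open Pool.Agent.L7h76.BW (poly_exp PX_one mem_FK mem_prm rhs_le prim_ne prim_P Kc_le Kc1_le Fc_le
  Fc_pos fk_le PX_eq)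

lemma prod_ten (g : Fin 10 → ℝ) :
    ∏ i, g i = g 0 * g 1 * g 2 * (g 3 * g 4 * g 5 * g 6 * g 7 * g 8 * g 9) := by
  simp only [Fin.prod_univ_succ, Fin.prod_univ_zero]
  simp
  ring

lemma Gc_le (δ Y : ℝ) : (Gc δ Y : ℝ) ≤ Real.exp (δ * Y) := Nat.floor_le (Real.exp_pos _).le

lemma Gc_pos {δ Y : ℝ} (h : 0 ≤ δ * Y) : 1 ≤ Gc δ Y := by
  unfold Gc
  apply Nat.le_floor
  push_cast
  exact Real.one_le_exp h

lemma Gc_Fc {δ Y : ℝ} (h1 : δ ≤ 1 / 100) (h : 0 ≤ Y) : Gc δ Y ≤ Fc Y := by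
  unfold Gc Fc
  apply Nat.floor_le_floor
  apply Real.exp_le_exp.2
  nlinarith

/-- the product without the first three factors -/
lemma rest_le {q : ℕ} (χ : DirichletCharacter ℂ q) (z : ℕ) (d : Fin 10 → ℕ) (k : ℤ) {Y : ℝ} (hY : 1 ≤ Y)
    (h9 : (d 9 : ℝ) ≤ Y) :
    ‖∏ i, PX χ z (ty i) (d i) k‖ ≤ 256 * Y * (‖PX χ z (ty 0) (d 0) k‖ * ‖PX χ z (ty 1) (d 1) k‖ *
      ‖PX χ z (ty 2) (d 2) k‖) := by
  rw [norm_prod, prod_ten (fun i => ‖PX χ z (ty i) (d i) k‖)]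
  have h : ∀ i : Fin 10, i ≠ 9 → ‖PX χ z (ty i) (d i) k‖ ≤ 2 := by
    intro i hi
    refine (norm_PX_le χ z (ty i) (d i) k).trans ?_
    rw [cb_ne]
    · norm_num
    · revert i
      decide
  have h' : ‖PX χ z (ty 9) (d 9) k‖ ≤ 4 * Y := by
    refine (norm_PX_le χ z (ty 9) (d 9) k).trans ?_
    have := cb_le (ty 9) (d 9)
    linarith
  have e3 := h 3 (by decide)
  have e4 := h 4 (by decide)
  have e5 := h 5 (by decide)
  have e6 := h 6 (by decide)
  have e7 := h 7 (by decide)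
  have e8 := h 8 (by decide)
  have h2 : ‖PX χ z (ty 3) (d 3) k‖ * ‖PX χ z (ty 4) (d 4) k‖ * ‖PX χ z (ty 5) (d 5) k‖ *
      ‖PX χ z (ty 6) (d 6) k‖ * ‖PX χ z (ty 7) (d 7) k‖ * ‖PX χ z (ty 8) (d 8) k‖ *
      ‖PX χ z (ty 9) (d 9) k‖ ≤ 2 * 2 * 2 * 2 * 2 * 2 * (4 * Y) := by gcongr
  calc _ ≤ ‖PX χ z (ty 0) (d 0) k‖ * ‖PX χ z (ty 1) (d 1) k‖ * ‖PX χ z (ty 2) (d 2) k‖ *
        (2 * 2 * 2 * 2 * 2 * 2 * (4 * Y)) := mul_le_mul_of_nonneg_left h2 (by positivity)
    _ = _ := by ring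

/-- **NRX** -/
theorem s_NRX (hH : S_HMP) (hMS : S_MSP) (hA : S_SMA) (hC : S_SMC) (hX : S_MBX) : S_NRX := by
  classical
  obtain ⟨ε₀, hε₀, hsm⟩ := nr_small hA hC
  obtain ⟨Ch, η, hCh, hη, hη1, hH⟩ := hH
  obtain ⟨C, hC1, hM⟩ := hMS
  obtain ⟨ε, hε0, he1, he2, he3⟩ : ∃ ε : ℝ, 0 < ε ∧ ε ≤ ε₀ ∧ ε ≤ 1 / 100 ∧ ε ≤ η / 1000 :=
    ⟨min ε₀ (min (1 / 100) (η / 1000)), by positivity, min_le_left _ _,
      (min_le_right _ _).trans (min_le_left _ _), (min_le_right _ _).trans (min_le_right _ _)⟩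
  obtain ⟨Y1, hY1⟩ := hsm ε hε0 he1
  refine ⟨ε, ε, hε0, hε0, he2, fun A => ?_⟩
  obtain ⟨Cm, hm⟩ := hX 3 (A + 20) (A + 20)
  obtain ⟨Y2, hY2⟩ := poly_exp (3 * C * 21 ^ C) C (c := 2 * ε) (by positivity)
  set D : ℝ := (|Cm| + 4) * 512 * 1296 * Ch with hD
  have hD0 : 0 ≤ D := by positivity
  refine ⟨max (max Y1 Y2) (max 400 (31 * 41 ^ 10 * D)), fun Y hY => ?_⟩
  have hy1 := hY1 Y ((le_max_left _ _).trans ((le_max_left _ _).trans hY))
  have hy2 := hY2 Y ((le_max_right _ _).trans ((le_max_left _ _).trans hY))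
  have hY4 : 400 ≤ Y := (le_max_left _ _).trans ((le_max_right _ _).trans hY)
  have hYD : 31 * 41 ^ 10 * D ≤ Y := (le_max_right _ _).trans ((le_max_right _ _).trans hY)
  have hY0 : 0 < Y := by linarith
  have hYo : 1 ≤ Y := by linarith
  set F := Gc ε Y with hF
  have hF1 : 1 ≤ F := Gc_pos (by positivity)
  have hFe : (F : ℝ) ≤ Real.exp (ε * Y) := Gc_le ε Y
  have hFF : F ≤ Fc Y := Gc_Fc he2 hY0.le
  have hcard : ((DY Y).card : ℝ) ≤ (41 * Y) ^ 10 := by
    refine (Pool.Agent.Q95.KS.DY_card Y).trans (pow_le_pow_left₀ (Nat.cast_nonneg _) ?_ 10)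
    push_cast
    have := Nat.floor_le (show 0 ≤ 20 * (Y + 1) by linarith)
    linarith
  -- one tuple
  have hone : ∀ d ∈ DY Y, ∑ f ∈ Icc 2 F, ∑ χ ∈ prm f (fun _ => True),
      ∑ k ∈ (FK (Kc Y + 1)).filter (fun k => NR ε Y d χ k),
      1 / (Nat.totient f : ℝ) * ‖∏ i, PX χ (zY Y) (ty i) (d i) k‖ ≤ D * Y ^ 6 / Y ^ (A + 20) := by
    intro d hd
    set S : ∀ f : ℕ, DirichletCharacter ℂ f → Finset ℤ :=
      fun f χ => (FK (Kc Y + 1)).filter (fun k => NR ε Y d χ k) with hS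
    by_cases hex : ∃ f ∈ Icc 2 F, ∃ χ ∈ prm f (fun _ => True), (S f χ).Nonempty
    swap
    · push Not at hex
      have : ∑ f ∈ Icc 2 F, ∑ χ ∈ prm f (fun _ => True), ∑ k ∈ S f χ,
          1 / (Nat.totient f : ℝ) * ‖∏ i, PX χ (zY Y) (ty i) (d i) k‖ = 0 := by
        refine sum_eq_zero fun f hf => sum_eq_zero fun χ hχ => ?_
        rw [hex f hf χ hχ, sum_empty]
      rw [this]
      positivity
    have hlen : (∀ i : Fin 10, (i : ℕ) < 5 → 3.8 * Y ≤ d i ∧ (d i : ℝ) ≤ 4 * Y + 9) ∧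
        ∀ i : Fin 10, 5 ≤ (i : ℕ) → (d i : ℝ) ≤ Y / 100 := by
      obtain ⟨f, hf, χ, hχ, k, hk⟩ := hex
      rw [hS, mem_filter] at hk
      rw [mem_Icc] at hf
      have hf0 : NeZero f := ⟨by omega⟩
      refine nr_len hY4 hd hk.2 fun t e ht h1 h2 => ?_
      refine hy1 f hf0 χ (zY Y) t e k ?_ (prim_ne hf.1 hχ) ht h1 h2 ((fk_le hk.1).trans (Kc_le Y))
      have : (f : ℝ) ≤ F := by exact_mod_cast hf.2
      exact this.trans hFe
    obtain ⟨hl1, hl2⟩ := hlen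
    have hkd : ∀ i : Fin 10, (i : ℕ) < 5 → ∀ k ∈ FK (Kc Y + 1), |(k : ℝ)| ≤ Real.exp (3 * (d i : ℝ) / 20) := by
      intro i hi k hk
      refine ((fk_le hk).trans (Kc_le Y)).trans (Real.exp_le_exp.2 ?_)
      have := (hl1 i hi).1
      linarith
    have hd6 : ∀ i : Fin 10, (i : ℕ) < 5 → 1 + (d i : ℝ) ≤ 6 * Y := by
      intro i hi
      have := (hl1 i hi).2
      linarith
    -- the number of pairs
    obtain ⟨R, hR⟩ : ∃ R : ℝ, R = ∑ f ∈ Icc 2 F, ∑ χ ∈ prm f (fun _ => True), ((S f χ).card : ℝ) := ⟨_, rfl⟩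
    have hR0 : 0 ≤ R := by
      rw [hR]
      exact sum_nonneg fun f _ => sum_nonneg fun χ _ => Nat.cast_nonneg _
    have hF2 : (F : ℝ) ^ 2 ≤ Real.exp (2 * ε * Y) := by
      calc (F : ℝ) ^ 2 ≤ Real.exp (ε * Y) ^ 2 := pow_le_pow_left₀ (Nat.cast_nonneg _) hFe 2
        _ = _ := by
          rw [← Real.exp_nat_mul]
          congr 1
          push_cast
          ring
    have hRle : R ≤ Real.exp (10 * ε * Y) := by
      have h1 := nr_count hM hF1 (show 1 ≤ Kc Y + 1 by omega) (z := zY Y) (e := d 0) (ε := ε) (Y := Y) S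
        (fun f χ => filter_subset _ _) (by
          intro f _ χ _ k hk
          have h2 := (mem_filter.1 hk).2.2 0
          rw [Pool.Agent.Q95.KS.ty0 (by decide)] at h2
          exact h2)
      rw [← hR] at h1
      have h2 : (F : ℝ) ^ 2 * ((Kc Y + 1 : ℕ) : ℝ) * Real.exp (-(4 * (d 0 : ℝ) / 20)) ≤ 2 := by
        calc (F : ℝ) ^ 2 * ((Kc Y + 1 : ℕ) : ℝ) * Real.exp (-(4 * (d 0 : ℝ) / 20))
            ≤ Real.exp (2 * ε * Y) * (2 * Real.exp (0.505 * Y)) * Real.exp (-(4 * (d 0 : ℝ) / 20)) := by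
              apply mul_le_mul_of_nonneg_right _ (Real.exp_pos _).le
              exact mul_le_mul hF2 (Kc1_le hY0.le) (Nat.cast_nonneg _) (Real.exp_pos _).le
          _ = 2 * Real.exp (2 * ε * Y + 0.505 * Y + -(4 * (d 0 : ℝ) / 20)) := by
              rw [Real.exp_add, Real.exp_add]
              ring
          _ ≤ 2 * 1 := by
              apply mul_le_mul_of_nonneg_left _ (by norm_num)
              rw [Real.exp_le_one_iff]
              have := (hl1 0 (by decide)).1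
              nlinarith
          _ = 2 := by norm_num
      have h3 : (C : ℝ) * (1 + 4 * (d 0 : ℝ)) ^ C * (1 + (F : ℝ) ^ 2 * ((Kc Y + 1 : ℕ) : ℝ) *
          Real.exp (-(4 * (d 0 : ℝ) / 20))) ≤ 3 * C * 21 ^ C * Y ^ C := by
        calc (C : ℝ) * (1 + 4 * (d 0 : ℝ)) ^ C * (1 + (F : ℝ) ^ 2 * ((Kc Y + 1 : ℕ) : ℝ) *
            Real.exp (-(4 * (d 0 : ℝ) / 20))) ≤ (C : ℝ) * (21 * Y) ^ C * 3 := by
              apply mul_le_mul _ (by linarith) (by positivity) (by positivity)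
              apply mul_le_mul_of_nonneg_left _ (Nat.cast_nonneg _)
              apply pow_le_pow_left₀ (by positivity)
              have := (hl1 0 (by decide)).2
              linarith
          _ = _ := by rw [mul_pow]; ring
      have h4 : R * Real.exp (-(8 * ε * Y)) ≤ Real.exp (2 * ε * Y) := h1.trans (h3.trans hy2)
      calc R = R * Real.exp (-(8 * ε * Y)) * Real.exp (8 * ε * Y) := by
            rw [mul_assoc, ← Real.exp_add, show -(8 * ε * Y) + 8 * ε * Y = 0 by ring, Real.exp_zero, mul_one]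
        _ ≤ Real.exp (2 * ε * Y) * Real.exp (8 * ε * Y) := mul_le_mul_of_nonneg_right h4 (Real.exp_pos _).le
        _ = _ := by
            rw [← Real.exp_add]
            congr 1
            ring
    -- mean squares of the first factors
    have hms : ∀ i : Fin 10, (i : ℕ) < 5 → ∑ f ∈ Icc 2 F, ∑ χ ∈ prm f (fun _ => True), ∑ k ∈ S f χ,
        ‖PX χ (zY Y) (ty i) (d i) k‖ ^ 2 ≤ 2 * 1296 * Ch * Y ^ 4 := by
      intro i hi
      have hdi := (hl1 i hi).1
      have h1 := hH F (zY Y) (ty i) (d i) S hF1 (by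
        have : (0 : ℝ) < d i := by linarith
        exact_mod_cast this) (fun f χ k hk => hkd i hi k (mem_filter.1 hk).1)
      rw [← hR] at h1
      refine h1.trans ?_
      have h2 : (F : ℝ) ^ 2 * Real.exp (-(η * (d i : ℝ) / 20)) * R ≤ 1 := by
        calc (F : ℝ) ^ 2 * Real.exp (-(η * (d i : ℝ) / 20)) * R
            ≤ Real.exp (2 * ε * Y) * Real.exp (-(η * (d i : ℝ) / 20)) * Real.exp (10 * ε * Y) := by
              apply mul_le_mul _ hRle hR0 (by positivity)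
              exact mul_le_mul_of_nonneg_right hF2 (Real.exp_pos _).le
          _ = Real.exp (2 * ε * Y + -(η * (d i : ℝ) / 20) + 10 * ε * Y) := by
              rw [Real.exp_add, Real.exp_add]
          _ ≤ 1 := by
              rw [Real.exp_le_one_iff]
              have a1 : ε * Y ≤ η / 1000 * Y := mul_le_mul_of_nonneg_right he3 hY0.le
              have a2 : η * (3.8 * Y) ≤ η * d i := mul_le_mul_of_nonneg_left hdi hη.le
              have a3 : 0 ≤ η * Y := by positivity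
              linarith
      have h3 : (1 + (d i : ℝ)) ^ 4 ≤ (6 * Y) ^ 4 := pow_le_pow_left₀ (by positivity) (hd6 i hi) 4
      calc Ch * (1 + (d i : ℝ)) ^ 4 * (1 + (F : ℝ) ^ 2 * Real.exp (-(η * (d i : ℝ) / 20)) * R)
          ≤ Ch * (6 * Y) ^ 4 * 2 := by
            apply mul_le_mul _ (by linarith) (by positivity) (by positivity)
            exact mul_le_mul_of_nonneg_left h3 (by linarith)
        _ = _ := by ring
    -- the third factor
    have h3rd : ∀ f ∈ Icc 2 F, ∀ χ ∈ prm f (fun _ => True), ∀ k ∈ S f χ,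
        1 / (Nat.totient f : ℝ) * ‖PX χ (zY Y) (ty 2) (d 2) k‖ ≤ (|Cm| + 4) * Y / Y ^ (A + 20) := by
      intro f hf χ hχ k hk
      rw [mem_Icc] at hf
      have hf0 : NeZero f := ⟨by omega⟩
      have hφ : (1 : ℝ) ≤ Nat.totient f := by exact_mod_cast Nat.totient_pos.2 (by omega)
      have hd2 := (hl1 2 (by decide)).1
      rw [Pool.Agent.Q95.KS.ty0 (by decide : ((2 : Fin 10) : ℕ) < 5)]
      rcases le_or_gt (f : ℝ) (Y ^ (A + 20)) with hfY | hfY
      · have h1 := hm f hf0 χ (zY Y) (d 2) k (hfY.trans (pow_le_pow_left₀ hY0.le (by linarith) _)) (by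
          have := hkd 2 (by decide) k (mem_filter.1 hk).1
          exact_mod_cast this)
        have h2 : Cm / (1 + (d 2 : ℝ)) ^ (A + 20) ≤ |Cm| / Y ^ (A + 20) := by
          apply div_le_div₀ (abs_nonneg _) (le_abs_self _) (by positivity)
          exact pow_le_pow_left₀ hY0.le (by linarith) _
        have h3 : 1 / (Nat.totient f : ℝ) ≤ 1 := by
          rw [div_le_one (by linarith)]
          exact hφ
        calc 1 / (Nat.totient f : ℝ) * ‖PX χ (zY Y) 0 (d 2) k‖ ≤ 1 * (|Cm| / Y ^ (A + 20)) :=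
              mul_le_mul h3 (h1.trans h2) (norm_nonneg _) zero_le_one
          _ = |Cm| / Y ^ (A + 20) := one_mul _
          _ ≤ (|Cm| + 4) * Y / Y ^ (A + 20) := by
              apply div_le_div_of_nonneg_right _ (by positivity)
              nlinarith [abs_nonneg Cm]
      · have h1 : 1 / (Nat.totient f : ℝ) ≤ 2 * Y * (1 / f) :=
          Pool.Agent.L7h26.BW.inv_phi_le hYo (by omega) (hf.2.trans hFF)
        have h2 : 1 / (f : ℝ) ≤ 1 / Y ^ (A + 20) := one_div_le_one_div_of_le (by positivity) hfY.le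
        have h3 : ‖PX χ (zY Y) 0 (d 2) k‖ ≤ 2 := by
          refine (norm_PX_le χ (zY Y) 0 (d 2) k).trans ?_
          rw [cb_ne (by decide)]
          norm_num
        calc 1 / (Nat.totient f : ℝ) * ‖PX χ (zY Y) 0 (d 2) k‖ ≤ (2 * Y * (1 / Y ^ (A + 20))) * 2 := by
              apply mul_le_mul _ h3 (norm_nonneg _) (by positivity)
              exact h1.trans (mul_le_mul_of_nonneg_left h2 (by positivity))
          _ = 4 * Y / Y ^ (A + 20) := by ring
          _ ≤ (|Cm| + 4) * Y / Y ^ (A + 20) := by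
              apply div_le_div_of_nonneg_right _ (by positivity)
              nlinarith [abs_nonneg Cm]
    -- collect
    have hterm : ∀ f ∈ Icc 2 F, ∀ χ ∈ prm f (fun _ => True), ∀ k ∈ S f χ,
        1 / (Nat.totient f : ℝ) * ‖∏ i, PX χ (zY Y) (ty i) (d i) k‖ ≤
        128 * Y * ((|Cm| + 4) * Y / Y ^ (A + 20)) *
          (‖PX χ (zY Y) (ty 0) (d 0) k‖ ^ 2 + ‖PX χ (zY Y) (ty 1) (d 1) k‖ ^ 2) := by
      intro f hf χ hχ k hk
      have h1 := rest_le χ (zY Y) d k hYo (by have := hl2 9 (by decide); linarith)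
      have h2 := h3rd f hf χ hχ k hk
      set a := ‖PX χ (zY Y) (ty 0) (d 0) k‖ with ha
      set b := ‖PX χ (zY Y) (ty 1) (d 1) k‖ with hb
      set c := ‖PX χ (zY Y) (ty 2) (d 2) k‖ with hc
      set β := (|Cm| + 4) * Y / Y ^ (A + 20) with hβ
      have ha0 : 0 ≤ a := norm_nonneg _
      have hb0 : 0 ≤ b := norm_nonneg _
      have hφ : (0 : ℝ) ≤ 1 / (Nat.totient f : ℝ) := by positivity
      have hβ0 : 0 ≤ β := by positivity
      calc 1 / (Nat.totient f : ℝ) * ‖∏ i, PX χ (zY Y) (ty i) (d i) k‖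
          ≤ 1 / (Nat.totient f : ℝ) * (256 * Y * (a * b * c)) := mul_le_mul_of_nonneg_left h1 hφ
        _ = 256 * Y * (a * b) * (1 / (Nat.totient f : ℝ) * c) := by ring
        _ ≤ 256 * Y * (a * b) * β := mul_le_mul_of_nonneg_left h2 (by positivity)
        _ ≤ 128 * Y * β * (a ^ 2 + b ^ 2) := by
            have h5 : 0 ≤ 128 * Y * β * (a - b) ^ 2 := by positivity
            nlinarith
    calc ∑ f ∈ Icc 2 F, ∑ χ ∈ prm f (fun _ => True), ∑ k ∈ S f χ,
          1 / (Nat.totient f : ℝ) * ‖∏ i, PX χ (zY Y) (ty i) (d i) k‖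
        ≤ ∑ f ∈ Icc 2 F, ∑ χ ∈ prm f (fun _ => True), ∑ k ∈ S f χ,
          128 * Y * ((|Cm| + 4) * Y / Y ^ (A + 20)) *
          (‖PX χ (zY Y) (ty 0) (d 0) k‖ ^ 2 + ‖PX χ (zY Y) (ty 1) (d 1) k‖ ^ 2) :=
          sum_le_sum fun f hf => sum_le_sum fun χ hχ => sum_le_sum fun k hk => hterm f hf χ hχ k hk
      _ = 128 * Y * ((|Cm| + 4) * Y / Y ^ (A + 20)) * (∑ f ∈ Icc 2 F, ∑ χ ∈ prm f (fun _ => True), ∑ k ∈ S f χ,
          ‖PX χ (zY Y) (ty 0) (d 0) k‖ ^ 2 + ∑ f ∈ Icc 2 F, ∑ χ ∈ prm f (fun _ => True), ∑ k ∈ S f χ,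
          ‖PX χ (zY Y) (ty 1) (d 1) k‖ ^ 2) := by
          simp only [← mul_sum, sum_add_distrib]
      _ ≤ 128 * Y * ((|Cm| + 4) * Y / Y ^ (A + 20)) * (2 * 1296 * Ch * Y ^ 4 + 2 * 1296 * Ch * Y ^ 4) := by
          apply mul_le_mul_of_nonneg_left _ (by positivity)
          exact add_le_add (hms 0 (by decide)) (hms 1 (by decide))
      _ = D * Y ^ 6 / Y ^ (A + 20) := by
          rw [hD]
          ring
  -- the sum over the tuples
  have hpt : ∀ (f : ℕ) (χ : DirichletCharacter ℂ f), ∑ k ∈ FK (Kc Y + 1), ‖AN χ ε Y k‖ ≤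
      31 * ∑ d ∈ DY Y, ∑ k ∈ (FK (Kc Y + 1)).filter (fun k => NR ε Y d χ k),
        ‖∏ i, PX χ (zY Y) (ty i) (d i) k‖ := by
    intro f χ
    rw [mul_sum]
    simp only [sum_filter, mul_sum]
    rw [sum_comm]
    refine sum_le_sum fun k _ => ?_
    unfold AN
    refine (norm_sum_le _ _).trans (sum_le_sum fun d _ => ?_)
    rw [norm_mul, Complex.norm_intCast]
    have h1 := Pool.Agent.Q95.KS.ed_bound d
    split_ifs
    · exact mul_le_mul_of_nonneg_right h1 (norm_nonneg _)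
    · simp
  calc ∑ f ∈ Icc 2 F, (1 / (Nat.totient f : ℝ)) * ∑ χ ∈ prm f (fun _ => True), ∑ k ∈ FK (Kc Y + 1),
        ‖AN χ ε Y k‖
      ≤ ∑ f ∈ Icc 2 F, (1 / (Nat.totient f : ℝ)) * ∑ χ ∈ prm f (fun _ => True),
        (31 * ∑ d ∈ DY Y, ∑ k ∈ (FK (Kc Y + 1)).filter (fun k => NR ε Y d χ k),
        ‖∏ i, PX χ (zY Y) (ty i) (d i) k‖) :=
        sum_le_sum fun f _ => mul_le_mul_of_nonneg_left (sum_le_sum fun χ _ => hpt f χ) (by positivity)
    _ = 31 * ∑ d ∈ DY Y, ∑ f ∈ Icc 2 F, ∑ χ ∈ prm f (fun _ => True),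
        ∑ k ∈ (FK (Kc Y + 1)).filter (fun k => NR ε Y d χ k),
        1 / (Nat.totient f : ℝ) * ‖∏ i, PX χ (zY Y) (ty i) (d i) k‖ := by
        rw [sum_comm, mul_sum]
        refine sum_congr rfl fun f _ => ?_
        rw [sum_comm, mul_sum, mul_sum]
        refine sum_congr rfl fun χ _ => ?_
        simp only [← mul_sum]
        ring
    _ ≤ 31 * ∑ d ∈ DY Y, D * Y ^ 6 / Y ^ (A + 20) :=
        mul_le_mul_of_nonneg_left (sum_le_sum fun d hd => hone d hd) (by norm_num)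
    _ = 31 * D * Y ^ 6 / Y ^ (A + 20) * (DY Y).card := by
        rw [sum_const, nsmul_eq_mul]
        ring
    _ ≤ 31 * D * Y ^ 6 / Y ^ (A + 20) * (41 * Y) ^ 10 := mul_le_mul_of_nonneg_left hcard (by positivity)
    _ = (31 * 41 ^ 10 * D) / Y ^ 4 / Y ^ A := by
        field_simp
        ring
    _ ≤ 1 / Y ^ A := by
        apply div_le_div_of_nonneg_right _ (by positivity)
        rw [div_le_one (by positivity)]
        refine hYD.trans ?_
        calc Y = Y ^ 1 := (pow_one Y).symm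
          _ ≤ Y ^ 4 := pow_le_pow_right₀ hYo (by norm_num)

end Pool.Agent.L7h18.BP
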