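import Mathlib
import Pool.Agent.L7h88.BW.Stm

/-!
# Project BP (helper18): Bombieri-Vinogradov in windows of length `x^{1/2}` with a POWER SAVING exceptional set

Continuation of project BW (`Pool/Agent/L7h88/BW/Stm.lean`; all statements used here are theorems:
`S_SMA`, `S_SMB`, `S_SMC`, `S_MBX`, `S_MSP`, `S_PSV`, `S_TUX`). New: the characters and frequencies at which ALL factors
are `≥ e^{-ε Y}` are treated pointwise in `u` (like `S_NEAR` in `Pool/Agent/Q240/KS/Stm2.lean`), all others have a power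
saving in mean square. Goal: `S_BVP`, for MP_5f6ee5_nt and MP_e94e4b_nt.

Every statement is a `Prop` with a complete proof in its docstring; constants may be changed freely inside the proofs.
-/

set_option autoImplicit false

namespace Pool.Agent.L7h18.BP

open Finset Filter MeasureTheory
open Pool.Agent.H376R2.MR (ch DP FK w)
open Pool.Agent.Q240.KS (cf sp ty ed DY zY pic)
open Pool.Agent.L7h88.BW

/-! ### definitions -/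

/-- the level `e^{δ Y}` -/
noncomputable def Gc (δ Y : ℝ) : ℕ := ⌊Real.exp (δ * Y)⌋₊

/-- near the line one: no factor is long and all ten factors are large -/
def NR (ε Y : ℝ) (d : Fin 10 → ℕ) {f : ℕ} (χ : DirichletCharacter ℂ f) (k : ℤ) : Prop :=
  (∀ i, (d i : ℝ) / 20 ≤ 0.45 * Y) ∧ ∀ i, Real.exp (-(ε * Y)) ≤ ‖PX χ (zY Y) (ty i) (d i) k‖

open Classical in
/-- the near part of `AX χ Y k` -/
noncomputable def AN {f : ℕ} (χ : DirichletCharacter ℂ f) (ε Y : ℝ) (k : ℤ) : ℂ :=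
  ∑ d ∈ DY Y, (ed d : ℂ) * (if NR ε Y d χ k then ∏ i, PX χ (zY Y) (ty i) (d i) k else 0)

/-- the Fourier coefficient of a window of length `δ`; `‖gz δ k‖ = gk δ k` (`norm_ckk` in `L7h23/BW/Psv.lean`) -/
noncomputable def gz (δ : ℝ) (k : ℤ) : ℂ :=
  (if k = 0 then (δ : ℂ) else (Complex.exp ((k * δ : ℝ) * Complex.I) - 1) / ((k : ℂ) * Complex.I)) / (2 * Real.pi)

/-- the near part of the window: a trigonometric polynomial in `u` -/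
noncomputable def NW {f : ℕ} (χ : DirichletCharacter ℂ f) (ε Y κ u : ℝ) : ℂ :=
  ∑ k ∈ FK (Kc Y + 1), gz κ k * AN χ ε Y k * Complex.exp (((k : ℝ) * u : ℝ) * Complex.I)

/-! ### near the line one -/

/-- **HMP** (Halász-Montgomery over pairs `(χ, k)`; from `S_SMA`, `S_SMC` and, for equal characters, `S_SB1`, `S_SBV` of
`Pool/Agent/Q240/KS/Stm1.lean`, which are theorems: `Pool/Agent/Q298/KS/{Sb1,Sbv}.lean`). Let `e = d - 1` (`d ≥ 1`). The kernel is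
`K(n) = ∑_{j<3} cf z 1 (e + j) n = (1/n) ∑_{j<3} w (20 log n - e - j) ≥ 0`, and `K(n) = 1/n` if `|20 log n - d| ≤ 1`, in particular where
`cf z t d n ≠ 0`. Let `L` be the set of the pairs `r = (χ_r, k_r)`, `R` their number, `P_r = PX χ_r z t d k_r`. Duality: for complex `c_r`
`|∑_r c_r P_r|² ≤ (∑_n n cf(n)²) (∑_n K(n) |∑_r c_r χ_r(n) n^{-i k_r}|²)`, and the second sum is, grouping `r` by the character,
`∑_χ ∑_n K(n) |χ(n)|² |∑_{r : χ_r = χ} c_r n^{-i k_r}|² + ∑_{χ_r ≠ χ_s} c_r conj(c_s) ∑_n K(n) χ_r(n) conj(χ_s(n)) n^{-i (k_r - k_s)}`; drop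
`|χ(n)|² ≤ 1` in the first sum. So it is at most `B ∑ |c_r|²`, where `B` is a bound of all row sums: equal characters:
`∑_{s} |∑_j PF z 1 (e + j) (k_r - k_s)| ≤ C (1 + d) (1 + ∑_{τ ≠ 0} 1/τ² + R e^{-η d/20})` (`SB1` for `|τ| ≤ e^{(e)/20 - 1}`, otherwise
`SBV` with `M = 8`, where `1/|τ| ≤ e^{1 - e/20}`; `τ = 0` trivially `≤ 6`); different characters: `χ_r(n) conj(χ_s(n)) = ψ(n)` for all `n`, where
`ψ = changeLevel χ_r * (changeLevel χ_s)⁻¹` modulo `f_r f_s ≤ F²` (both sides vanish if `(n, f_r f_s) > 1`), and `ψ ≠ 1` because both are primitive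
and different (`changeLevel χ_r = changeLevel χ_s` would have the same conductor `f_r = f_s`, and `changeLevel` is injective); each such
kernel sum `∑_j PX ψ z 1 (e + j) τ`, `|τ| ≤ 2 e^{3 d/20}`, is at most `C F² (1 + d)² e^{-η d/20}`: `S_SMA` if `|τ| ≤ e^{d/40}`,
`S_SMC` with `M = 8` otherwise (small `d`: trivial bound `6` and a large `C`). Choose `c_r = conj P_r`. And `∑ n cf(n)² ≤ 2 (1 + d)²`
(`S_TRI`: theorem in `Pool/Agent/Q298/KS/Tri.lean`). -/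
def S_HMP : Prop := ∃ C η : ℝ, 1 ≤ C ∧ 0 < η ∧ η ≤ 1 ∧ ∀ (F z : ℕ) (t : Fin 3) (d : ℕ)
  (S : ∀ f : ℕ, DirichletCharacter ℂ f → Finset ℤ), 1 ≤ F → 1 ≤ d →
  (∀ f χ, ∀ k ∈ S f χ, |(k : ℝ)| ≤ Real.exp (3 * d / 20)) →
  ∑ f ∈ Icc 2 F, ∑ χ ∈ prm f (fun _ => True), ∑ k ∈ S f χ, ‖PX χ z t d k‖ ^ 2 ≤
    C * (1 + (d : ℝ)) ^ 4 * (1 + (F : ℝ) ^ 2 * Real.exp (-(η * d / 20)) *
      ∑ f ∈ Icc 2 F, ∑ χ ∈ prm f (fun _ => True), ((S f χ).card : ℝ))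

/-- **NRX** (`S_HMP → S_MSP → S_SMA → S_SMC → S_MBX → S_NRX`; compare with `S_NEAR`). Proof. Constants: `C₁, η₁` from SMC with
`M = 1100`, `η` from HMP; `ε = δ = min (1/100000) (η₁/10000) (η/1000)`. Fix `d ∈ DY Y` with all `d i / 20 ≤ 0.45 Y` (otherwise `NR` is false)
such that `NR ε Y d χ k` holds for some pair; `|DY Y| ≤ (41 Y)^10`, `|ed d| ≤ 31` (`Pool.Agent.Q95.KS.ed_bound`, `DY_card`). `F = Gc δ Y`.
(1) `i ≥ 5` (then `ty i ≠ 0`): `d i < Y/100`. Otherwise, as `χ ≠ 1`, for `|k| ≤ e^{d_i/40}` SMA gives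
`‖PX‖ ≤ 2 C e^{δY} (1 + d_i) e^{-d_i/40} ≤ Y² e^{δY - Y/4000} < e^{-εY}`, and for `|k| > e^{d_i/40}` (`|k| ≤ e^{0.505 Y} ≤ e^{1100 d_i/20}`) SMC gives
`‖PX‖ ≤ C₁ e^{δY} (1 + d_i)² (e^{-d_i/80} + e^{-η₁ d_i/20}) < e^{-εY}`.
(2) `i < 5`: `PX ≠ 0` gives `d i ≤ 4 Y + 9` (as in `PX_zero` of `L7h76/BW/Msq.lean`), and `∑ d ≥ 20 (Y - 1)`, so each `d i ≥ 3.8 Y` for `i < 5`.
(3) Let `S f χ = {k ∈ FK (Kc Y + 1) : NR ε Y d χ k}` and `R` the total number of pairs. MSP with `tt i = 0`, `d' i = d 0` for `i < 4` and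
`tt i = 1`, `d' i = 0` for `i ≥ 4` (`PX χ z 1 0 k = 1`: `PX_one`): `R e^{-8 ε Y} ≤ C (1 + 16.1 Y...)^C (1 + F² K e^{-4 d_0/20})`, `F² K ≤ 2 e^{0.51 Y}`,
`4 d_0/20 ≥ 0.76 Y`, so `R ≤ e^{10 ε Y}`.
(4) HMP for the factors `i = 0, 1`: `F² e^{-η d_i/20} R ≤ e^{(2δ + 10 ε - 0.19 η) Y} ≤ 1`, so the sums of `‖PX_i‖²` over all pairs are `≤ Y^6`
(`|k| ≤ e^{0.505 Y} ≤ e^{3 d_i/20}`).
(5) The factors `i ≥ 3` are `≤ 2 (1 + 9 Y)` (trivially, with `|χ| ≤ 1`; it is `≤ 2` if `ty i ≠ 2`), so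
`∑_{χ mod f} ∑_{k ∈ S} ‖∏ PX‖ ≤ Y^{10} sup ‖PX_2‖ · (∑ ‖PX_0‖²)^{1/2} (∑ ‖PX_1‖²)^{1/2}`. Let `B = A + 40`. For `f ≤ Y^B`: MBX with exponents
`(3, B, A + 40)`: `‖PX_2‖ ≤ C / (1 + d_2)^{A + 40}` (`f ≤ Y^B ≤ (1 + d_2)^B`). For `f > Y^B`: `‖PX_2‖ ≤ 2` and
`1/φ(f) ≤ C (1 + log f)/f ≤ Y^{2 - B}`. Summing over `d` gives the claim. -/
def S_NRX : Prop := ∃ ε δ : ℝ, 0 < ε ∧ 0 < δ ∧ δ ≤ 1 / 100 ∧ ∀ A : ℕ, ∃ Y₀ : ℝ, ∀ Y : ℝ, Y₀ ≤ Y →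
  ∑ f ∈ Icc 2 (Gc δ Y), (1 / (Nat.totient f : ℝ)) * ∑ χ ∈ prm f (fun _ => True), ∑ k ∈ FK (Kc Y + 1),
    ‖AN χ ε Y k‖ ≤ 1 / Y ^ A

/-! ### all other frequencies -/

/-- **FRX** (`S_MSP → S_SMA → S_SMB → S_FRX`; adapt `sd_bound` and `s_MSQ` of `Pool/Agent/L7h76/BW/Msq.lean`). Proof.
`AX - AN = ∑_d ed d (if NR then 0 else ∏ PX)`; by Cauchy-Schwarz over `d ∈ DY Y` (`|ed d| ≤ 31`) it suffices to bound, for each `d`, the sum of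
`‖∏ i PX χ (zY Y) (ty i) (d i) k‖²` over all `f ∈ Icc 2 (Fc Y)`, primitive `χ`, `k ∈ FK (Kc Y + 1)` with `¬ NR ε Y d χ k` by `Y^C e^{-2ηY}`.
(A) Some `d j / 20 > 0.45 Y`: cases (b), (c1), (c2), (c3) of `sd_bound` (they do not use `Good`): total `≤ C Y^C e^{-0.045 Y}`.
(B) All `d i / 20 ≤ 0.45 Y`: then `¬ NR` means that some factor `i` is `< e^{-εY}`. For each `i` the sum over the pairs with this property is at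
most `e^{-2εY}` times the mean square of the product of the other nine factors, which is by MSP
`≤ C (1 + 21 Y)^C (1 + 6 e^{(0.505 - 0.98 + 0.45) Y}) ≤ 7 C (1 + 21 Y)^C` (as in `core` there, with the indicator inside). -/
def S_FRX : Prop := ∀ ε : ℝ, 0 < ε → ∃ η Y₀ : ℝ, 0 < η ∧ ∀ Y : ℝ, Y₀ ≤ Y →
  ∑ f ∈ Icc 2 (Fc Y), ∑ χ ∈ prm f (fun _ => True), ∑ k ∈ FK (Kc Y + 1), ‖AX χ Y k - AN χ ε Y k‖ ^ 2 ≤
    Real.exp (-(η * Y))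

/-! ### windows -/

open Classical in
/-- **PV2**: Parseval's identity for windows minus a trigonometric polynomial (adapt `Pool/Agent/L7h23/BW/Psv.lean`: same proof, for the
function `f u - ∑_{k ∈ S} gz δ k e_k e^{iku}`; its Fourier coefficient is `gz δ k (DP s b k - e_k 1_{k ∈ S})`, `gz δ k = ckk δ k / (2π)`). -/
def S_PV2 : Prop := ∀ (s : Finset ℕ) (b : ℕ → ℂ) (v0 δ : ℝ) (S : Finset ℤ) (e : ℤ → ℂ), 0 < δ → δ ≤ 1 →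
  (∀ n ∈ s, 1 ≤ n ∧ v0 + δ ≤ Real.log n ∧ Real.log n < v0 + 2 * Real.pi) →
  HasSum (fun k : ℤ => gk δ k ^ 2 * ‖DP s b k - (if k ∈ S then e k else 0)‖ ^ 2)
    (1 / (2 * Real.pi) * ∫ u in v0..(v0 + 2 * Real.pi),
      ‖∑ n ∈ s.filter (fun n : ℕ => u < Real.log n ∧ Real.log n ≤ u + δ), b n -
        ∑ k ∈ S, gz δ k * e k * Complex.exp (((k : ℝ) * u : ℝ) * Complex.I)‖ ^ 2)

/-- **WN2** (`S_PV2 → S_TUX → S_MSP → S_FRX → S_WN2`; adapt `Pool/Agent/L7h26/BW/Winq.lean`). Proof. As for WINQ, with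
`S = FK (Kc Y + 1)`, `e k = AN χ ε Y k`: the frequencies `|k| ≤ Kc Y` contribute `≤ (κ/2π)² e^{-η₁Y}` by FRX, the others are as there,
`≤ Y^C e^{-1.01 Y} ≤ κ² Y^C e^{-0.002 Y}`. -/
def S_WN2 : Prop := ∀ ε : ℝ, 0 < ε → ∃ η Y₀ : ℝ, 0 < η ∧ ∀ Y : ℝ, Y₀ ≤ Y → ∀ κ : ℝ,
  Real.exp (-(0.504 * Y)) ≤ κ → κ ≤ 1 / 4 →
  ∑ f ∈ Icc 2 (Fc Y), ∑ χ ∈ prm f (fun _ => True), ∫ u in (Y - 1 / 4)..(Y + 1 / 4),
    ‖Wn χ κ u - NW χ ε Y κ u‖ ^ 2 ≤ κ ^ 2 * Real.exp (-(η * Y))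

/-- **CH2** (`S_WN2 → S_NRX → S_CH2`). Proof. `ε, δ` from NRX, `Ef u = ∑_f (1/φ(f)) ∑_χ ‖Wn χ κ u - NW χ ε Y κ u‖`. By Cauchy-Schwarz over
`f`, `χ` (at most `f` characters modulo `f`, `f/φ(f)² ≤ C Y²`... or simply `1/φ(f) ≤ 1` and at most `(Gc δ Y)²` pairs if `2δ < η₁`; to avoid this use
`∑_f ∑_χ 1/φ(f)² ≤ ∑_f 1/φ(f) ≤ C Y²`) and over `u` (length `1/2`), `∫ Ef ≤ (C Y²)^{1/2} (κ² e^{-η₁Y})^{1/2} ≤ κ e^{-ηY}` with `η = η₁/4`. And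
`∑_f (1/φ(f)) ∑_χ ‖NW‖ ≤ (κ/(2π)) ∑_f (1/φ(f)) ∑_χ ∑_k ‖AN χ ε Y k‖ ≤ κ / Y^A` by NRX (`‖gz κ k‖ = gk κ k ≤ κ/(2π)`: `gk_le1` in `Winq.lean`).
`Ef` is interval integrable: finite sums of norms of a measurable bounded function (`intble` lemmas in `L7h26/BW/Base.lean`) minus a
continuous one. -/
def S_CH2 : Prop := ∃ δ η : ℝ, 0 < δ ∧ δ ≤ 1 / 100 ∧ 0 < η ∧ ∀ A : ℕ, ∃ Y₀ : ℝ, ∀ Y : ℝ, Y₀ ≤ Y → ∀ κ : ℝ,
  Real.exp (-(0.504 * Y)) ≤ κ → κ ≤ 1 / 4 → ∃ Ef : ℝ → ℝ, (∀ u, 0 ≤ Ef u) ∧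
    IntervalIntegrable Ef volume (Y - 1 / 4) (Y + 1 / 4) ∧
    ∫ u in (Y - 1 / 4)..(Y + 1 / 4), Ef u ≤ κ * Real.exp (-(η * Y)) ∧
    ∀ u : ℝ, Y - 1 / 4 ≤ u → u ≤ Y + 1 / 4 →
      ∑ f ∈ Icc 2 (Gc δ Y), (1 / (Nat.totient f : ℝ)) * ∑ χ ∈ prm f (fun _ => True), ‖Wn χ κ u‖ ≤
        Ef u + κ / Y ^ A

open Classical in
/-- **BVP** (`S_CH2 → S_BVP`; adapt `Pool/Agent/L7h26/BW/Bvg.lean`): Bombieri-Vinogradov in windows with a power saving exceptional set.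
Proof. `δ` from CH2, `η = min (η₁/3) 0.004`; apply CH2 with `A + 4`. The average over `t ∈ [0, κ]` of `∑_j Ef(Y - 1/4 + t + jκ)` is at most
`(1/κ) ∫ Ef ≤ e^{-η₁Y}`, so for some `t` the number of `j` with `Ef(u_j) > κ / Y^{A+4}` is at most `Y^{A+4} e^{-η₁Y}/κ ≤ e^{-ηY}/κ`. For the other
`j`, as in the proof of BVG, `∑_{q ≤ Gc δ Y} |th u κ q a - th u κ 1 0/φ(q)| ≤ C Y² e^{Y+1} · 2 κ / Y^{A+4} + Fc Y · (κ th u κ 1 0 + pp(u))`, and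
`th u κ 1 0 ≤ C κ e^Y Y` trivially (at most `2 κ e^Y + 1` integers, each `log ≤ 2Y`), `κ th ≤ C κ² e^Y Y ≤ κ e^{Y - Y/4} C Y`,
`pp(u) ≤ C e^{(Y+1)/2} Y²`... which is NOT small enough for one window; instead: the number of proper prime powers in `(e^u, e^{u+κ}]` is at most
`2 Y (1 + 2 κ e^{Y/2})` (for each exponent `k ≥ 2`, `k ≤ 2 Y + 4`, the `k`-th roots lie in an interval of length `≤ κ e^{(Y+1)/2}`), so
`pp(u) ≤ 10 Y² (1 + 2 κ e^{Y/2}) ≤ κ e^{0.6 Y}`, and `Fc Y κ e^{0.6Y} ≤ κ e^{0.61 Y}`. -/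
def S_BVP : Prop := ∃ δ η : ℝ, 0 < δ ∧ δ ≤ 1 / 100 ∧ 0 < η ∧ η ≤ 0.004 ∧ ∀ A : ℕ, ∃ Y₀ : ℝ, ∀ Y : ℝ, Y₀ ≤ Y →
  ∀ κ : ℝ, Real.exp (-((1 / 2 + η) * Y)) ≤ κ → κ ≤ Real.exp (-(Y / 4)) → ∃ t : ℝ, 0 ≤ t ∧ t ≤ κ ∧
  (((range (⌊1 / (2 * κ)⌋₊ - 1)).filter (fun j : ℕ => ¬ ∀ a : ℕ → ℕ, (∀ q, (a q).Coprime q) →
    ∑ q ∈ Icc 1 (Gc δ Y), |th (Y - 1 / 4 + t + j * κ) κ q (a q) -
      th (Y - 1 / 4 + t + j * κ) κ 1 0 / (Nat.totient q : ℝ)| ≤ κ * Real.exp Y / Y ^ A)).card : ℝ) ≤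
    Real.exp (-(η * Y)) / κ

end Pool.Agent.L7h18.BP
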