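import Pool.Agent.L7h88.BW.All
import Pool.Agent.L7h28.BP.All
import Pool.Agent.L7h29.BP.Bvp
import Pool.Agent.L7h29.BP.Wn2
import Pool.Agent.L7h97.BP.Ch2
import Pool.Agent.L7h97.BP.Cla
import Pool.Agent.L7h97.BP.Clb
import Pool.Agent.L7h23.BP.Hmp
import Pool.Agent.L7h23.BP.Pv2
import Pool.Agent.L7h76.BP.Frx
import Pool.Agent.L7h37.BP.EqwM
import Pool.Agent.L7h37.BP.Rmw
import Pool.Agent.L7h18.BP.Nr2
import Pool.Agent.L7h18.BP.Gen1
import Pool.Agent.L7h18.BP.Ikg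

/-!
# Project BP: all statements, unconditionally
-/

set_option autoImplicit false

namespace Pool.Agent.L7h18.BP

open Pool.Agent.L7h88.BW

theorem hmp : S_HMP := Pool.Agent.L7h23.BP.s_HMP Pool.Agent.L7h76.BW.s_SMA smc

theorem nrx : S_NRX := s_NRX hmp msp Pool.Agent.L7h76.BW.s_SMA smc mbx

theorem frx : S_FRX := Pool.Agent.L7h76.BP.s_FRX msp Pool.Agent.L7h76.BW.s_SMA smb

theorem wn2 : S_WN2 := Pool.Agent.L7h29.BP.s_WN2 Pool.Agent.L7h23.BP.s_PV2 Pool.Agent.L7h23.BW.s_TUX msp frx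

theorem ch2 : S_CH2 := Pool.Agent.L7h97.BP.s_CH2 wn2 nrx

theorem bvp : S_BVP := Pool.Agent.L7h29.BP.s_BVP ch2

theorem gen : S_GEN := s_GEN bvp Pool.Agent.L7h18.BW.s_POOR

theorem ik : S_IK := s_IK gen

theorem clb : S_CLB := Pool.Agent.L7h97.BP.s_CLB Pool.Agent.L7h28.BP.mtw Pool.Agent.L7h37.BP.s_RMW

theorem eqw : S_EQW := Pool.Agent.L7h37.BP.s_EQW

end Pool.Agent.L7h18.BP
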