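import Pool.Agent.W70.HR.Stm
import Pool.Agent.L7h18.BP.Stm

/-!
# Project BP (helper18), second part: the Maynard-Tao engine of project HR for windows

Project HR (`Pool/Agent/W70/HR/Stm.lean`, everything there is proved) treats the integers of `[X, 2X)` with level `X^{1/2}`. Here the
same for an arbitrary finite set `ω.Q ⊆ [X, 2X)` (a window) with level of distribution `X^ϑ`, `ϑ` small, and with a density of primes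
`ρ = ω.P log X / ω.H ≥ c₀` that need not be asymptotically `1`. The engine statement `S_MLA` is abstract in the set, so the files
`W327/HR/Mlb.lean`, `W335/HR/SM.lean`, `W333/HR/Par.lean`, `W70/HR/{WtA,Wt}.lean`, `W168/HR/CS.lean`, `W67/HR/MT.lean`, `W978/HR/RM.lean` can be
adapted almost word by word. All statements of the list in `W70/HR/{Asm0,Asm}.lean` are available as theorems.
-/

set_option autoImplicit false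

open Finset

namespace Pool.Agent.L7h18.BP

open Pool.Agent.H361R2.PP
open Pool.Agent.H410R2.AC (wt GG cfg term WW pos Inj coef)
open Pool.Agent.W70.HR (Bw rU xh qh Fam S_MLA S_PT S_MV)
open Pool.Agent.L7h88.BW (th)

/-- a window: the set of integers, its length, the expected number of primes -/
structure Wd where
  Q : Finset ℕ
  H : ℝ
  P : ℝ

/-- the integers of the window in the class `b` -/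
noncomputable def WI (ω : Wd) (X b : ℕ) : Finset ℕ := ω.Q.filter (fun n => n % Wm X = b)

/-- those with `n + a` prime -/
noncomputable def WP (ω : Wd) (X b a : ℕ) : Finset ℕ := ω.Q.filter (fun n => n % Wm X = b ∧ (n + a).Prime)

/-- expected number of integers of the class with `N` rough positions -/
noncomputable def WOm (ω : Wd) (δ : ℝ) (X N : ℕ) : ℝ := ω.H / Wm X * VV δ X ^ N

/-- the same with one further position where the value is prime -/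
noncomputable def WOmP (ω : Wd) (δ : ℝ) (X N : ℕ) : ℝ := ω.P / Nat.totient (Wm X) * VV δ X ^ N

/-- the density of the primes relative to the rough numbers, at the expected density `1 / log X`:
`WOmP N = (ω.P log X / ω.H) * vn * WOm (N + 1)` -/
noncomputable def vn (δ : ℝ) (X : ℕ) : ℝ := (Wm X : ℝ) / (Nat.totient (Wm X) * Real.log X * VV δ X)

/-- the spectator family -/
noncomputable def Sp (ϑ δ θ : ℝ) (X : ℕ) : Finset (Finset ℕ) :=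
  (P2 (JJ δ X) X).powerset.filter (fun R : Finset ℕ => ∏ p ∈ R, (p : ℝ) ≤ (X : ℝ) ^ (ϑ / 2 - 2 * θ))

/-- the sifting primes -/
noncomputable def PW (ϑ : ℝ) (X : ℕ) : Finset ℕ := (PX X).filter (fun p : ℕ => (p : ℝ) ≤ (X : ℝ) ^ ϑ)

/-- equidistribution of the window and of the primes in the window, level `X^ϑ` -/
def EqW (K A : ℕ) (ϑ Λ : ℝ) (X : ℕ) (ω : Wd) : Prop :=
  0 < ω.H ∧ 0 ≤ ω.P ∧ ω.Q ⊆ Ico X (2 * X) ∧ ∀ b < Wm X,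
    (∃ Er : Finset ℕ → ℝ, Eqd none (PW ϑ X) (WI ω X b) (ω.H / Wm X) Er ∧
      ∑ D ∈ (PX X).powerset.filter (fun D : Finset ℕ => ∏ p ∈ D, (p : ℝ) ≤ (X : ℝ) ^ ϑ),
        (K : ℝ) ^ D.card * Er D ≤ ω.H / Wm X / Real.log X ^ A) ∧
    ∀ a₀ ∈ BB X b ⌊Λ * Real.log X⌋₊,
      ∃ Er : Finset ℕ → ℝ, Eqd (some a₀) (PW ϑ X) (WP ω X b a₀) (ω.P / Nat.totient (Wm X)) Er ∧
      ∑ D ∈ (PX X).powerset.filter (fun D : Finset ℕ => ∏ p ∈ D, (p : ℝ) ≤ (X : ℝ) ^ ϑ),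
        (K : ℝ) ^ D.card * Er D ≤ ω.H / Wm X / Real.log X ^ A

/-- the standing hypothesis on a window -/
def Hyp (K A : ℕ) (ϑ Λ c₀ : ℝ) (X : ℕ) (ω : Wd) : Prop :=
  EqW K A ϑ Λ X ω ∧ c₀ * ω.H ≤ ω.P * Real.log X

/-- **MLW** (adapt `W327/HR/Mlb.lean`; `1/2` becomes `ϑ`). Proof as there: `core` with `z = ⌊X^ϑ⌋`, `D0 = ⌊X^(ϑ - θ)⌋`, `D2 = ⌊X^(ϑ - 2θ)⌋`
(needs `δ ≤ ϑ`), and `hfin` for the two sets; in `EqW` take `K` from `MBody` and `A = N + 4`; for the primes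
`ω.H / Wm X ≤ (ω.P / φ(Wm X)) log X / c₀`. -/
def S_MLW : Prop := ∀ (N m : ℕ) (Λ ϑ θ s c₀ : ℝ), 0 < Λ → 0 < ϑ → ϑ ≤ 1 / 2 → 0 < θ → θ ≤ ϑ / 16 → 0 < s → 0 < c₀ →
  ∃ (K A : ℕ) (δ₀ : ℝ), 0 < δ₀ ∧ ∀ δ : ℝ, 0 < δ → δ ≤ δ₀ → ∃ X₀ : ℕ, ∀ X : ℕ, X₀ ≤ X → ∀ ω : Wd,
  Hyp K A ϑ Λ c₀ X ω → ∀ b : ℕ, b < Wm X →
  ∀ U ⊆ Bw Λ X b, U.card ≤ N → ∀ (F F' : ℕ → Finset (Finset ℕ)) (u u' : ℕ → ℝ),
  (∀ a ∈ U, 0 ≤ u a ∧ Fam δ X (u a) (F a)) → (∀ a ∈ U, 0 ≤ u' a ∧ Fam δ X (u' a) (F' a)) →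
  ∑ a ∈ U, (u a + u' a) ≤ ϑ - 2 * θ →
  ((∀ a ∈ U, F a = F' a) ∨ ∃ a ∈ U, Disjoint (F a) (F' a)) →
  open Classical in
  |∑ n ∈ WI ω X b, rU δ X U n * ((∏ a ∈ U, FS (F a) a n) * ∏ a ∈ U, FS (F' a) a n) -
    (if ∀ a ∈ U, F a = F' a then WOm ω δ X U.card * ∏ a ∈ U, GG (F a) else 0)| ≤
      s * δ ^ m * WOm ω δ X U.card ∧
  ∀ a₀ ∈ Bw Λ X b \ U,
  |∑ n ∈ WP ω X b a₀, rU δ X U n * ((∏ a ∈ U, FS (F a) a n) * ∏ a ∈ U, FS (F' a) a n) -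
    (if ∀ a ∈ U, F a = F' a then WOmP ω δ X U.card * ∏ a ∈ U, GG (F a) else 0)| ≤
      s * δ ^ m * WOmP ω δ X U.card

/-- **SMW** (`S_MLW → S_SMW`; adapt `theorem sm` of `W335/HR/SM.lean`; `corr` there with `1/2`, `1/4` replaced by `ϑ`, `ϑ/2`). -/
def S_SMW : Prop := ∀ (N m t : ℕ) (u β : Fin t → ℝ) (Λ ϑ θ s c₀ : ℝ), (∀ τ, 0 < u τ ∧ 0 < β τ) →
  ∑ τ, β τ = 1 → ∑ τ, u τ ≤ θ / 2 → 0 < Λ → 0 < ϑ → ϑ ≤ 1 / 2 → 0 < θ → θ ≤ ϑ / 16 → 0 < s → 0 < c₀ →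
  ∃ (K A : ℕ) (δ₀ : ℝ), 0 < δ₀ ∧ ∀ δ : ℝ, 0 < δ → δ ≤ δ₀ → ∃ X₀ : ℕ, ∀ X : ℕ, X₀ ≤ X → ∀ ω : Wd,
  Hyp K A ϑ Λ c₀ X ω → ∀ b : ℕ, b < Wm X →
  ∀ S : Fin t → Finset (Finset ℕ), (∀ τ, Fam δ X (u τ) (S τ)) → (∀ τ, ∅ ∉ S τ) →
  (∀ τ τ', τ ≠ τ' → Disjoint (S τ) (S τ')) → (∀ τ, 1 ≤ GG (S τ)) →
  ∀ γ : ℝ, 0 ≤ γ → 1 + γ ≤ (1 / δ) ^ m → ∀ U ⊆ Bw Λ X b, U.card ≤ N → ∀ B ⊆ U,
  ∀ c : (Fin t → Option ℕ) → ℝ, (∀ σ, |c σ| ≤ (1 + γ) ^ 2) →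
    |∑ n ∈ WI ω X b, rU δ X U n * WW B c (xh γ β S n) ^ 2 -
      WOm ω δ X U.card * ∑ σ ∈ cfg t B, c σ ^ 2 * term (qh γ β S) σ| ≤ s * WOm ω δ X U.card ∧
    ∀ a₀ ∈ Bw Λ X b \ U,
      |∑ n ∈ WP ω X b a₀, rU δ X U n * WW B c (xh γ β S n) ^ 2 -
        WOmP ω δ X U.card * ∑ σ ∈ cfg t B, c σ ^ 2 * term (qh γ β S) σ| ≤ s * WOmP ω δ X U.card ∧
      ∀ a₁ ∈ U \ B,
      |∑ n ∈ WP ω X b a₀, rU δ X U n * (FS (Sp ϑ δ θ X) a₁ n * WW B c (xh γ β S n)) ^ 2 -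
        WOmP ω δ X U.card * (GG (Sp ϑ δ θ X) * ∑ σ ∈ cfg t B, c σ ^ 2 * term (qh γ β S) σ)| ≤
          s * WOmP ω δ X U.card

/-- **PARW**: the choice of the parameters (adapt `W333/HR/Par.lean`, with `μ = 1`; no prime number theorem is needed because
`vn δ X = δ / M`, `M = VV δ X (φ(W)/W) (δ log X)`). For the last two claims: `GG1_ge`, `VG_le` with the exponent `1/4 - 2θ` replaced by
`ϑ/2 - 2θ`: `VV (φ(W)/W) (ϑ/2 - 3θ) log X ≤ GG (Sp ϑ δ θ X)`, so `1 / GG ≤ vn / (ϑ/2 - 3θ) ≤ (16 / (5ϑ)) vn`. -/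
def S_PARW : Prop := ∀ (T : ℕ) (s ϑ : ℝ), 1 ≤ T → 0 < s → 0 < ϑ → ϑ ≤ 1 / 2 → ∃ (θ : ℝ) (t K : ℕ)
  (u β : Fin t → ℝ), 0 < θ ∧ θ ≤ ϑ / 16 ∧ 1 ≤ K ∧ (∀ τ, 0 < u τ ∧ 0 < β τ) ∧ ∑ τ, β τ = 1 ∧
  ∑ τ, u τ ≤ θ / 2 ∧ ∃ δ₀ : ℝ, 0 < δ₀ ∧ ∀ δ : ℝ, 0 < δ → δ ≤ δ₀ → ∃ X₀ : ℕ, ∀ X : ℕ, X₀ ≤ X →
  ∃ (S : Fin t → Finset (Finset ℕ)) (γ : ℝ), (∀ τ, Fam δ X (u τ) (S τ)) ∧ (∀ τ, ∅ ∉ S τ) ∧
    (∀ τ τ', τ ≠ τ' → Disjoint (S τ) (S τ')) ∧ (∀ τ, 1 ≤ GG (S τ)) ∧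
    0 ≤ γ ∧ 1 + γ ≤ (1 / δ) ^ 2 ∧ 0 < VV δ X ∧ 0 < vn δ X ∧ vn δ X * (1 + γ) ^ 2 = 1 / K ∧
    (∀ τ, (T * K : ℝ) * (γ ^ 2 * (β τ ^ 2 / GG (S τ))) ≤ s) ∧
    ∑ τ, γ ^ 2 * (β τ ^ 2 / GG (S τ)) ≤ s ∧
    1 ≤ GG (Sp ϑ δ θ X) ∧ 1 / GG (Sp ϑ δ θ X) ≤ (8 / ϑ) * vn δ X

/-- **WTW** (`S_MLW → S_SMW → S_PT → S_PARW → Col → Cob → Mni → Wtx → S_WTW`; adapt `W70/HR/{WtA,Wt}.lean` with `s = 1/10`).
`ρ = ω.P log X / ω.H`; `WOmP N = ρ vn WOm (N + 1)`, so `W2` gives `ρ vn (1 + γ)² = ρ / K` and `W3` gives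
`ρ vn (1/GG) (1 + γ)^4 ≤ (8/ϑ) ρ / K²`. -/
def S_WTW : Prop := ∀ (T : ℕ) (ϑ c₀ : ℝ), 1 ≤ T → 0 < ϑ → ϑ ≤ 1 / 2 → 0 < c₀ → ∃ K : ℕ, 1 ≤ K ∧
  ∀ (Λ : ℝ) (N₁ : ℕ), 0 < Λ → ∃ δ : ℝ, 0 < δ ∧ δ ≤ 1 / 8 ∧ ∃ (M₀ : ℝ) (K' A' X₀ : ℕ), 0 < M₀ ∧
  ∀ X : ℕ, X₀ ≤ X → ∀ ω : Wd, Hyp K' A' ϑ Λ c₀ X ω → ∀ b : ℕ, b < Wm X →
  0 < VV δ X ∧
  (∀ U ⊆ Bw Λ X b, U.card ≤ N₁ → ∑ n ∈ WI ω X b, rU δ X U n ≤ 2 * WOm ω δ X U.card) ∧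
  ∀ B ⊆ Bw Λ X b, B.card = T * K → ∃ (w : ℕ → ℝ) (A : ℝ),
    (∀ n ∈ WI ω X b, 0 ≤ w n ∧ w n ≤ M₀ * rU δ X B n) ∧ WOm ω δ X (T * K) ≤ A ∧
    ∑ n ∈ WI ω X b, w n ≤ 2 * A ∧
    (∀ a ∈ B, (1 / 2) * (ω.P * Real.log X / ω.H / K) * A ≤ ∑ n ∈ WP ω X b a, w n ∧
      ∑ n ∈ WP ω X b a, w n ≤ 2 * (ω.P * Real.log X / ω.H / K) * A) ∧
    ∀ a ∈ B, ∀ a' ∈ B, a ≠ a' →
      ∑ n ∈ (WP ω X b a).filter (fun n => (n + a').Prime), w n ≤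
        (16 / ϑ) * (ω.P * Real.log X / ω.H / K ^ 2) * A

open Classical in
/-- **CSW** (compare `W168/HR/CS.lean`). Proof. `N_g(n) = #{i : P g i n}`. First moment `∑ w N_g ≥ (ρ/2) A`, second moment
`∑ w N_g² ≤ (2ρ + κ₂ρ) A`, so by Cauchy-Schwarz `M_g = ∑_{N_g ≥ 1} w ≥ ρ A / (4 (2 + κ₂)) ≥ 2σA`, `σ = ρ / (24 κ₂)`. With
`Y(n) = #{g : N_g(n) ≥ 1} ≤ T`: `∑ w Y ≥ 2σTA`, and the `n` with `Y < σT/2` contribute at most `(σT/2) 2A = σTA`. -/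
def S_CSW : Prop := ∀ (T K : ℕ) (Ω : Finset ℕ) (w : ℕ → ℝ) (P : Fin T → Fin K → ℕ → Prop)
  (A ρ κ₂ : ℝ), 1 ≤ T → 1 ≤ K → (∀ n ∈ Ω, 0 ≤ w n) → 0 < A → 0 < ρ → 1 ≤ κ₂ →
  ∑ n ∈ Ω, w n ≤ 2 * A →
  (∀ g i, (1 / 2) * (ρ / K) * A ≤ ∑ n ∈ Ω.filter (fun n => P g i n), w n ∧
    ∑ n ∈ Ω.filter (fun n => P g i n), w n ≤ 2 * (ρ / K) * A) →
  (∀ g i j, i ≠ j → ∑ n ∈ Ω.filter (fun n => P g i n ∧ P g j n), w n ≤ κ₂ * (ρ / K ^ 2) * A) →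
  ρ / (24 * κ₂) * A ≤ ∑ n ∈ Ω.filter (fun n =>
    ρ / (48 * κ₂) * T ≤ (((univ : Finset (Fin T)).filter (fun g => ∃ i, P g i n)).card : ℝ)), w n

open Classical in
/-- number of `n` in the class for which all positions `H' g i` are rough and at least `c₀ ϑ T / 800` groups contain a prime -/
noncomputable def hitsW (ω : Wd) (δ r : ℝ) (X b T K : ℕ) (H' : Fin T → Fin K → ℕ) : ℕ :=
  ((WI ω X b).filter (fun n => (∀ g i, rg (P1 (HH X) (JJ δ X)) (H' g i) n = 1) ∧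
    r * T ≤ (((univ : Finset (Fin T)).filter (fun g => ∃ i, (n + H' g i).Prime)).card : ℝ))).card

/-- **MTW** (`S_WTW → S_CSW → S_MTW`; adapt `W67/HR/MT.lean`), `κ₂ = 16/ϑ`, `ρ ≥ c₀`: `ρ/(48 κ₂) ≥ c₀ϑ/768`. -/
def S_MTW : Prop := ∀ ϑ c₀ : ℝ, 0 < ϑ → ϑ ≤ 1 / 2 → 0 < c₀ → ∀ T : ℕ, 1 ≤ T → ∃ K : ℕ, 1 ≤ K ∧
  ∀ (Λ : ℝ) (N₁ : ℕ), 0 < Λ → ∃ δ c : ℝ, 0 < δ ∧ δ ≤ 1 / 8 ∧ 0 < c ∧ ∃ K' A' X₀ : ℕ, ∀ X : ℕ, X₀ ≤ X →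
  ∀ ω : Wd, Hyp K' A' ϑ Λ c₀ X ω → ∀ b : ℕ, b < Wm X → 0 < VV δ X ∧
  (∀ U ⊆ Bw Λ X b, U.card ≤ N₁ → ∑ n ∈ WI ω X b, rU δ X U n ≤ 2 * WOm ω δ X U.card) ∧
  ∀ H' : Fin T → Fin K → ℕ, (∀ g i, H' g i ∈ Bw Λ X b) →
    Function.Injective (fun x : Fin T × Fin K => H' x.1 x.2) →
    c * WOm ω δ X (T * K) ≤ (hitsW ω δ (c₀ * ϑ / 800) X b T K H' : ℝ)

/-- **RMW**: moments of the number of rough positions (adapt `W978/HR/RM.lean`) -/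
def S_RMW : Prop := ∀ (m : ℕ) (Λ δ : ℝ), 0 < Λ → 0 < δ → δ ≤ 1 / 8 → ∃ (C : ℝ) (X₀ : ℕ), 0 < C ∧
  ∀ X : ℕ, X₀ ≤ X → ∀ (ω : Wd) (b : ℕ), 0 < ω.H → b < Wm X →
  (∀ U ⊆ Bw Λ X b, U.card ≤ m → ∑ n ∈ WI ω X b, rU δ X U n ≤ 2 * WOm ω δ X U.card) →
  ∑ n ∈ WI ω X b, (∑ a ∈ Bw Λ X b, rg (P1 (HH X) (JJ δ X)) a n) ^ m ≤ C * (ω.H / Wm X)

/-! ### clusters in one window -/

open Classical in
/-- **CLA** (`S_MTW → S_CLA`): bounded clusters. Proof. Choose `T ≥ 1` with `c₀ ϑ T / 800 ≥ m`, `K` from MTW, `Λ = 1`, `N₁ = 0`, and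
`H' g i = (T K)! · (1 + g K + i)`, injective, `≤ C₁ := (TK)! (TK + 1)`, so `≤ log X` for large `X`. There is `b < Wm X` with `b + H' g i` prime to
`Wm X = primorial (HH X)` for all `g, i`: for every prime `p ≤ HH X` a class modulo `p` that avoids the `-H' g i` (if `p ≤ T K` the class `1`; if
`p > T K` the `T K` classes do not cover), Chinese remainder theorem. So `H' g i ∈ Bw 1 X b`, and MTW gives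
`≥ c (ω.H / Wm X) VV^{TK} ≥ c' ω.H / (log X)^C` (`VV ≥ cv / log X`: `vv_lower` in `H862R2/PP/Sm5*.lean`, `Wm X ≤ log X`: `Wtx`). For a hit `n`
at least `m` groups `g` contain a prime `n + H' g i`; these primes are different and lie in `(n, n + C₁]`. -/
def S_CLA : Prop := ∀ (ϑ c₀ : ℝ) (m : ℕ), 0 < ϑ → ϑ ≤ 1 / 2 → 0 < c₀ → ∃ (C K' A' X₀ : ℕ) (c : ℝ), 0 < c ∧ ∀ X : ℕ, X₀ ≤ X →
  ∀ ω : Wd, Hyp K' A' ϑ 1 c₀ X ω →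
  c * ω.H / Real.log X ^ C ≤ ((ω.Q.filter (fun n => m ≤ ((Icc 1 C).filter (fun a => (n + a).Prime)).card)).card : ℝ)

open Classical in
/-- **CLB** (`S_MTW → S_RMW → S_CLB`, with `Cnt`, `S_MV`, `Wtx`): a positive proportion of the integers. Proof. `T, K` as in CLA, `N = T K`,
`Λ = lam`, `N₁ = 2 N`. Fix `b < Wm X`, `R = |Bw lam X b| ≥ (lam/2) (φ(W)/W) log X` (`Cnt` with `s = 1/2`, `κ = lam`), `R ≥ 2 N` for large `X`. Let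
`r(n) = ∑_{a ∈ Bw} rg a n` be the number of rough positions and `G` the set of the `n ∈ WI ω X b` with at least `m` primes `n + a`,
`a ∈ Bw`. There are at least `(R/2)^N` injective `H' : Fin T → Fin K → Bw`. By MTW `∑_{H'} hitsW(H') ≥ (R/2)^N c (ω.H/W) VV^N`, and each `n` that is
counted is in `G` and is counted at most `r(n)^N` times (all positions are rough). So by Cauchy-Schwarz and RMW (exponent `2N`)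
`(R/2)^N c (ω.H/W) VV^N ≤ ∑_{n ∈ G} r(n)^N ≤ |G|^{1/2} (C ω.H / W)^{1/2}`. As `R VV ≥ (lam/2) (φ(W)/W) log X VV ≥ c_δ` (`S_MV`), `|G| ≥ c' ω.H / W`. Sum
over `b < W`. -/
def S_CLB : Prop := ∀ (ϑ c₀ lam : ℝ) (m : ℕ), 0 < ϑ → ϑ ≤ 1 / 2 → 0 < c₀ → 0 < lam → ∃ (K' A' X₀ : ℕ) (c : ℝ), 0 < c ∧
  ∀ X : ℕ, X₀ ≤ X → ∀ ω : Wd, Hyp K' A' ϑ lam c₀ X ω →
  c * ω.H ≤ ((ω.Q.filter (fun n => m ≤
    ((Icc 1 ⌊lam * Real.log X⌋₊).filter (fun a => (n + a).Prime)).card)).card : ℝ)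

/-! ### the windows of BVP -/

/-- the window `e^u < n ≤ e^{u+κ}` -/
noncomputable def Wu (u κ : ℝ) : Wd :=
  ⟨(Icc 1 ⌊Real.exp (u + κ)⌋₊).filter (fun n : ℕ => u < Real.log n), Real.exp (u + κ) - Real.exp u, th u κ 1 0 / u⟩

/-- **EQW**: from Bombieri-Vinogradov in one window to `Hyp`. Proof. `X = ⌊e^{Y - 1/4}⌋`, `W = Wm X ≤ (log X)^{7/20}` (`Wtx`), `H = ω.H` between
`κ e^u` and `2 κ e^u`; `Q ⊆ [X, 2X)` because `e^{Y+1/4} = e^{1/2} e^{Y-1/4} < 2X`. The conditions `n ≡ b (mod W)`, `n ≡ r (mod p)`, `p ∈ D` are one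
class modulo `q = W ∏ D` (`W` and `∏ D` are coprime since the primes of `PX X` exceed `HH X`), `q ≤ Y e^{δY/2} ≤ Gc δ Y`.
Integers: the number of `n ∈ Q` in the class is `H/q + O(2)`; `Er D = 4` and `∑_{∏ D ≤ X^{δ/2}} K^{|D|} ≤ X^{δ/2} · X^{δ/2}`... (e.g.
`K^{|D|} ≤ C τ(∏D)^{log_2 K + 1}`, see `H20R2/PP/EQI.lean`, `H96R2/EQP`) `≤ e^{δ Y} ≤ (H/W) / (log X)^A` since `H ≥ e^{0.39 Y}`.
Primes: `p = n + a₀` runs over the primes of the class `b + a₀`, `r + a₀` in the shifted window; it is a reduced class modulo `q` (`a₀ ∈ BB`, and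
`ok (some a₀) p r`). Up to at most `2 a₀ + 2 ≤ 3 Λ Y` integers the shifted window is the window, and `th u κ q c / (u + κ) ≤ #{p} ≤ th u κ q c / u`,
so `|#{..} - P/φ(q)| ≤ |th u κ q c - th u κ 1 0/φ(q)|/u + κ th u κ 1 0 + 3 Λ Y + 2`. Let `Er D` be the maximum of the left side over the admissible
`r` (finitely many classes modulo `∏ D`; choose for every `q` the worst class `a q`). Then `∑_D Er D ≤ κ e^Y / Y^{A'} + e^{δY}(κ · 2κe^Y · 2Y + 3ΛY + 2)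
≤ 2 κ e^Y / Y^{A'}`, and trivially `Er D ≤ C H Y/ (∏ D)`... (number of integers in the class `≤ H/q + 1 ≤ 2H/q`, and `P/φ(q) ≤ 2 H Y² / q`) so by
Cauchy-Schwarz `∑_D K^{|D|} Er D ≤ (∑_D K^{2|D|} C H Y²/∏D)^{1/2} (∑_D Er D)^{1/2} ≤ (C H Y^{C_K})^{1/2} (2 κ e^Y/Y^{A'})^{1/2} ≤ (H/W)/(log X)^A` for
`A'` large in terms of `K, A`. The last claim: `P log X ≥ 0.9 th u κ 1 0 ≥ 0.9 c₀ κ e^Y`, `H ≤ 1.45 κ e^Y`. -/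
def S_EQW : Prop := ∀ (δ c₀ Λ : ℝ) (K A : ℕ), 0 < δ → δ ≤ 1 / 100 → 0 < c₀ → 0 < Λ → ∃ (A' : ℕ) (Y₀ : ℝ), ∀ Y : ℝ, Y₀ ≤ Y →
  ∀ κ u : ℝ, Real.exp (-(0.6 * Y)) ≤ κ → κ ≤ Real.exp (-(Y / 4)) → Y - 1 / 4 ≤ u → u + κ ≤ Y + 1 / 4 →
  c₀ * κ * Real.exp Y ≤ th u κ 1 0 →
  (∀ a : ℕ → ℕ, (∀ q, (a q).Coprime q) → ∑ q ∈ Icc 1 (Gc δ Y),
    |th u κ q (a q) - th u κ 1 0 / (Nat.totient q : ℝ)| ≤ κ * Real.exp Y / Y ^ A') →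
  Hyp K A (δ / 2) Λ (c₀ / 4) ⌊Real.exp (Y - 1 / 4)⌋₊ (Wu u κ)

/-! ### the theorem -/

open Classical in
/-- `k` is good: every subinterval of `((2k-1)², (2k+1)²)` of length at least `k^{1-δ}` contains many clusters of `m` primes -/
def GoodK (δ lam c : ℝ) (m C k : ℕ) : Prop := ∀ x y : ℕ, (2 * k - 1) ^ 2 ≤ x → y ≤ (2 * k + 1) ^ 2 →
  (x : ℝ) + (k : ℝ) ^ (1 - δ) ≤ y →
  c * ((y : ℝ) - x) / Real.log k ^ C ≤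
    (((Ioo x y).filter (fun n => n + C < y ∧ m ≤ ((Ioc n (n + C)).filter Nat.Prime).card)).card : ℝ) ∧
  c * ((y : ℝ) - x) ≤
    (((Ioo x y).filter (fun n : ℕ => (n : ℝ) + lam * Real.log n < y ∧
      m ≤ ((Ioc n ⌊(n : ℝ) + lam * Real.log n⌋₊).filter Nat.Prime).card)).card : ℝ)

open Classical in
/-- **FK** (`S_BVP → S_POOR → S_EQW → S_CLA → S_CLB → S_FK`). Proof. `δ₁, η` from BVP, `c₀, η'` from POOR (`η ≤ η'` without loss of generality),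
`A'` the maximum of the exponents needed. For `i ∈ ℕ` let `Y_i = i/8`, `κ_i = e^{-(1/2 + η/2) Y_i}`, `t_i` from BVP; the windows
`[u_{ij}, u_{ij} + κ_i]`, `u_{ij} = Y_i - 1/4 + t_i + j κ_i`. The number of bad windows (BVP fails or POOR) is at most
`e^{(1/2 + η/2 - η)Y_i} + e^{0.306 Y_i} ≤ 2 e^{(1/2 - η/2)Y_i}`. For `k` with `N^{1-δ} ≤ k ≤ N` let `i` be such that `|log (4k²) - Y_i| ≤ 1/8`; then
`((2k-1)², (2k+1)²)` lies in `e^{Y_i ± 0.2}`. If it meets no bad window of the block `i`, then for every `(x, y)` of length `≥ k^{1-δ}` there are at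
least `(y - x) / (2 κ_i e^{Y_i})` windows inside `(x, y - lam log y - C)` (each has length `≤ 1.3 κ_i e^{Y_i} ≤ k^{1 - 2δ}`), and CLA, CLB apply to
each (they are disjoint). A bad window is shorter than `k`, so it meets at most two of the intervals; there are at most `20 log N` blocks, so
at most `N^{1-δ} + 20 log N · 4 e^{(1/2 - η/2)(2 log N + 2)} ≤ N^{1 - δ/2}` bad `k ≤ N`. -/
def S_FK : Prop := ∃ δ : ℝ, 0 < δ ∧ ∀ (m : ℕ) (lam : ℝ), 0 < lam → ∃ (C : ℕ) (c : ℝ), 0 < c ∧ ∃ N₀ : ℕ, ∀ N : ℕ, N₀ ≤ N →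
  (((Icc 1 N).filter (fun k => ¬ GoodK δ lam c m C k)).card : ℝ) ≤ (N : ℝ) ^ (1 - δ)

end Pool.Agent.L7h18.BP
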