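import Pool.Agent.L7h18.BP.Eng
import Pool.Agent.L7h88.BW.Fin1

/-!
# Project BP: the final counting, one `k`
-/

set_option autoImplicit false

namespace Pool.Agent.L7h18.BP

open Finset Filter MeasureTheory
open Pool.Agent.L7h88.BW (th grid)

lemma mem_Wu {u κ : ℝ} {n : ℕ} : n ∈ (Wu u κ).Q ↔ 1 ≤ n ∧ Real.exp u < n ∧ (n : ℝ) ≤ Real.exp (u + κ) := by
  unfold Wu
  simp only [mem_filter, mem_Icc]
  constructor
  · rintro ⟨⟨h1, h2⟩, h3⟩
    have h0 : (0 : ℝ) < n := by exact_mod_cast h1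
    exact ⟨h1, (Real.lt_log_iff_exp_lt h0).1 h3, (Nat.le_floor_iff (Real.exp_pos _).le).1 h2⟩
  · rintro ⟨h1, h2, h3⟩
    have h0 : (0 : ℝ) < n := by exact_mod_cast h1
    exact ⟨⟨h1, (Nat.le_floor_iff (Real.exp_pos _).le).2 h3⟩, (Real.lt_log_iff_exp_lt h0).2 h2⟩

open Classical in
/-- the integers with a bounded cluster -/
noncomputable def ca (m C : ℕ) (n : ℕ) : Prop := m ≤ ((Icc 1 C).filter (fun a => (n + a).Prime)).card

open Classical in
/-- the conclusion of CLA and CLB in one window -/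
def OKw (c₁ c₂ lam : ℝ) (m C : ℕ) (Y κ u : ℝ) : Prop :=
  c₁ * (κ * Real.exp Y) / Y ^ C ≤ (((Wu u κ).Q.filter (fun n => ca m C n)).card : ℝ) ∧
  c₂ * (κ * Real.exp Y) ≤ (((Wu u κ).Q.filter (fun n =>
    ca m ⌊lam * Real.log (⌊Real.exp (Y - 1 / 4)⌋₊ : ℕ)⌋₊ n)).card : ℝ)

lemma ca_prime {m C n : ℕ} (h : ca m C n) : m ≤ ((Ioc n (n + C)).filter Nat.Prime).card := by
  classical
  unfold ca at h
  refine h.trans ?_
  apply card_le_card_of_injOn (fun a => n + a)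
  · intro a ha
    rw [mem_coe, mem_filter, mem_Icc] at ha
    show n + a ∈ ((Ioc n (n + C)).filter Nat.Prime : Set ℕ)
    rw [mem_coe, mem_filter, mem_Ioc]
    exact ⟨⟨by omega, by omega⟩, ha.2⟩
  · intro a _ b _ hab
    simp only at hab
    omega

open Classical in
/-- disjoint windows -/
lemma sum_win {s κ : ℝ} (hκ : 0 < κ) (G : Finset ℕ) (P : ℕ → Prop) (S : Finset ℕ) (R : ℝ)
    (hS : ∀ j ∈ G, ∀ n ∈ (Wu (s + (j : ℕ) * κ) κ).Q, P n → n ∈ S)
    (hR : ∀ j ∈ G, R ≤ (((Wu (s + (j : ℕ) * κ) κ).Q.filter P).card : ℝ)) :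
    (G.card : ℝ) * R ≤ (S.card : ℝ) := by
  have hdis : (G : Set ℕ).PairwiseDisjoint (fun j => (Wu (s + (j : ℕ) * κ) κ).Q.filter P) := by
    intro i _ j _ hij
    rw [Function.onFun, disjoint_left]
    intro p hp hp'
    rw [mem_filter, mem_Wu] at hp hp'
    rcases lt_or_gt_of_ne hij with h | h
    · have h3 : (i : ℝ) + 1 ≤ j := by exact_mod_cast h
      have h4 := mul_le_mul_of_nonneg_right h3 hκ.le
      have h5 : Real.exp (s + i * κ + κ) ≤ Real.exp (s + j * κ) := Real.exp_le_exp.2 (by linarith)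
      linarith [hp.1.2.2, hp'.1.2.1]
    · have h3 : (j : ℝ) + 1 ≤ i := by exact_mod_cast h
      have h4 := mul_le_mul_of_nonneg_right h3 hκ.le
      have h5 : Real.exp (s + j * κ + κ) ≤ Real.exp (s + i * κ) := Real.exp_le_exp.2 (by linarith)
      linarith [hp'.1.2.2, hp.1.2.1]
  have h1 : (G.card : ℝ) * R ≤ ∑ j ∈ G, (((Wu (s + (j : ℕ) * κ) κ).Q.filter P).card : ℝ) := by
    rw [← nsmul_eq_mul]
    exact card_nsmul_le_sum _ _ _ hR
  refine h1.trans ?_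
  rw [← Nat.cast_sum, ← card_biUnion hdis, Nat.cast_le]
  apply card_le_card
  intro n hn
  rw [mem_biUnion] at hn
  obtain ⟨j, hj, hn⟩ := hn
  rw [mem_filter] at hn
  exact hS j hj n hn.1 hn.2

/-- one `k` -/
lemma one_k {δ lam c₁ c₂ Y κ t : ℝ} {m C k : ℕ} (hlam : 0 < lam) (hc₁ : 0 < c₁) (hc₂ : 0 < c₂) (hY : 100 ≤ Y)
    (hκ0 : 0 < κ) (hκs : κ ≤ 1 / 100) (ht0 : 0 ≤ t) (htκ : t ≤ κ) (hk : 100 ≤ k)
    (hk1 : Y - 1 / 8 ≤ Real.log (4 * (k : ℝ) ^ 2)) (hk2 : Real.log (4 * (k : ℝ) ^ 2) ≤ Y + 1 / 8)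
    (hsz : (C : ℝ) + lam * (Y + 1) + 1 ≤ (k : ℝ) ^ (1 - δ) / 2)
    (hbig : 20 * (κ * Real.exp Y) ≤ (k : ℝ) ^ (1 - δ))
    (hgood : ∀ j ∈ range (⌊1 / (2 * κ)⌋₊ - 1), ((2 * (k : ℝ) - 1) ^ 2) ≤ Real.exp (Y - 1 / 4 + t + (j : ℕ) * κ) →
      Real.exp (Y - 1 / 4 + t + (j : ℕ) * κ + κ) ≤ (2 * (k : ℝ) + 1) ^ 2 →
      OKw c₁ c₂ lam m C Y κ (Y - 1 / 4 + t + (j : ℕ) * κ)) :
    GoodK δ lam (min (c₁ / (10 * 4 ^ C)) (c₂ / 10)) m C k := by
  classical
  intro x y hx hy hxy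
  have hkr : (100 : ℝ) ≤ k := by exact_mod_cast hk
  have hk0 : (0 : ℝ) < k := by linarith
  have hkp : 0 < (k : ℝ) ^ (1 - δ) := by positivity
  -- casts
  have hx' : (2 * (k : ℝ) - 1) ^ 2 ≤ x := by
    have e : (((2 * k - 1) ^ 2 : ℕ) : ℝ) = (2 * (k : ℝ) - 1) ^ 2 := by
      rw [Nat.cast_pow, Nat.cast_sub (by omega)]
      push_cast
      ring
    rw [← e]
    exact_mod_cast hx
  have hy' : (y : ℝ) ≤ (2 * (k : ℝ) + 1) ^ 2 := by exact_mod_cast hy
  have hx0 : (0 : ℝ) < x := by nlinarith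
  -- logarithms
  have h4k : 0 < 4 * (k : ℝ) ^ 2 := by positivity
  have he1 : 4 * (k : ℝ) ^ 2 ≤ Real.exp (Y + 1 / 8) := (Real.log_le_iff_le_exp h4k).1 hk2
  have he2 : Real.exp (Y - 1 / 8) ≤ 4 * (k : ℝ) ^ 2 := (Real.le_log_iff_exp_le h4k).1 hk1
  have hup : (2 * (k : ℝ) + 1) ^ 2 ≤ 1.03 * (4 * (k : ℝ) ^ 2) := by nlinarith
  have hlo : 0.98 * (4 * (k : ℝ) ^ 2) ≤ (2 * (k : ℝ) - 1) ^ 2 := by nlinarith
  have hE : 0 < Real.exp Y := Real.exp_pos _
  have hexp8 : Real.exp (1 / 8 : ℝ) ≤ 1.15 := by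
    have h := Real.exp_bound' (x := 1 / 8) (by norm_num) (by norm_num) (n := 3) (by norm_num)
    norm_num [Finset.sum_range_succ, Nat.factorial] at h
    linarith
  have hupE : (2 * (k : ℝ) + 1) ^ 2 ≤ 1.2 * Real.exp Y := by
    have : Real.exp (Y + 1 / 8) = Real.exp Y * Real.exp (1 / 8) := by rw [← Real.exp_add]
    rw [this] at he1
    nlinarith
  -- the interval
  obtain ⟨y1, hy1⟩ : ∃ y1 : ℝ, y1 = y - C - lam * (Y + 1) - 1 / 2 := ⟨_, rfl⟩
  have hlen : ((y : ℝ) - x) / 2 ≤ y1 - x := by rw [hy1]; linarith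
  have hyx : (k : ℝ) ^ (1 - δ) ≤ (y : ℝ) - x := by linarith
  have hxy1 : (x : ℝ) < y1 := by linarith
  have hy10 : 0 < y1 := by linarith
  have hy1y : y1 ≤ y := by
    rw [hy1]
    have : 0 ≤ lam * (Y + 1) := by positivity
    have h2 : (0 : ℝ) ≤ C := Nat.cast_nonneg _
    linarith
  obtain ⟨M, hM⟩ : ∃ M, M = ⌊1 / (2 * κ)⌋₊ - 1 := ⟨_, rfl⟩
  obtain ⟨s, hs⟩ : ∃ s, s = Y - 1 / 4 + t := ⟨_, rfl⟩
  have hMκ : 1 / 2 - 2 * κ ≤ M * κ := by
    have h5 : 1 / (2 * κ) - 1 < ⌊1 / (2 * κ)⌋₊ := Nat.sub_one_lt_floor _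
    have h6 : ((⌊1 / (2 * κ)⌋₊ : ℝ)) - 1 ≤ M := by
      rw [sub_le_iff_le_add, hM]
      have : ⌊1 / (2 * κ)⌋₊ ≤ ⌊1 / (2 * κ)⌋₊ - 1 + 1 := by omega
      exact_mod_cast this
    have h7 : 1 / (2 * κ) - 2 ≤ M := by linarith
    have h8 := mul_le_mul_of_nonneg_right h7 hκ0.le
    have h9 : (1 / (2 * κ) - 2) * κ = 1 / 2 - 2 * κ := by field_simp
    linarith
  have hsa : s ≤ Real.log x := by
    rw [hs]
    have h5 := Real.log_le_log (by positivity) hlo
    have h5' := Real.log_le_log (by nlinarith) hx'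
    have h6 : Real.log (0.98 * (4 * (k : ℝ) ^ 2)) = Real.log 0.98 + Real.log (4 * (k : ℝ) ^ 2) :=
      Real.log_mul (by norm_num) h4k.ne'
    have h7 : -(1 / 30) ≤ Real.log 0.98 := by
      have := Real.one_sub_inv_le_log_of_pos (show (0 : ℝ) < 0.98 by norm_num)
      have h8 : (1 : ℝ) - 0.98⁻¹ ≥ -(1 / 30) := by norm_num
      linarith
    linarith
  have hbM : Real.log y1 ≤ s + M * κ := by
    have h5 := Real.log_le_log hy10 (hy1y.trans (hy'.trans hup))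
    have h6 : Real.log (1.03 * (4 * (k : ℝ) ^ 2)) = Real.log 1.03 + Real.log (4 * (k : ℝ) ^ 2) :=
      Real.log_mul (by norm_num) h4k.ne'
    have h7 : Real.log 1.03 ≤ 0.03 := by
      have := Real.log_le_sub_one_of_pos (show (0 : ℝ) < 1.03 by norm_num)
      linarith
    rw [hs]
    linarith
  have hg := grid (M := M) hκ0 hsa hbM
  obtain ⟨G, hG⟩ : ∃ G, G = (range M).filter (fun j : ℕ => Real.log x ≤ s + j * κ ∧ s + j * κ + κ ≤ Real.log y1) :=
    ⟨_, rfl⟩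
  rw [← hG] at hg
  have hGc : ((y : ℝ) - x) / (4 * (κ * Real.exp Y)) ≤ G.card := by
    have h5 : (y1 - x) / y1 ≤ Real.log y1 - Real.log x := by
      have h6 := Real.one_sub_inv_le_log_of_pos (show 0 < y1 / x by positivity)
      rw [Real.log_div hy10.ne' hx0.ne', inv_div] at h6
      have h7 : (y1 - x) / y1 = 1 - x / y1 := by field_simp
      rw [h7]; exact h6
    have h6 : ((y : ℝ) - x) / 2 / (1.2 * Real.exp Y) ≤ (y1 - x) / y1 := by
      rw [div_le_div_iff₀ (by positivity) hy10]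
      have h7 : y1 ≤ 1.2 * Real.exp Y := hy1y.trans (hy'.trans hupE)
      have h8 : 0 ≤ ((y : ℝ) - x) / 2 := by linarith
      calc ((y : ℝ) - x) / 2 * y1 ≤ ((y : ℝ) - x) / 2 * (1.2 * Real.exp Y) := mul_le_mul_of_nonneg_left h7 h8
        _ ≤ (y1 - x) * (1.2 * Real.exp Y) := mul_le_mul_of_nonneg_right hlen (by positivity)
    have h7 : ((y : ℝ) - x) / 2 / (1.2 * Real.exp Y) / κ ≤ (Real.log y1 - Real.log x) / κ :=
      div_le_div_of_nonneg_right (h6.trans h5) hκ0.le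
    have h8 : ((y : ℝ) - x) / 2 / (1.2 * Real.exp Y) / κ = ((y : ℝ) - x) / (κ * Real.exp Y) / 2.4 := by
      field_simp
      ring
    have h9 : ((y : ℝ) - x) / (4 * (κ * Real.exp Y)) = ((y : ℝ) - x) / (κ * Real.exp Y) / 4 := by
      field_simp
    have h10 : 20 ≤ ((y : ℝ) - x) / (κ * Real.exp Y) := by
      rw [le_div_iff₀ (by positivity)]
      linarith
    rw [h8] at h7
    rw [h9]
    obtain ⟨r, hr⟩ : ∃ r, r = ((y : ℝ) - x) / (κ * Real.exp Y) := ⟨_, rfl⟩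
    rw [← hr] at h7 h10 ⊢
    have h11 : r / 4 + 2 ≤ r / 2.4 := by
      have : r / 2.4 = r / 4 + r / 6 := by ring
      rw [this]
      linarith
    linarith
  have hGp : ∀ j ∈ G, OKw c₁ c₂ lam m C Y κ (s + (j : ℕ) * κ) ∧ (x : ℝ) ≤ Real.exp (s + (j : ℕ) * κ) ∧
      Real.exp (s + (j : ℕ) * κ + κ) ≤ y1 := by
    intro j hj
    rw [hG, mem_filter] at hj
    have h5 : (x : ℝ) ≤ Real.exp (s + (j : ℕ) * κ) := (Real.log_le_iff_le_exp hx0).1 hj.2.1
    have h6 : Real.exp (s + (j : ℕ) * κ + κ) ≤ y1 := (Real.le_log_iff_exp_le hy10).1 hj.2.2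
    refine ⟨?_, h5, h6⟩
    rw [hM] at hj
    have := hgood j hj.1
    rw [← hs] at this
    exact this (hx'.trans h5) (h6.trans (hy1y.trans hy'))
  have hlogn : ∀ n : ℕ, 1 ≤ n → (n : ℝ) ≤ y1 → Real.log n ≤ Y + 1 := by
    intro n h1 h2
    have h0 : (0 : ℝ) < n := by exact_mod_cast h1
    rw [Real.log_le_iff_le_exp h0]
    have h5 : Real.exp (Y + 1) = Real.exp Y * Real.exp 1 := Real.exp_add _ _
    have h6 : 2 ≤ Real.exp 1 := by linarith [Real.add_one_le_exp (1 : ℝ)]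
    rw [h5]
    nlinarith [hy'.trans hupE]
  have hmn1 : min (c₁ / (10 * 4 ^ C)) (c₂ / 10) ≤ c₁ / (10 * 4 ^ C) := min_le_left _ _
  have hmn2 : min (c₁ / (10 * 4 ^ C)) (c₂ / 10) ≤ c₂ / 10 := min_le_right _ _
  have hyx0 : 0 ≤ (y : ℝ) - x := by linarith
  have hlogk : Y ≤ 4 * Real.log k := by
    have h5 : Real.log (4 * (k : ℝ) ^ 2) = Real.log 4 + 2 * Real.log k := by
      rw [Real.log_mul (by norm_num) (by positivity), Real.log_pow]
      push_cast
      ring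
    have h6 : Real.log 4 ≤ 1.4 := by
      have : Real.log 4 = 2 * Real.log 2 := by
        rw [show (4 : ℝ) = 2 ^ 2 by norm_num, Real.log_pow]; push_cast; ring
      have h7 := Real.log_two_lt_d9
      linarith
    have h7 : 1 ≤ Real.log k := by
      rw [Real.le_log_iff_exp_le hk0]
      have := Real.exp_one_lt_d9
      linarith
    linarith
  have hlk0 : 0 < Real.log k := by linarith
  have hκE : 0 < κ * Real.exp Y := by positivity
  constructor
  · -- bounded clusters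
    have h5 := sum_win hκ0 G (fun n => ca m C n)
      ((Ioo x y).filter (fun n => n + C < y ∧ m ≤ ((Ioc n (n + C)).filter Nat.Prime).card))
      (c₁ * (κ * Real.exp Y) / Y ^ C) (s := s) (by
        intro j hj n hn hP
        obtain ⟨-, h6, h7⟩ := hGp j hj
        rw [mem_Wu] at hn
        have h8 : (x : ℝ) < n := lt_of_le_of_lt h6 hn.2.1
        have h9 : (n : ℝ) ≤ y1 := hn.2.2.trans h7
        have h10 : (n : ℝ) + C < y := by
          rw [hy1] at h9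
          have : 0 ≤ lam * (Y + 1) := by positivity
          linarith
        have h11 : n + C < y := by exact_mod_cast h10
        rw [mem_filter, mem_Ioo]
        exact ⟨⟨by exact_mod_cast h8, by omega⟩, h11, ca_prime hP⟩)
      (fun j hj => (hGp j hj).1.1)
    refine le_trans ?_ h5
    have hYC : Y ^ C ≤ 4 ^ C * Real.log k ^ C := by
      rw [← mul_pow]
      exact pow_le_pow_left₀ (by linarith) hlogk C
    calc min (c₁ / (10 * 4 ^ C)) (c₂ / 10) * ((y : ℝ) - x) / Real.log k ^ C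
        ≤ c₁ / (10 * 4 ^ C) * ((y : ℝ) - x) / Real.log k ^ C := by gcongr
      _ = c₁ * ((y : ℝ) - x) / 10 / (4 ^ C * Real.log k ^ C) := by field_simp
      _ ≤ c₁ * ((y : ℝ) - x) / 10 / Y ^ C := by gcongr
      _ ≤ c₁ * ((y : ℝ) - x) / 4 / Y ^ C := by gcongr; norm_num
      _ = ((y : ℝ) - x) / (4 * (κ * Real.exp Y)) * (c₁ * (κ * Real.exp Y) / Y ^ C) := by field_simp
      _ ≤ G.card * (c₁ * (κ * Real.exp Y) / Y ^ C) := mul_le_mul_of_nonneg_right hGc (by positivity)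
  · have h5 := sum_win hκ0 G (fun n => ca m ⌊lam * Real.log (⌊Real.exp (Y - 1 / 4)⌋₊ : ℕ)⌋₊ n)
      ((Ioo x y).filter (fun n : ℕ => (n : ℝ) + lam * Real.log n < y ∧
        m ≤ ((Ioc n ⌊(n : ℝ) + lam * Real.log n⌋₊).filter Nat.Prime).card))
      (c₂ * (κ * Real.exp Y)) (s := s) (by
        intro j hj n hn hP
        obtain ⟨-, h6, h7⟩ := hGp j hj
        rw [mem_Wu] at hn
        have h8 : (x : ℝ) < n := lt_of_le_of_lt h6 hn.2.1
        have h9 : (n : ℝ) ≤ y1 := hn.2.2.trans h7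
        have hl := hlogn n hn.1 h9
        have h10 : (n : ℝ) + lam * Real.log n < y := by
          rw [hy1] at h9
          have : lam * Real.log n ≤ lam * (Y + 1) := mul_le_mul_of_nonneg_left hl hlam.le
          have h2 : (0 : ℝ) ≤ C := Nat.cast_nonneg _
          linarith
        have hn0 : (0 : ℝ) < n := by exact_mod_cast hn.1
        have h11 : (n : ℝ) < y := by
          have : 0 ≤ lam * Real.log n := mul_nonneg hlam.le (Real.log_nonneg (by exact_mod_cast hn.1))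
          linarith
        rw [mem_filter, mem_Ioo]
        refine ⟨⟨by exact_mod_cast h8, by exact_mod_cast h11⟩, h10, ?_⟩
        refine (ca_prime hP).trans ?_
        apply card_le_card
        apply filter_subset_filter
        apply Ioc_subset_Ioc_right
        apply Nat.le_floor
        push_cast
        have h12 : (⌊Real.exp (Y - 1 / 4)⌋₊ : ℝ) ≤ n := by
          have h13 : Real.exp (Y - 1 / 4) ≤ Real.exp (s + (j : ℕ) * κ) := by
            apply Real.exp_le_exp.2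
            rw [hs]
            have : 0 ≤ (j : ℝ) * κ := by positivity
            linarith
          exact (Nat.floor_le (Real.exp_pos _).le).trans (h13.trans hn.2.1.le)
        have hX1 : (1 : ℝ) ≤ (⌊Real.exp (Y - 1 / 4)⌋₊ : ℝ) := by
          have : 1 ≤ ⌊Real.exp (Y - 1 / 4)⌋₊ := by
            apply Nat.le_floor
            rw [Nat.cast_one]
            exact Real.one_le_exp (by linarith)
          exact_mod_cast this
        have h14 : Real.log (⌊Real.exp (Y - 1 / 4)⌋₊ : ℝ) ≤ Real.log n :=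
          Real.log_le_log (by linarith) h12
        have h15 : ((⌊lam * Real.log (⌊Real.exp (Y - 1 / 4)⌋₊ : ℕ)⌋₊ : ℕ) : ℝ) ≤
            lam * Real.log (⌊Real.exp (Y - 1 / 4)⌋₊ : ℕ) :=
          Nat.floor_le (mul_nonneg hlam.le (Real.log_nonneg hX1))
        have h16 := mul_le_mul_of_nonneg_left h14 hlam.le
        linarith)
      (fun j hj => (hGp j hj).1.2)
    refine le_trans ?_ h5
    calc min (c₁ / (10 * 4 ^ C)) (c₂ / 10) * ((y : ℝ) - x) ≤ c₂ / 10 * ((y : ℝ) - x) := by gcongr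
      _ ≤ c₂ / 4 * ((y : ℝ) - x) := by gcongr; norm_num
      _ = ((y : ℝ) - x) / (4 * (κ * Real.exp Y)) * (c₂ * (κ * Real.exp Y)) := by field_simp
      _ ≤ G.card * (c₂ * (κ * Real.exp Y)) := mul_le_mul_of_nonneg_right hGc (by positivity)

end Pool.Agent.L7h18.BP
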