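import Pool.Agent.L7h18.BP.Fk1

/-!
# Project BP: the final counting, one block
-/

set_option autoImplicit false

namespace Pool.Agent.L7h18.BP

open Finset Filter MeasureTheory
open Pool.Agent.L7h88.BW (th S_POOR)

/-- Bombieri-Vinogradov in one window -/
def BVw (δ Y κ u : ℝ) (A : ℕ) : Prop := ∀ a : ℕ → ℕ, (∀ q, (a q).Coprime q) →
  ∑ q ∈ Icc 1 (Gc δ Y), |th u κ q (a q) - th u κ 1 0 / (Nat.totient q : ℝ)| ≤ κ * Real.exp Y / Y ^ A

lemma BVw_mono {δ Y κ u : ℝ} {A A' : ℕ} (h : BVw δ Y κ u A) (hA : A' ≤ A) (hY : 1 ≤ Y) (hκ : 0 ≤ κ) :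
    BVw δ Y κ u A' := by
  intro a ha
  refine (h a ha).trans ?_
  have h1 : Y ^ A' ≤ Y ^ A := pow_le_pow_right₀ hY hA
  have h2 : 0 < Y ^ A' := by positivity
  exact div_le_div_of_nonneg_left (mul_nonneg hκ (Real.exp_pos _).le) h2 h1

/-- the conclusion in a good window -/
lemma win_ok (hE : S_EQW) (hA : S_CLA) (hC : S_CLB) {δ₁ c₀ lam : ℝ} (m : ℕ) (hδ : 0 < δ₁) (hδ' : δ₁ ≤ 1 / 100)
    (hc₀ : 0 < c₀) (hlam : 0 < lam) : ∃ (C A : ℕ) (c₁ c₂ Y₀ : ℝ), 0 < c₁ ∧ 0 < c₂ ∧ ∀ Y : ℝ, Y₀ ≤ Y → ∀ κ u : ℝ,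
    Real.exp (-(0.6 * Y)) ≤ κ → κ ≤ Real.exp (-(Y / 4)) → Y - 1 / 4 ≤ u → u + κ ≤ Y + 1 / 4 →
    c₀ * κ * Real.exp Y ≤ th u κ 1 0 → BVw δ₁ Y κ u A → OKw c₁ c₂ lam m C Y κ u := by
  classical
  obtain ⟨C, K1, A1, X1, c1, hc1, hA⟩ := hA (δ₁ / 2) (c₀ / 4) m (by linarith) (by linarith) (by linarith)
  obtain ⟨K2, A2, X2, c2, hc2, hC⟩ := hC (δ₁ / 2) (c₀ / 4) lam m (by linarith) (by linarith) (by linarith) hlam
  obtain ⟨A1', YE1, hE1⟩ := hE δ₁ c₀ 1 K1 A1 hδ hδ' hc₀ one_pos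
  obtain ⟨A2', YE2, hE2⟩ := hE δ₁ c₀ lam K2 A2 hδ hδ' hc₀ hlam
  have hX : ∀ᶠ Y : ℝ in atTop, max (max X1 X2) 3 ≤ ⌊Real.exp (Y - 1 / 4)⌋₊ := by
    have h1 : Tendsto (fun Y : ℝ => Real.exp (Y - 1 / 4)) atTop atTop :=
      Real.tendsto_exp_atTop.comp (tendsto_atTop_add_const_right _ _ tendsto_id)
    exact (tendsto_nat_floor_atTop.comp h1).eventually_ge_atTop _
  obtain ⟨YX, hYX⟩ := eventually_atTop.1 hX
  refine ⟨C, max A1' A2', c1 / 2, c2 / 2, max (max YE1 YE2) (max YX 1), by positivity, by positivity, ?_⟩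
  intro Y hY κ u hκ1 hκ2 hu1 hu2 hth hBV
  simp only [max_le_iff] at hY
  obtain ⟨⟨hY1, hY2⟩, hY3, hY4⟩ := hY
  have hκ0 : 0 < κ := (Real.exp_pos _).trans_le hκ1
  have hX3 := hYX Y hY3
  simp only [max_le_iff] at hX3
  obtain ⟨⟨hX1, hX2⟩, hX3⟩ := hX3
  have H1 := hE1 Y hY1 κ u hκ1 hκ2 hu1 hu2 hth (BVw_mono hBV (le_max_left _ _) hY4 hκ0.le)
  have H2 := hE2 Y hY2 κ u hκ1 hκ2 hu1 hu2 hth (BVw_mono hBV (le_max_right _ _) hY4 hκ0.le)
  have R1 := hA _ hX1 _ H1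
  have R2 := hC _ hX2 _ H2
  have hH : κ * Real.exp Y / 2 ≤ (Wu u κ).H := by
    show _ ≤ Real.exp (u + κ) - Real.exp u
    have h1 : Real.exp (u + κ) = Real.exp u * Real.exp κ := Real.exp_add _ _
    have h2 := Real.add_one_le_exp κ
    have h3 : Real.exp (Y - 1 / 4) ≤ Real.exp u := Real.exp_le_exp.2 hu1
    have h4 : Real.exp (Y - 1 / 4) = Real.exp Y * Real.exp (-(1 / 4)) := by
      rw [← Real.exp_add]; congr 1
    have h5 : 3 / 4 ≤ Real.exp (-(1 / 4 : ℝ)) := by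
      have := Real.add_one_le_exp (-(1 / 4 : ℝ))
      linarith
    have h6 := Real.exp_pos Y
    have h7 : Real.exp Y * (3 / 4) ≤ Real.exp u := by
      have := mul_le_mul_of_nonneg_left h5 h6.le
      linarith
    rw [h1]
    have h8 : Real.exp u * (κ + 1) ≤ Real.exp u * Real.exp κ :=
      mul_le_mul_of_nonneg_left h2 (Real.exp_pos _).le
    have h9 : κ * (Real.exp Y * (3 / 4)) ≤ κ * Real.exp u := mul_le_mul_of_nonneg_left h7 hκ0.le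
    have h10 : 0 < κ * Real.exp Y := by positivity
    linarith
  obtain ⟨X, hXd⟩ : ∃ X, X = ⌊Real.exp (Y - 1 / 4)⌋₊ := ⟨_, rfl⟩
  have hXr : (3 : ℝ) ≤ X := by rw [hXd]; exact_mod_cast hX3
  have hlog0 : 0 < Real.log X := Real.log_pos (by linarith)
  have hlogY : Real.log X ≤ Y := by
    have h1 : (X : ℝ) ≤ Real.exp (Y - 1 / 4) := by rw [hXd]; exact Nat.floor_le (Real.exp_pos _).le
    have h2 := Real.log_le_log (by linarith) h1
    rw [Real.log_exp] at h2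
    linarith
  constructor
  · have h1 : (c1 / 2) * (κ * Real.exp Y) / Y ^ C ≤ c1 * (Wu u κ).H / Real.log X ^ C := by
      have h2 : Real.log X ^ C ≤ Y ^ C := pow_le_pow_left₀ hlog0.le hlogY C
      have h3 : (c1 / 2) * (κ * Real.exp Y) ≤ c1 * (Wu u κ).H := by
        have := mul_le_mul_of_nonneg_left hH hc1.le
        linarith
      calc (c1 / 2) * (κ * Real.exp Y) / Y ^ C ≤ (c1 / 2) * (κ * Real.exp Y) / Real.log X ^ C := by
            apply div_le_div_of_nonneg_left (by positivity) (by positivity) h2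
        _ ≤ _ := div_le_div_of_nonneg_right h3 (by positivity)
    rw [hXd] at h1
    refine (h1.trans R1).trans (le_of_eq ?_)
    rw [Nat.cast_inj]
    congr 1
    exact filter_congr fun n _ => Iff.rfl
  · have h3 : (c2 / 2) * (κ * Real.exp Y) ≤ c2 * (Wu u κ).H := by
      have := mul_le_mul_of_nonneg_left hH hc2.le
      linarith
    refine (h3.trans R2).trans (le_of_eq ?_)
    rw [Nat.cast_inj]
    congr 1
    exact filter_congr fun n _ => Iff.rfl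

open Classical in
/-- the bad windows -/
noncomputable def Bdw (δ c₀ Y κ t : ℝ) (A : ℕ) : Finset ℕ :=
  (range (⌊1 / (2 * κ)⌋₊ - 1)).filter (fun j : ℕ => th (Y - 1 / 4 + t + j * κ) κ 1 0 < c₀ * κ * Real.exp Y ∨
    ¬ BVw δ Y κ (Y - 1 / 4 + t + j * κ) A)

/-- the windows of the block lie in `[Y - 1/4, Y + 1/4]` -/
lemma in_block {Y κ t : ℝ} {j : ℕ} (hκ : 0 < κ) (ht : 0 ≤ t) (htκ : t ≤ κ) (hj : j ∈ range (⌊1 / (2 * κ)⌋₊ - 1)) :
    Y - 1 / 4 ≤ Y - 1 / 4 + t + j * κ ∧ Y - 1 / 4 + t + j * κ + κ ≤ Y + 1 / 4 := by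
  rw [mem_range] at hj
  have h0 : 0 ≤ (j : ℝ) * κ := by positivity
  refine ⟨by linarith, ?_⟩
  have h1 : j + 2 ≤ ⌊1 / (2 * κ)⌋₊ := by omega
  have h2 : ((j + 2 : ℕ) : ℝ) ≤ 1 / (2 * κ) := (Nat.cast_le.2 h1).trans (Nat.floor_le (by positivity))
  rw [le_div_iff₀ (by positivity)] at h2
  push_cast at h2
  linarith

/-- few bad windows -/
lemma Bdw_card {δ c₀ Y κ t η μ : ℝ} {A : ℕ} (hY : 0 ≤ Y) (hκ : κ = Real.exp (-((1 / 2 + μ) * Y)))
    (hμ : μ ≤ η / 2) (hμ' : μ ≤ 0.1)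
    (h1 : (((range (⌊1 / (2 * κ)⌋₊ - 1)).filter
      (fun j : ℕ => th (Y - 1 / 4 + t + j * κ) κ 1 0 < c₀ * κ * Real.exp Y)).card : ℝ) ≤ Real.exp (0.306 * Y))
    (h2 : open Classical in (((range (⌊1 / (2 * κ)⌋₊ - 1)).filter (fun j : ℕ => ¬ BVw δ Y κ (Y - 1 / 4 + t + j * κ) A)).card : ℝ) ≤
      Real.exp (-(η * Y)) / κ) :
    ((Bdw δ c₀ Y κ t A).card : ℝ) ≤ 2 * Real.exp ((1 / 2 - μ) * Y) := by
  classical
  have h3 : (Bdw δ c₀ Y κ t A).card ≤ ((range (⌊1 / (2 * κ)⌋₊ - 1)).filter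
      (fun j : ℕ => th (Y - 1 / 4 + t + j * κ) κ 1 0 < c₀ * κ * Real.exp Y)).card +
      ((range (⌊1 / (2 * κ)⌋₊ - 1)).filter (fun j : ℕ => ¬ BVw δ Y κ (Y - 1 / 4 + t + j * κ) A)).card := by
    refine le_trans (card_le_card ?_) (card_union_le _ _)
    intro j hj
    unfold Bdw at hj
    rw [mem_filter] at hj
    rw [mem_union, mem_filter, mem_filter]
    rcases hj.2 with h | h
    · exact Or.inl ⟨hj.1, h⟩
    · exact Or.inr ⟨hj.1, h⟩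
  have h4 : ((Bdw δ c₀ Y κ t A).card : ℝ) ≤ Real.exp (0.306 * Y) + Real.exp (-(η * Y)) / κ := by
    have h5 : ((Bdw δ c₀ Y κ t A).card : ℝ) ≤ (((range (⌊1 / (2 * κ)⌋₊ - 1)).filter
      (fun j : ℕ => th (Y - 1 / 4 + t + j * κ) κ 1 0 < c₀ * κ * Real.exp Y)).card : ℝ) +
      (((range (⌊1 / (2 * κ)⌋₊ - 1)).filter (fun j : ℕ => ¬ BVw δ Y κ (Y - 1 / 4 + t + j * κ) A)).card : ℝ) := by
      exact_mod_cast h3
    refine h5.trans (add_le_add h1 (le_trans (le_of_eq ?_) h2))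
    congr 2
  have h5 : Real.exp (-(η * Y)) / κ ≤ Real.exp ((1 / 2 - μ) * Y) := by
    rw [hκ, ← Real.exp_sub]
    apply Real.exp_le_exp.2
    nlinarith
  have h6 : Real.exp (0.306 * Y) ≤ Real.exp ((1 / 2 - μ) * Y) := by
    apply Real.exp_le_exp.2
    nlinarith
  linarith

/-- one `k` in one block -/
lemma block {δ₁ c₀ lam c₁ c₂ μ δ Y₀ : ℝ} {m C A : ℕ} (hlam : 0 < lam) (hc₁ : 0 < c₁) (hc₂ : 0 < c₂)
    (hμ : 0 < μ) (hμ' : μ ≤ 0.01) (hδ : 0 < δ) (hδμ : δ ≤ μ)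
    (hW : ∀ Y : ℝ, Y₀ ≤ Y → ∀ κ u : ℝ,
      Real.exp (-(0.6 * Y)) ≤ κ → κ ≤ Real.exp (-(Y / 4)) → Y - 1 / 4 ≤ u → u + κ ≤ Y + 1 / 4 →
      c₀ * κ * Real.exp Y ≤ th u κ 1 0 → BVw δ₁ Y κ u A → OKw c₁ c₂ lam m C Y κ u) :
    ∃ k₀ : ℕ, ∀ k : ℕ, k₀ ≤ k → ∀ Y κ t : ℝ, Y - 1 / 8 ≤ Real.log (4 * (k : ℝ) ^ 2) →
      Real.log (4 * (k : ℝ) ^ 2) ≤ Y + 1 / 8 → κ = Real.exp (-((1 / 2 + μ) * Y)) → 0 ≤ t → t ≤ κ →
      (∀ j ∈ Bdw δ₁ c₀ Y κ t A, ((2 * (k : ℝ) - 1) ^ 2) ≤ Real.exp (Y - 1 / 4 + t + (j : ℕ) * κ) →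
        ¬ Real.exp (Y - 1 / 4 + t + (j : ℕ) * κ + κ) ≤ (2 * (k : ℝ) + 1) ^ 2) →
      GoodK δ lam (min (c₁ / (10 * 4 ^ C)) (c₂ / 10)) m C k := by
  classical
  have hlogk : Tendsto (fun k : ℕ => Real.log k) atTop atTop := Real.tendsto_log_atTop.comp tendsto_natCast_atTop_atTop
  have e1 : ∀ᶠ k : ℕ in atTop, max (max Y₀ 100) 1000 + 1 ≤ Real.log k := hlogk.eventually_ge_atTop _
  have e2 : ∀ᶠ k : ℕ in atTop, (C : ℝ) + lam * (4 * Real.log k + 1) + 1 ≤ (k : ℝ) ^ (1 - δ) / 2 := by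
    have h1 : Tendsto (fun k : ℕ => Real.log k / (k : ℝ) ^ (1 - δ)) atTop (nhds 0) := by
      have := (isLittleO_log_rpow_atTop (r := 1 - δ) (by linarith)).tendsto_div_nhds_zero
      exact this.comp tendsto_natCast_atTop_atTop
    have h2 : Tendsto (fun k : ℕ => 1 / (k : ℝ) ^ (1 - δ)) atTop (nhds 0) := by
      have h3 : Tendsto (fun k : ℕ => (k : ℝ) ^ (1 - δ)) atTop atTop :=
        (tendsto_rpow_atTop (by linarith : 0 < 1 - δ)).comp tendsto_natCast_atTop_atTop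
      refine h3.inv_tendsto_atTop.congr fun k => ?_
      rw [Pi.inv_apply, one_div]
    have h4 : Tendsto (fun k : ℕ => ((C : ℝ) + lam + 1) * (1 / (k : ℝ) ^ (1 - δ)) +
        (4 * lam) * (Real.log k / (k : ℝ) ^ (1 - δ))) atTop (nhds (((C : ℝ) + lam + 1) * 0 + (4 * lam) * 0)) :=
      (h2.const_mul _).add (h1.const_mul _)
    rw [mul_zero, mul_zero, add_zero] at h4
    filter_upwards [h4.eventually (gt_mem_nhds (show (0 : ℝ) < 1 / 2 by norm_num)), eventually_ge_atTop 1] with k hk hk1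
    have hk0 : (0 : ℝ) < k := by exact_mod_cast hk1
    have hp : 0 < (k : ℝ) ^ (1 - δ) := by positivity
    have h5 : ((C : ℝ) + lam + 1) * (1 / (k : ℝ) ^ (1 - δ)) + (4 * lam) * (Real.log k / (k : ℝ) ^ (1 - δ)) =
        ((C : ℝ) + lam * (4 * Real.log k + 1) + 1) / (k : ℝ) ^ (1 - δ) := by field_simp; ring
    rw [h5, div_lt_iff₀ hp] at hk
    linarith
  have e3 : ∀ᶠ k : ℕ in atTop, (160 : ℝ) ≤ (k : ℝ) ^ μ :=
    ((tendsto_rpow_atTop hμ).comp tendsto_natCast_atTop_atTop).eventually_ge_atTop 160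
  obtain ⟨k₀, hk₀⟩ := eventually_atTop.1 ((e1.and (e2.and e3)).and (eventually_ge_atTop 100))
  refine ⟨k₀, fun k hk Y κ t hk1 hk2 hκ ht0 htκ hgood => ?_⟩
  obtain ⟨⟨f1, f2, f3⟩, f4⟩ := hk₀ k hk
  have hkr : (100 : ℝ) ≤ k := by exact_mod_cast f4
  have hk0 : (0 : ℝ) < k := by linarith
  have hlog4 : Real.log (4 * (k : ℝ) ^ 2) = Real.log 4 + 2 * Real.log k := by
    rw [Real.log_mul (by norm_num) (by positivity), Real.log_pow]
    push_cast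
    ring
  have hl4a : 0 ≤ Real.log 4 := Real.log_nonneg (by norm_num)
  have hl4b : Real.log 4 ≤ 1.4 := by
    have : Real.log 4 = 2 * Real.log 2 := by
      rw [show (4 : ℝ) = 2 ^ 2 by norm_num, Real.log_pow]; push_cast; ring
    have h7 := Real.log_two_lt_d9
    linarith
  have g1 : Y₀ + 1 ≤ Real.log k := by
    have := le_max_left Y₀ 100
    have := le_max_left (max Y₀ 100) 1000
    linarith
  have g2 : 1001 ≤ Real.log k := by
    have := le_max_right (max Y₀ 100) 1000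
    linarith
  have hYY : Y₀ ≤ Y := by linarith
  have hY100 : 1000 ≤ Y := by linarith
  have hκ0 : 0 < κ := by rw [hκ]; exact Real.exp_pos _
  have hκ4 : κ ≤ Real.exp (-(Y / 4)) := by
    rw [hκ]; apply Real.exp_le_exp.2; nlinarith
  have hκ6 : Real.exp (-(0.6 * Y)) ≤ κ := by
    rw [hκ]; apply Real.exp_le_exp.2; nlinarith
  have hκs : κ ≤ 1 / 100 := by
    refine hκ4.trans ?_
    rw [Real.exp_neg, one_div]
    apply inv_anti₀ (by norm_num)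
    have := Real.add_one_le_exp (Y / 4)
    linarith
  refine one_k (κ := κ) (t := t) (Y := Y) hlam hc₁ hc₂ (by linarith) hκ0 hκs ht0 htκ f4 hk1 hk2 ?_ ?_ ?_
  · refine le_trans ?_ f2
    have : Y ≤ 4 * Real.log k := by linarith
    have := mul_le_mul_of_nonneg_left this hlam.le
    linarith
  · -- the length of the windows
    have h1 : κ * Real.exp Y = Real.exp ((1 / 2 - μ) * Y) := by
      rw [hκ, ← Real.exp_add]; congr 1; ring
    have h2 : (1 / 2 - μ) * Y ≤ (1 / 2 - μ) * (Real.log 4 + 2 * Real.log k + 1 / 8) := by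
      apply mul_le_mul_of_nonneg_left _ (by linarith)
      linarith
    have h3 : (1 / 2 - μ) * (Real.log 4 + 2 * Real.log k + 1 / 8) ≤ 1 + (1 - 2 * μ) * Real.log k := by
      nlinarith
    have h4 : Real.exp (1 + (1 - 2 * μ) * Real.log k) = Real.exp 1 * (k : ℝ) ^ (1 - 2 * μ) := by
      rw [Real.exp_add, Real.rpow_def_of_pos hk0, mul_comm (Real.log k)]
    have h5 : κ * Real.exp Y ≤ 3 * (k : ℝ) ^ (1 - 2 * μ) := by
      rw [h1]
      refine (Real.exp_le_exp.2 (h2.trans h3)).trans ?_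
      rw [h4]
      apply mul_le_mul_of_nonneg_right _ (by positivity)
      linarith [Real.exp_one_lt_d9]
    have h6 : (k : ℝ) ^ (1 - 2 * μ) * (k : ℝ) ^ μ ≤ (k : ℝ) ^ (1 - δ) := by
      rw [← Real.rpow_add hk0]
      apply Real.rpow_le_rpow_of_exponent_le (by linarith)
      linarith
    have h7 : 0 < (k : ℝ) ^ (1 - 2 * μ) := by positivity
    nlinarith
  · intro j hj h1 h2
    obtain ⟨b1, b2⟩ := in_block (Y := Y) hκ0 ht0 htκ hj
    by_cases hb : j ∈ Bdw δ₁ c₀ Y κ t A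
    · exact absurd h2 (hgood j hb h1)
    · unfold Bdw at hb
      rw [mem_filter, not_and, not_or, not_not, not_lt] at hb
      obtain ⟨h3, h4⟩ := hb hj
      exact hW Y hYY κ _ hκ6 hκ4 b1 b2 h3 h4

end Pool.Agent.L7h18.BP
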