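import Pool.Agent.L7h18.BP.Fk2

/-!
# Project BP: the final counting (`S_FK`)
-/

set_option autoImplicit false

namespace Pool.Agent.L7h18.BP

open Finset Filter MeasureTheory
open Pool.Agent.L7h88.BW (th S_POOR)

/-- the possible `k` for a window -/
noncomputable def Kw (u : ℝ) : ℕ := ⌊(Real.exp (u / 2) - 1) / 2⌋₊

lemma Kw_mem {k : ℕ} {u κ : ℝ} (hκ : 0 ≤ κ) (hk : 1 ≤ k) (h1 : (2 * (k : ℝ) - 1) ^ 2 ≤ Real.exp u)
    (h2 : Real.exp (u + κ) ≤ (2 * (k : ℝ) + 1) ^ 2) : k ∈ Icc (Kw u) (Kw u + 2) := by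
  have hk1 : (1 : ℝ) ≤ k := by exact_mod_cast hk
  have he : Real.exp (u / 2) ^ 2 = Real.exp u := by
    rw [← Real.exp_nat_mul]
    congr 1
    push_cast
    ring
  have h3 : Real.exp u ≤ (2 * (k : ℝ) + 1) ^ 2 := le_trans (Real.exp_le_exp.2 (by linarith)) h2
  have h4 : 2 * (k : ℝ) - 1 ≤ Real.exp (u / 2) :=
    (pow_le_pow_iff_left₀ (by linarith) (Real.exp_pos _).le (by norm_num : (2 : ℕ) ≠ 0)).1 (by rw [he]; exact h1)
  have h5 : Real.exp (u / 2) ≤ 2 * (k : ℝ) + 1 :=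
    (pow_le_pow_iff_left₀ (Real.exp_pos _).le (by linarith) (by norm_num : (2 : ℕ) ≠ 0)).1 (by rw [he]; exact h3)
  unfold Kw
  rw [mem_Icc]
  constructor
  · have h6 : (Real.exp (u / 2) - 1) / 2 ≤ k := by linarith
    have := Nat.floor_le_floor h6
    rwa [Nat.floor_natCast] at this
  · have h6 : (k : ℝ) ≤ (Real.exp (u / 2) - 1) / 2 + 1 := by linarith
    have h7 : (Real.exp (u / 2) - 1) / 2 < (⌊(Real.exp (u / 2) - 1) / 2⌋₊ : ℝ) + 1 := Nat.lt_floor_add_one _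
    have h8 : (k : ℝ) < ((⌊(Real.exp (u / 2) - 1) / 2⌋₊ + 2 : ℕ) : ℝ) := by push_cast; linarith
    have h9 : k < ⌊(Real.exp (u / 2) - 1) / 2⌋₊ + 2 := by exact_mod_cast h8
    omega

theorem s_FK (hB : S_BVP) (hP : S_POOR) (hE : S_EQW) (hA : S_CLA) (hC : S_CLB) : S_FK := by
  classical
  obtain ⟨δ₁, η, hδ₁, hδ₁', hη, hη', hB⟩ := hB
  obtain ⟨c₀, η', YP, hc₀, hη'0, hP⟩ := hP
  obtain ⟨μ, hμd⟩ : ∃ μ, μ = min (η / 2) η' := ⟨_, rfl⟩
  have hμ : 0 < μ := by rw [hμd]; exact lt_min (by positivity) hη'0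
  have hμη : μ ≤ η / 2 := by rw [hμd]; exact min_le_left _ _
  have hμη' : μ ≤ η' := by rw [hμd]; exact min_le_right _ _
  refine ⟨μ / 8, by positivity, fun m lam hlam => ?_⟩
  obtain ⟨C, A, c₁, c₂, Y₀, hc₁, hc₂, hW⟩ := win_ok hE hA hC m hδ₁ hδ₁' hc₀ hlam
  obtain ⟨YB, hB⟩ := hB A
  obtain ⟨k₀, hk₀⟩ := block (δ := μ / 8) hlam hc₁ hc₂ hμ (by linarith) (by positivity) (by linarith) hW
  refine ⟨C, min (c₁ / (10 * 4 ^ C)) (c₂ / 10), by positivity, ?_⟩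
  -- the blocks
  obtain ⟨Ys, hYs⟩ : ∃ Ys, Ys = max (max YP YB) 1 := ⟨_, rfl⟩
  set kap : ℝ → ℝ := fun Y => Real.exp (-((1 / 2 + μ) * Y)) with hkap
  have hblock : ∀ Y : ℝ, Ys ≤ Y → ∃ t : ℝ, 0 ≤ t ∧ t ≤ kap Y ∧
      ((Bdw δ₁ c₀ Y (kap Y) t A).card : ℝ) ≤ 2 * Real.exp ((1 / 2 - μ) * Y) := by
    intro Y hY
    rw [hYs] at hY
    simp only [max_le_iff] at hY
    obtain ⟨⟨hY1, hY2⟩, hY3⟩ := hY
    have hk1 : Real.exp (-((1 / 2 + η) * Y)) ≤ kap Y := by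
      rw [hkap]; apply Real.exp_le_exp.2; nlinarith
    have hk1' : Real.exp (-((1 / 2 + η') * Y)) ≤ kap Y := by
      rw [hkap]; apply Real.exp_le_exp.2; nlinarith
    have hk2 : kap Y ≤ Real.exp (-(Y / 4)) := by
      rw [hkap]; apply Real.exp_le_exp.2; nlinarith
    obtain ⟨t, ht0, ht1, ht⟩ := hB Y hY2 (kap Y) hk1 hk2
    refine ⟨t, ht0, ht1, ?_⟩
    refine Bdw_card (by linarith) rfl hμη (by linarith) (hP Y hY1 (kap Y) t hk1' hk2 ht0 ht1) ?_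
    refine le_trans (le_of_eq ?_) ht
    rw [Nat.cast_inj]
    congr 1
  choose! tt htt0 htt1 htt2 using hblock
  -- the limit conditions
  have hN1 : ∀ᶠ N : ℕ in atTop, (max (k₀ : ℝ) (Real.exp (Ys + 1)) + 100) ≤ (N : ℝ) ^ (1 - μ / 4) :=
    ((tendsto_rpow_atTop (by linarith)).comp tendsto_natCast_atTop_atTop).eventually_ge_atTop _
  have hN2 : ∀ᶠ N : ℕ in atTop, 1 + (N : ℝ) ^ (1 - μ / 4) + (8 * Real.log (4 * (N : ℝ) ^ 2) + 1) *
      (12 * (N : ℝ) ^ (1 - 2 * μ)) ≤ (N : ℝ) ^ (1 - μ / 8) := by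
    have g1 : Tendsto (fun N : ℕ => (N : ℝ) ^ (-(μ / 8))) atTop (nhds 0) :=
      (tendsto_rpow_neg_atTop (by positivity)).comp tendsto_natCast_atTop_atTop
    have g2 : Tendsto (fun N : ℕ => Real.log N / (N : ℝ) ^ μ) atTop (nhds 0) :=
      ((isLittleO_log_rpow_atTop (r := μ) hμ).tendsto_div_nhds_zero).comp tendsto_natCast_atTop_atTop
    have g3 : Tendsto (fun N : ℕ => (N : ℝ) ^ (-μ)) atTop (nhds 0) :=
      (tendsto_rpow_neg_atTop hμ).comp tendsto_natCast_atTop_atTop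
    have g4 : Tendsto (fun N : ℕ => (N : ℝ) ^ (-(1 / 2 : ℝ))) atTop (nhds 0) :=
      (tendsto_rpow_neg_atTop (by norm_num)).comp tendsto_natCast_atTop_atTop
    filter_upwards [g1.eventually (gt_mem_nhds (show (0 : ℝ) < 1 / 4 by norm_num)),
      g2.eventually (gt_mem_nhds (show (0 : ℝ) < 1 / 1000 by norm_num)),
      g3.eventually (gt_mem_nhds (show (0 : ℝ) < 1 / 1000 by norm_num)),
      g4.eventually (gt_mem_nhds (show (0 : ℝ) < 1 / 4 by norm_num)), eventually_ge_atTop 2] with N q1 q2 q3 q4 q5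
    have hN2 : (2 : ℝ) ≤ N := by exact_mod_cast q5
    have hN0 : (0 : ℝ) < N := by linarith
    have hlog : 0 ≤ Real.log N := Real.log_nonneg (by linarith)
    have r1 : (N : ℝ) ^ (1 - μ / 4) = (N : ℝ) ^ (-(μ / 8)) * (N : ℝ) ^ (1 - μ / 8) := by
      rw [← Real.rpow_add hN0]; congr 1; ring
    have r2 : (N : ℝ) ^ (1 - 2 * μ) ≤ (N : ℝ) ^ (-μ) * (N : ℝ) ^ (1 - μ / 8) := by
      rw [← Real.rpow_add hN0]; apply Real.rpow_le_rpow_of_exponent_le (by linarith); linarith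
    have r3 : Real.log N * (N : ℝ) ^ (1 - 2 * μ) ≤ 1 / 1000 * (N : ℝ) ^ (1 - μ / 8) := by
      have s1 : Real.log N ≤ 1 / 1000 * (N : ℝ) ^ μ := by
        rw [div_lt_iff₀ (by positivity)] at q2; exact q2.le
      have s2 : (N : ℝ) ^ μ * (N : ℝ) ^ (1 - 2 * μ) ≤ (N : ℝ) ^ (1 - μ / 8) := by
        rw [← Real.rpow_add hN0]; apply Real.rpow_le_rpow_of_exponent_le (by linarith); linarith
      calc Real.log N * (N : ℝ) ^ (1 - 2 * μ) ≤ (1 / 1000 * (N : ℝ) ^ μ) * (N : ℝ) ^ (1 - 2 * μ) :=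
            mul_le_mul_of_nonneg_right s1 (by positivity)
        _ = 1 / 1000 * ((N : ℝ) ^ μ * (N : ℝ) ^ (1 - 2 * μ)) := by ring
        _ ≤ _ := mul_le_mul_of_nonneg_left s2 (by norm_num)
    have r4 : (1 : ℝ) ≤ 1 / 4 * (N : ℝ) ^ (1 - μ / 8) := by
      have s1 : (1 : ℝ) ≤ (N : ℝ) ^ (-(1 / 2 : ℝ)) * (N : ℝ) ^ (1 - μ / 8) := by
        rw [← Real.rpow_add hN0]; apply Real.one_le_rpow (by linarith); linarith
      have s2 : 0 < (N : ℝ) ^ (1 - μ / 8) := by positivity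
      nlinarith
    have r5 : Real.log (4 * (N : ℝ) ^ 2) ≤ 1.4 + 2 * Real.log N := by
      rw [Real.log_mul (by norm_num) (by positivity), Real.log_pow]
      have : Real.log 4 = 2 * Real.log 2 := by
        rw [show (4 : ℝ) = 2 ^ 2 by norm_num, Real.log_pow]; push_cast; ring
      have h7 := Real.log_two_lt_d9
      push_cast
      linarith
    have hp : 0 < (N : ℝ) ^ (1 - μ / 8) := by positivity
    have hp2 : 0 < (N : ℝ) ^ (1 - 2 * μ) := by positivity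
    have r6 : (N : ℝ) ^ (1 - μ / 4) ≤ 1 / 4 * (N : ℝ) ^ (1 - μ / 8) := by
      rw [r1]; exact mul_le_mul_of_nonneg_right q1.le hp.le
    have r7 : (N : ℝ) ^ (1 - 2 * μ) ≤ 1 / 1000 * (N : ℝ) ^ (1 - μ / 8) :=
      r2.trans (mul_le_mul_of_nonneg_right q3.le hp.le)
    have r8 : (8 * Real.log (4 * (N : ℝ) ^ 2) + 1) * (12 * (N : ℝ) ^ (1 - 2 * μ)) ≤
        (13 + 16 * Real.log N) * (12 * (N : ℝ) ^ (1 - 2 * μ)) := by
      apply mul_le_mul_of_nonneg_right _ (by positivity)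
      linarith
    nlinarith
  obtain ⟨N₀, hN₀⟩ := eventually_atTop.1 ((hN1.and hN2).and (eventually_ge_atTop 2))
  refine ⟨N₀, fun N hN => ?_⟩
  obtain ⟨⟨f1, f2⟩, f3⟩ := hN₀ N hN
  have hN2r : (2 : ℝ) ≤ N := by exact_mod_cast f3
  have hN0 : (0 : ℝ) < N := by linarith
  refine le_trans ?_ f2
  obtain ⟨I, hI⟩ : ∃ I, I = ⌊8 * Real.log (4 * (N : ℝ) ^ 2)⌋₊ := ⟨_, rfl⟩
  have hlog4N : 0 ≤ Real.log (4 * (N : ℝ) ^ 2) := Real.log_nonneg (by nlinarith)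
  have hIr : (I : ℝ) ≤ 8 * Real.log (4 * (N : ℝ) ^ 2) := by
    rw [hI]; exact Nat.floor_le (by positivity)
  obtain ⟨Is, hIs⟩ : ∃ Is, Is = (range (I + 1)).filter (fun i : ℕ => Ys ≤ (i : ℝ) / 8) := ⟨_, rfl⟩
  obtain ⟨Bk, hBk⟩ : ∃ Bk : Finset ℕ, Bk = Is.biUnion (fun i : ℕ =>
    (Bdw δ₁ c₀ ((i : ℝ) / 8) (kap ((i : ℝ) / 8)) (tt ((i : ℝ) / 8)) A).biUnion (fun j : ℕ =>
      Icc (Kw ((i : ℝ) / 8 - 1 / 4 + tt ((i : ℝ) / 8) + j * kap ((i : ℝ) / 8)))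
        (Kw ((i : ℝ) / 8 - 1 / 4 + tt ((i : ℝ) / 8) + j * kap ((i : ℝ) / 8)) + 2))) := ⟨_, rfl⟩
  have hcov : (Icc 1 N).filter (fun k => ¬ GoodK (μ / 8) lam (min (c₁ / (10 * 4 ^ C)) (c₂ / 10)) m C k) ⊆
      Icc 1 ⌊(N : ℝ) ^ (1 - μ / 4)⌋₊ ∪ Bk := by
    intro k hk
    rw [mem_filter, mem_Icc] at hk
    obtain ⟨⟨hk1, hkN⟩, hbad⟩ := hk
    rw [mem_union]
    by_cases hsmall : (k : ℝ) ≤ (N : ℝ) ^ (1 - μ / 4)
    · left
      rw [mem_Icc]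
      exact ⟨hk1, (Nat.le_floor_iff (by positivity)).2 hsmall⟩
    · right
      push Not at hsmall
      have hkbig : max (k₀ : ℝ) (Real.exp (Ys + 1)) + 100 ≤ k := f1.trans hsmall.le
      have hk0 : (0 : ℝ) < k := by exact_mod_cast hk1
      have hkk₀ : k₀ ≤ k := by
        have : (k₀ : ℝ) ≤ k := by
          have := le_max_left (k₀ : ℝ) (Real.exp (Ys + 1))
          linarith
        exact_mod_cast this
      have hkY : Ys + 1 ≤ Real.log k := by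
        rw [Real.le_log_iff_exp_le hk0]
        have := le_max_right (k₀ : ℝ) (Real.exp (Ys + 1))
        linarith
      have hlog4k : Real.log (4 * (k : ℝ) ^ 2) = Real.log 4 + 2 * Real.log k := by
        rw [Real.log_mul (by norm_num) (by positivity), Real.log_pow]
        push_cast
        ring
      have hl4a : 0 ≤ Real.log 4 := Real.log_nonneg (by norm_num)
      have hYs1 : 1 ≤ Ys := by rw [hYs]; exact le_max_right _ _
      obtain ⟨i, hi⟩ : ∃ i, i = ⌊8 * Real.log (4 * (k : ℝ) ^ 2)⌋₊ := ⟨_, rfl⟩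
      have hpos : 0 ≤ 8 * Real.log (4 * (k : ℝ) ^ 2) := by rw [hlog4k]; linarith
      have hi1 : (i : ℝ) ≤ 8 * Real.log (4 * (k : ℝ) ^ 2) := by rw [hi]; exact Nat.floor_le hpos
      have hi2 : 8 * Real.log (4 * (k : ℝ) ^ 2) < (i : ℝ) + 1 := by rw [hi]; exact Nat.lt_floor_add_one _
      have hiY : Ys ≤ (i : ℝ) / 8 := by rw [hlog4k] at hi2; linarith
      have hiI : i < I + 1 := by
        have h1 : Real.log (4 * (k : ℝ) ^ 2) ≤ Real.log (4 * (N : ℝ) ^ 2) := by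
          apply Real.log_le_log (by positivity)
          have : (k : ℝ) ≤ N := by exact_mod_cast hkN
          gcongr
        have h2 : i ≤ I := by
          rw [hi, hI]
          apply Nat.floor_le_floor
          linarith
        omega
      by_contra hcon
      apply hbad
      refine hk₀ k hkk₀ ((i : ℝ) / 8) (kap ((i : ℝ) / 8)) (tt ((i : ℝ) / 8)) (by linarith) (by linarith) rfl
        (htt0 _ hiY) (htt1 _ hiY) ?_
      intro j hj h1 h2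
      apply hcon
      rw [hBk, mem_biUnion]
      refine ⟨i, by rw [hIs, mem_filter, mem_range]; exact ⟨hiI, hiY⟩, ?_⟩
      rw [mem_biUnion]
      exact ⟨j, hj, Kw_mem (by rw [hkap]; exact (Real.exp_pos _).le) hk1 h1 h2⟩
  have hBkc : (Bk.card : ℝ) ≤ (8 * Real.log (4 * (N : ℝ) ^ 2) + 1) * (12 * (N : ℝ) ^ (1 - 2 * μ)) := by
    have h1 : ∀ i ∈ Is, (((Bdw δ₁ c₀ ((i : ℝ) / 8) (kap ((i : ℝ) / 8)) (tt ((i : ℝ) / 8)) A).biUnion (fun j : ℕ =>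
        Icc (Kw ((i : ℝ) / 8 - 1 / 4 + tt ((i : ℝ) / 8) + j * kap ((i : ℝ) / 8)))
        (Kw ((i : ℝ) / 8 - 1 / 4 + tt ((i : ℝ) / 8) + j * kap ((i : ℝ) / 8)) + 2))).card : ℝ) ≤
        12 * (N : ℝ) ^ (1 - 2 * μ) := by
      intro i hi
      rw [hIs, mem_filter, mem_range] at hi
      have h2 : ((Bdw δ₁ c₀ ((i : ℝ) / 8) (kap ((i : ℝ) / 8)) (tt ((i : ℝ) / 8)) A).biUnion (fun j : ℕ =>
        Icc (Kw ((i : ℝ) / 8 - 1 / 4 + tt ((i : ℝ) / 8) + j * kap ((i : ℝ) / 8)))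
        (Kw ((i : ℝ) / 8 - 1 / 4 + tt ((i : ℝ) / 8) + j * kap ((i : ℝ) / 8)) + 2))).card ≤
          (Bdw δ₁ c₀ ((i : ℝ) / 8) (kap ((i : ℝ) / 8)) (tt ((i : ℝ) / 8)) A).card * 3 := by
        apply card_biUnion_le_card_mul
        intro j _
        rw [Nat.card_Icc]
        omega
      have h3 := htt2 _ hi.2
      have h4 : Real.exp ((1 / 2 - μ) * ((i : ℝ) / 8)) ≤ 2 * (N : ℝ) ^ (1 - 2 * μ) := by
        have h5 : (i : ℝ) / 8 ≤ Real.log (4 * (N : ℝ) ^ 2) := by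
          have : (i : ℝ) ≤ I := by exact_mod_cast Nat.lt_succ_iff.1 hi.1
          linarith
        have h6 : (1 / 2 - μ) * ((i : ℝ) / 8) ≤ (1 / 2 - μ) * Real.log (4 * (N : ℝ) ^ 2) :=
          mul_le_mul_of_nonneg_left h5 (by linarith)
        refine (Real.exp_le_exp.2 h6).trans ?_
        have h7 : Real.log (4 * (N : ℝ) ^ 2) = 2 * Real.log 2 + 2 * Real.log N := by
          rw [Real.log_mul (by norm_num) (by positivity), Real.log_pow,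
            show (4 : ℝ) = 2 ^ 2 by norm_num, Real.log_pow]
          push_cast
          ring
        have h8 : (1 / 2 - μ) * Real.log (4 * (N : ℝ) ^ 2) ≤ Real.log 2 + (1 - 2 * μ) * Real.log N := by
          rw [h7]
          have : 0 < Real.log 2 := Real.log_pos (by norm_num)
          nlinarith
        refine (Real.exp_le_exp.2 h8).trans (le_of_eq ?_)
        rw [Real.exp_add, Real.exp_log (by norm_num), Real.rpow_def_of_pos hN0, mul_comm (Real.log N)]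
      have h5 : (((Bdw δ₁ c₀ ((i : ℝ) / 8) (kap ((i : ℝ) / 8)) (tt ((i : ℝ) / 8)) A).biUnion (fun j : ℕ =>
        Icc (Kw ((i : ℝ) / 8 - 1 / 4 + tt ((i : ℝ) / 8) + j * kap ((i : ℝ) / 8)))
        (Kw ((i : ℝ) / 8 - 1 / 4 + tt ((i : ℝ) / 8) + j * kap ((i : ℝ) / 8)) + 2))).card : ℝ) ≤
          ((Bdw δ₁ c₀ ((i : ℝ) / 8) (kap ((i : ℝ) / 8)) (tt ((i : ℝ) / 8)) A).card : ℝ) * 3 := by
        exact_mod_cast h2
      linarith
    rw [hBk]
    have h2 : ((Is.biUnion (fun i : ℕ =>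
      (Bdw δ₁ c₀ ((i : ℝ) / 8) (kap ((i : ℝ) / 8)) (tt ((i : ℝ) / 8)) A).biUnion (fun j : ℕ =>
      Icc (Kw ((i : ℝ) / 8 - 1 / 4 + tt ((i : ℝ) / 8) + j * kap ((i : ℝ) / 8)))
        (Kw ((i : ℝ) / 8 - 1 / 4 + tt ((i : ℝ) / 8) + j * kap ((i : ℝ) / 8)) + 2)))).card : ℝ) ≤
        ∑ i ∈ Is, (((Bdw δ₁ c₀ ((i : ℝ) / 8) (kap ((i : ℝ) / 8)) (tt ((i : ℝ) / 8)) A).biUnion (fun j : ℕ =>
        Icc (Kw ((i : ℝ) / 8 - 1 / 4 + tt ((i : ℝ) / 8) + j * kap ((i : ℝ) / 8)))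
        (Kw ((i : ℝ) / 8 - 1 / 4 + tt ((i : ℝ) / 8) + j * kap ((i : ℝ) / 8)) + 2))).card : ℝ) := by
      exact_mod_cast card_biUnion_le
    refine h2.trans ((sum_le_card_nsmul _ _ _ h1).trans ?_)
    rw [nsmul_eq_mul]
    apply mul_le_mul_of_nonneg_right _ (by positivity)
    have h3 : Is.card ≤ I + 1 := by
      rw [hIs]
      exact (card_filter_le _ _).trans (by rw [card_range])
    have h4 : (Is.card : ℝ) ≤ I + 1 := by exact_mod_cast h3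
    linarith
  have h1 := (card_le_card hcov).trans (card_union_le _ _)
  rw [Nat.card_Icc, Nat.add_sub_cancel] at h1
  have h2 : ((⌊(N : ℝ) ^ (1 - μ / 4)⌋₊ : ℕ) : ℝ) ≤ (N : ℝ) ^ (1 - μ / 4) := Nat.floor_le (by positivity)
  have h3 : ((((Icc 1 N).filter (fun k => ¬ GoodK (μ / 8) lam (min (c₁ / (10 * 4 ^ C)) (c₂ / 10)) m C k)).card : ℕ) : ℝ) ≤
      ((⌊(N : ℝ) ^ (1 - μ / 4)⌋₊ : ℕ) : ℝ) + (Bk.card : ℝ) := by exact_mod_cast h1
  refine le_trans (le_of_eq ?_) (h3.trans (by linarith))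
  rw [Nat.cast_inj]

end Pool.Agent.L7h18.BP
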