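import Pool.Agent.L7h18.BP.Fk2

/-!
# Project BP (helper18), third part: general transfer and further theorems for almost all intervals

`S_GEN`, `S_IK` (helper18): a lower bound for the number of the `n` with a property `Pr` in every window in which the primes are dense and
well distributed in progressions (`HW`) gives the lower bound in every interval that contains no point of a small exceptional set.
The statements `S_CLP`, `S_ALT`, `S_BVJ` are independent of each other and of `S_GEN`.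
-/

set_option autoImplicit false

open Finset

namespace Pool.Agent.L7h18.BP

open Pool.Agent.L7h88.BW (th S_POOR)

open Classical in
/-- in good windows the property `Pr` has the density `≥ c / Y^C` -/
def HW (δ₁ c₀ : ℝ) (Pr : ℕ → Prop) (C : ℕ) : Prop := ∃ (A : ℕ) (c Y₀ : ℝ), 0 < c ∧ ∀ Y : ℝ, Y₀ ≤ Y → ∀ κ u : ℝ,
  Real.exp (-(0.6 * Y)) ≤ κ → κ ≤ Real.exp (-(Y / 4)) → Y - 1 / 4 ≤ u → u + κ ≤ Y + 1 / 4 →
  c₀ * κ * Real.exp Y ≤ th u κ 1 0 → BVw δ₁ Y κ u A →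
  c * (κ * Real.exp Y) / Y ^ C ≤ (((Wu u κ).Q.filter Pr).card : ℝ)

open Classical in
/-- **GEN** (`S_BVP → S_POOR → S_GEN`), helper18. -/
def S_GEN : Prop := ∃ δ δ₁ c₀ : ℝ, 0 < δ ∧ 0 < δ₁ ∧ δ₁ ≤ 1 / 100 ∧ 0 < c₀ ∧ ∀ (Pr : ℕ → Prop) (C : ℕ), HW δ₁ c₀ Pr C →
  ∃ (c : ℝ) (X₀ : ℕ), 0 < c ∧ ∀ X : ℕ, X₀ ≤ X → ∃ B : Finset ℕ, (B.card : ℝ) ≤ (X : ℝ) ^ (1 / 2 - δ) ∧
    ∀ x y : ℕ, X ≤ x → y ≤ 2 * X → (x : ℝ) + (X : ℝ) ^ (1 / 2 - δ) ≤ y → Disjoint B (Icc x y) →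
    c * ((y : ℝ) - x) / Real.log X ^ C ≤ (((Ioo x y).filter Pr).card : ℝ)

open Classical in
/-- **IK** (`S_GEN → S_IK`), helper18: the intervals between odd squares -/
def S_IK : Prop := ∃ δ δ₁ c₀ : ℝ, 0 < δ ∧ 0 < δ₁ ∧ δ₁ ≤ 1 / 100 ∧ 0 < c₀ ∧ ∀ (Pr : ℕ → Prop) (C : ℕ), HW δ₁ c₀ Pr C →
  ∃ (c : ℝ) (N₀ : ℕ), 0 < c ∧ ∀ N : ℕ, N₀ ≤ N →
  (((Icc 1 N).filter (fun k => ¬ ∀ x y : ℕ, (2 * k - 1) ^ 2 ≤ x → y ≤ (2 * k + 1) ^ 2 → (x : ℝ) + (k : ℝ) ^ (1 - δ) ≤ y →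
    c * ((y : ℝ) - x) / Real.log k ^ C ≤ (((Ioo x y).filter Pr).card : ℝ))).card : ℝ) ≤ (N : ℝ) ^ (1 - δ)

/-- admissible sets of shifts -/
def Adm (H : Finset ℕ) : Prop := ∀ p : ℕ, p.Prime → ∃ a : ℕ, ∀ h ∈ H, ¬ p ∣ a + h

open Classical in
/-- at least `m` of the numbers `n + h`, `h ∈ H`, are primes, and there is no other prime among `n, …, n + D` -/
def Pat (m : ℕ) (H : Finset ℕ) (D n : ℕ) : Prop :=
  m ≤ (H.filter (fun h => (n + h).Prime)).card ∧ ∀ j ≤ D, (n + j).Prime → j ∈ H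

open Classical in
/-- **CLP** (`S_MTW → S_CLP`): clusters of primes with prescribed composite surroundings. Adapt `Pool/Agent/L7h97/BP/Cla.lean`. Choose `T`
(`groups`), `K` from MTW, `R = T K` (independent of `H`, `D`), and an injection `H' : Fin T × Fin K → H`; `N₁ = 0`, `Λ = 1`. For the
`j ∈ [0, D] \ H` choose different primes `p_j > D + max H`. By the Chinese remainder theorem there is `b < Wm X` (for `HH X ≥` all `p_j`)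
with `p_j ∣ b + j` for these `j` and, for every other prime `p ≤ HH X`, `b ≡ a_p (mod p)` from `Adm H`. So `(b + h, Wm X) = 1` for `h ∈ H`
(`b + h ≡ h - j ≢ 0 (mod p_j)` since `0 < |h - j| < p_j`). If `n ≡ b (mod Wm X)`, `n ≥ X`, then `p_j ∣ n + j`, `n + j > p_j`, not a prime. -/
def S_CLP : Prop := ∀ (ϑ c₀ : ℝ) (m : ℕ), 0 < ϑ → ϑ ≤ 1 / 2 → 0 < c₀ → ∃ R : ℕ, ∀ (H : Finset ℕ) (D : ℕ),
  Adm H → (∀ h ∈ H, 1 ≤ h) → R ≤ H.card → ∃ (C K' A' X₀ : ℕ) (c : ℝ), 0 < c ∧ ∀ X : ℕ, X₀ ≤ X →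
  ∀ ω : Wd, Hyp K' A' ϑ 1 c₀ X ω →
  c * ω.H / Real.log X ^ C ≤ ((ω.Q.filter (Pat m H D)).card : ℝ)

open Classical in
/-- **ALT** (`S_MLW → S_ALT`): tuples of one prime and almost primes, right order of magnitude. Proof: MLW with `N = |H|`, `m = 0`, `Λ = 1`,
`θ = ϑ/16`, `s = 1/2`, `δ = min δ₀ (1/8)`, `F = F' = {∅}`, `u = u' = 0` (`FS {∅} = 1`, `GG {∅} = 1`), `U = H \ {h₀}`, `a₀ = h₀`: for every
`b < Wm X` with `(b + h, Wm X) = 1` for all `h ∈ H`: `#{n ∈ WP ω X b h₀ : all n + h rough} ≥ ½ WOmP ω δ X |U| = ½ (ω.P/φ(W)) VV^{|U|}`. Such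
`n + h` have no prime factor `≤ HH X` (the class `b`), none between `HH X` and `2^(2^JJ) ≥ X^{δ/2}` (rough): take `ζ = δ/3`. The number of
these `b` is `∏_{p ≤ HH X} (p - ν_H(p)) ≥ c_H W (φ(W)/W)^{|H|}` (`ν_H(p) ≤ min (|H|, p - 1)`; for `p > |H|`
`(1 - |H|/p) ≥ (1 - 1/p)^{|H|} (1 - |H|²/p²)`... convergent product). With `S_MV` (`VV (φ(W)/W) δ log X ≥ cv`; theorem `mv` in
`L7h97/BP/Cla.lean`) and `ω.P ≥ c₀ ω.H / log X` the total is `≥ ½ c_H ω.P ((φ(W)/W) VV)^{|U|} ≥ c ω.H / (log X)^{|H|}`. -/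
def S_ALT : Prop := ∀ (ϑ c₀ : ℝ) (H : Finset ℕ) (h₀ : ℕ), 0 < ϑ → ϑ ≤ 1 / 2 → 0 < c₀ → (∀ h ∈ H, 1 ≤ h) → h₀ ∈ H →
  Adm H → ∃ (ζ c : ℝ) (K' A' X₀ : ℕ), 0 < ζ ∧ 0 < c ∧ ∀ X : ℕ, X₀ ≤ X → ∀ ω : Wd, Hyp K' A' ϑ 1 c₀ X ω →
  c * ω.H / Real.log X ^ H.card ≤ ((ω.Q.filter (fun n => (n + h₀).Prime ∧
    ∀ h ∈ H, ∀ p : ℕ, p.Prime → p ∣ n + h → (n : ℝ) ^ ζ < p)).card : ℝ)

/-- `∑ log p` over the primes `x < p < y`, `p ≡ a (mod q)` -/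
noncomputable def thI (x y q a : ℕ) : ℝ := ∑ p ∈ (Ioo x y).filter (fun p => p.Prime ∧ p ≡ a [MOD q]), Real.log p

/-- **BVJ** (`S_BVP → S_POOR → S_BVJ`): Bombieri-Vinogradov in all intervals that avoid a small set. Proof. `δ₁, η, c₀, η'` and
`μ = min (η/2) η'`, `κ_Y = e^{-(1/2 + μ) Y}` as in `s_FK` (`Fk3.lean`); blocks `Y_i = log X + i/8`, `1 ≤ i ≤ 8`, `t_i` from BVP with `A + 3`; `B` is the
set of the `⌈e^{u}⌉` for the bad windows `[u, u + κ]` (`Bdw`, `Bdw_card`) of these blocks, `|B| ≤ 16 e^{(1/2 - μ)(log X + 1)} ≤ X^{1/2 - δ}`, `δ = μ/4`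
(`≤ δ₁/2` too). Given `(x, y)` with `y ≤ 1.1 x`, choose `i` with `Y_i - 1/4 + 0.01 ≤ log x ≤ Y_i - 1/4 + 0.01 + 1/8`; then `(x, y)` lies in the block `i`.
A bad window inside `(x, y)` (`x ≤ e^u`, `e^{u+κ} ≤ y`) would give the point `⌈e^u⌉ ∈ [x, y]` of `B`. So all windows inside are good, they are
consecutive, and `thI x y q a` is the sum of `th u_j κ q a` over them plus the primes of two intervals of length `≤ 2 κ e^Y =: L`, each at most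
`(L/q + 1) (Y + 1)`. Hence `∑_q |thI x y q a - thI x y 1 0/φ(q)| ≤ ∑_j κ e^Y/Y^{A+3} + 4 ∑_q (L/q + L/φ(q) + 2)(Y + 1) ≤ (y - x)/(log X)^A`
(`X^δ ≤ Gc δ₁ Y`, `y - x ≥ X^{1/2 - δ} ≥ X^{μ/4} κ e^Y`; the number of windows times `κ e^Y` is `≤ 2 (y - x)`). And
`thI x y 1 0 ≥ #windows · c₀ κ e^Y ≥ c (y - x)` (`grid` in `L7h88/BW/Fin1.lean`, as in `one_k` of `Fk1.lean`). -/
def S_BVJ : Prop := ∃ δ c : ℝ, 0 < δ ∧ 0 < c ∧ ∀ A : ℕ, ∃ X₀ : ℕ, ∀ X : ℕ, X₀ ≤ X → ∃ B : Finset ℕ,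
  (B.card : ℝ) ≤ (X : ℝ) ^ (1 / 2 - δ) ∧ ∀ x y : ℕ, X ≤ x → y ≤ 2 * X → (x : ℝ) + (X : ℝ) ^ (1 / 2 - δ) ≤ y →
  (y : ℝ) ≤ 1.1 * x → Disjoint B (Icc x y) → c * ((y : ℝ) - x) ≤ thI x y 1 0 ∧
    ∀ a : ℕ → ℕ, (∀ q, (a q).Coprime q) → ∑ q ∈ Icc 1 ⌊(X : ℝ) ^ δ⌋₊,
      |thI x y q (a q) - thI x y 1 0 / (Nat.totient q : ℝ)| ≤ ((y : ℝ) - x) / Real.log X ^ A

end Pool.Agent.L7h18.BP
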