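import Pool.Agent.L7h18.BP.Gen

/-!
# Project BP: transfer to the intervals between odd squares (`S_IK`)
-/

set_option autoImplicit false

namespace Pool.Agent.L7h18.BP

open Finset Filter

/-- starting points of the blocks -/
def XX (i : ℕ) : ℕ := (2 + i % 2) * 2 ^ (i / 2)

lemma XX_ge (i : ℕ) : 2 ^ (i / 2) ≤ XX i := by
  unfold XX
  exact Nat.le_mul_of_pos_left _ (by omega)

lemma XX_pos (i : ℕ) : 1 ≤ XX i := (Nat.one_le_two_pow).trans (XX_ge i)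

lemma XX_find {x y : ℕ} (hx : 4 ≤ x) (hy : (y : ℝ) ≤ 1.1 * x) : ∃ i, XX i ≤ x ∧ y ≤ 2 * XX i := by
  obtain ⟨m, hm⟩ : ∃ m, m = Nat.log 2 x := ⟨_, rfl⟩
  have h1 : 2 ^ m ≤ x := by rw [hm]; exact Nat.pow_log_le_self 2 (by omega)
  have h2 : x < 2 ^ (m + 1) := by rw [hm]; exact Nat.lt_pow_succ_log_self (by norm_num) x
  have hm1 : 1 ≤ m := by
    by_contra hc
    have : m = 0 := by omega
    rw [this] at h2
    omega
  have e1 : 2 ^ m = 2 * 2 ^ (m - 1) := by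
    rw [← pow_succ']; congr 1; omega
  have e2 : 2 ^ (m + 1) = 4 * 2 ^ (m - 1) := by
    rw [pow_succ, e1]; ring
  have hy' : 10 * y ≤ 11 * x := by
    have : (10 : ℝ) * y ≤ 11 * x := by linarith
    exact_mod_cast this
  rcases le_or_gt y (2 ^ (m + 1)) with h | h
  · refine ⟨2 * (m - 1), ?_, ?_⟩
    · unfold XX
      rw [Nat.mul_mod_right, Nat.mul_div_cancel_left _ (by norm_num)]
      omega
    · unfold XX
      rw [Nat.mul_mod_right, Nat.mul_div_cancel_left _ (by norm_num)]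
      omega
  · refine ⟨2 * (m - 1) + 1, ?_, ?_⟩
    · unfold XX
      rw [show (2 * (m - 1) + 1) % 2 = 1 by omega, show (2 * (m - 1) + 1) / 2 = m - 1 by omega]
      omega
    · unfold XX
      rw [show (2 * (m - 1) + 1) % 2 = 1 by omega, show (2 * (m - 1) + 1) / 2 = m - 1 by omega]
      omega

/-- the `k` with `b` in the closed interval -/
lemma k_mem {k b : ℕ} (hk : 1 ≤ k) (h1 : (2 * k - 1) ^ 2 ≤ b) (h2 : b ≤ (2 * k + 1) ^ 2) :
    k ∈ Icc ((Nat.sqrt b - 1) / 2) ((Nat.sqrt b + 1) / 2) := by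
  have h3 : 2 * k - 1 ≤ Nat.sqrt b := by rw [Nat.le_sqrt']; exact h1
  have h4 : Nat.sqrt b ≤ 2 * k + 1 := by
    rw [← Nat.lt_succ_iff, Nat.sqrt_lt']
    exact lt_of_le_of_lt h2 (Nat.pow_lt_pow_left (by omega) (by norm_num))
  rw [mem_Icc]
  omega

open Classical in
/-- few `k` are bad -/
lemma few_k {δ : ℝ} (hδ : 0 < δ) (hδ' : δ < 1 / 2) : ∃ N₀ : ℕ, ∀ N : ℕ, N₀ ≤ N → ∀ B : ℕ → Finset ℕ,
    (∀ i, ((B i).card : ℝ) ≤ (XX i : ℝ) ^ (1 / 2 - δ)) →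
    (((Icc 1 N).filter (fun k : ℕ => (k : ℝ) ≤ (N : ℝ) ^ (1 - δ) ∨
      ∃ i, XX i ≤ (2 * k + 1) ^ 2 ∧ ∃ b ∈ B i, (2 * k - 1) ^ 2 ≤ b ∧ b ≤ (2 * k + 1) ^ 2)).card : ℝ) ≤
      (N : ℝ) ^ (1 - δ / 2) := by
  have hlim : ∀ᶠ N : ℕ in atTop, (N : ℝ) ^ (1 - δ) + (8 * Real.log N + 20) * (2 * (3 * (N : ℝ) ^ (1 - 2 * δ))) ≤
      (N : ℝ) ^ (1 - δ / 2) := by
    have g1 : Tendsto (fun N : ℕ => (N : ℝ) ^ (-(δ / 2))) atTop (nhds 0) :=
      (tendsto_rpow_neg_atTop (by positivity)).comp tendsto_natCast_atTop_atTop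
    have g2 : Tendsto (fun N : ℕ => Real.log N / (N : ℝ) ^ δ) atTop (nhds 0) :=
      ((isLittleO_log_rpow_atTop (r := δ) hδ).tendsto_div_nhds_zero).comp tendsto_natCast_atTop_atTop
    have g3 : Tendsto (fun N : ℕ => (N : ℝ) ^ (-δ)) atTop (nhds 0) :=
      (tendsto_rpow_neg_atTop hδ).comp tendsto_natCast_atTop_atTop
    filter_upwards [g1.eventually (gt_mem_nhds (show (0 : ℝ) < 1 / 4 by norm_num)),
      g2.eventually (gt_mem_nhds (show (0 : ℝ) < 1 / 1000 by norm_num)),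
      g3.eventually (gt_mem_nhds (show (0 : ℝ) < 1 / 1000 by norm_num)), eventually_ge_atTop 2] with N q1 q2 q3 q5
    have hN2 : (2 : ℝ) ≤ N := by exact_mod_cast q5
    have hN0 : (0 : ℝ) < N := by linarith
    have hlog : 0 ≤ Real.log N := Real.log_nonneg (by linarith)
    have r1 : (N : ℝ) ^ (1 - δ) = (N : ℝ) ^ (-(δ / 2)) * (N : ℝ) ^ (1 - δ / 2) := by
      rw [← Real.rpow_add hN0]; congr 1; ring
    have r2 : (N : ℝ) ^ (1 - 2 * δ) ≤ (N : ℝ) ^ (-δ) * (N : ℝ) ^ (1 - δ / 2) := by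
      rw [← Real.rpow_add hN0]; apply Real.rpow_le_rpow_of_exponent_le (by linarith); linarith
    have r3 : Real.log N * (N : ℝ) ^ (1 - 2 * δ) ≤ 1 / 1000 * (N : ℝ) ^ (1 - δ / 2) := by
      have s1 : Real.log N ≤ 1 / 1000 * (N : ℝ) ^ δ := by
        rw [div_lt_iff₀ (by positivity)] at q2; exact q2.le
      have s2 : (N : ℝ) ^ δ * (N : ℝ) ^ (1 - 2 * δ) ≤ (N : ℝ) ^ (1 - δ / 2) := by
        rw [← Real.rpow_add hN0]; apply Real.rpow_le_rpow_of_exponent_le (by linarith); linarith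
      calc Real.log N * (N : ℝ) ^ (1 - 2 * δ) ≤ (1 / 1000 * (N : ℝ) ^ δ) * (N : ℝ) ^ (1 - 2 * δ) :=
            mul_le_mul_of_nonneg_right s1 (by positivity)
        _ = 1 / 1000 * ((N : ℝ) ^ δ * (N : ℝ) ^ (1 - 2 * δ)) := by ring
        _ ≤ _ := mul_le_mul_of_nonneg_left s2 (by norm_num)
    have hp : 0 < (N : ℝ) ^ (1 - δ / 2) := by positivity
    have hp2 : 0 < (N : ℝ) ^ (1 - 2 * δ) := by positivity
    have r6 : (N : ℝ) ^ (1 - δ) ≤ 1 / 4 * (N : ℝ) ^ (1 - δ / 2) := by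
      rw [r1]; exact mul_le_mul_of_nonneg_right q1.le hp.le
    have r7 : (N : ℝ) ^ (1 - 2 * δ) ≤ 1 / 1000 * (N : ℝ) ^ (1 - δ / 2) :=
      r2.trans (mul_le_mul_of_nonneg_right q3.le hp.le)
    nlinarith
  obtain ⟨N₀, hN₀⟩ := eventually_atTop.1 (hlim.and (eventually_ge_atTop 2))
  refine ⟨N₀, fun N hN B hB => ?_⟩
  obtain ⟨f1, f2⟩ := hN₀ N hN
  have hN2 : (2 : ℝ) ≤ N := by exact_mod_cast f2
  have hN0 : (0 : ℝ) < N := by linarith
  refine le_trans ?_ f1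
  obtain ⟨I, hI⟩ : ∃ I, I = 2 * Nat.log 2 ((2 * N + 1) ^ 2) + 2 := ⟨_, rfl⟩
  obtain ⟨Bk, hBk⟩ : ∃ Bk : Finset ℕ, Bk = ((range I).filter (fun i => XX i ≤ (2 * N + 1) ^ 2)).biUnion (fun i : ℕ =>
    (B i).biUnion (fun b : ℕ => Icc ((Nat.sqrt b - 1) / 2) ((Nat.sqrt b + 1) / 2))) := ⟨_, rfl⟩
  have hcov : (Icc 1 N).filter (fun k : ℕ => (k : ℝ) ≤ (N : ℝ) ^ (1 - δ) ∨
      ∃ i, XX i ≤ (2 * k + 1) ^ 2 ∧ ∃ b ∈ B i, (2 * k - 1) ^ 2 ≤ b ∧ b ≤ (2 * k + 1) ^ 2) ⊆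
      Icc 1 ⌊(N : ℝ) ^ (1 - δ)⌋₊ ∪ Bk := by
    intro k hk
    rw [mem_filter, mem_Icc] at hk
    obtain ⟨⟨hk1, hkN⟩, h | ⟨i, hi, b, hb, hb1, hb2⟩⟩ := hk
    · exact mem_union_left _ (mem_Icc.2 ⟨hk1, (Nat.le_floor_iff (by positivity)).2 h⟩)
    · refine mem_union_right _ ?_
      have hi2 : XX i ≤ (2 * N + 1) ^ 2 := hi.trans (Nat.pow_le_pow_left (by omega) 2)
      rw [hBk, mem_biUnion]
      refine ⟨i, ?_, ?_⟩
      · rw [mem_filter, mem_range]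
        refine ⟨?_, hi2⟩
        have h3 : 2 ^ (i / 2) ≤ (2 * N + 1) ^ 2 := (XX_ge i).trans hi2
        have h4 : i / 2 ≤ Nat.log 2 ((2 * N + 1) ^ 2) := Nat.le_log_of_pow_le (by norm_num) h3
        omega
      · rw [mem_biUnion]
        exact ⟨b, hb, k_mem hk1 hb1 hb2⟩
  have hBkc : (Bk.card : ℝ) ≤ (8 * Real.log N + 20) * (2 * (3 * (N : ℝ) ^ (1 - 2 * δ))) := by
    rw [hBk]
    have h1 : ∀ i ∈ (range I).filter (fun i => XX i ≤ (2 * N + 1) ^ 2),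
        (((B i).biUnion (fun b : ℕ => Icc ((Nat.sqrt b - 1) / 2) ((Nat.sqrt b + 1) / 2))).card : ℝ) ≤
        2 * (3 * (N : ℝ) ^ (1 - 2 * δ)) := by
      intro i hi
      rw [mem_filter] at hi
      have h2 : ((B i).biUnion (fun b : ℕ => Icc ((Nat.sqrt b - 1) / 2) ((Nat.sqrt b + 1) / 2))).card ≤
          (B i).card * 2 := by
        apply card_biUnion_le_card_mul
        intro b _
        rw [Nat.card_Icc]
        omega
      have h3 := hB i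
      have h4 : (XX i : ℝ) ≤ (3 * (N : ℝ)) ^ 2 := by
        have h5 : (XX i : ℝ) ≤ ((2 * N + 1 : ℕ) : ℝ) ^ 2 := by exact_mod_cast hi.2
        refine h5.trans (pow_le_pow_left₀ (Nat.cast_nonneg _) ?_ 2)
        push_cast
        linarith
      have h5 : (XX i : ℝ) ^ (1 / 2 - δ) ≤ 3 * (N : ℝ) ^ (1 - 2 * δ) := by
        calc (XX i : ℝ) ^ (1 / 2 - δ) ≤ ((3 * (N : ℝ)) ^ 2) ^ (1 / 2 - δ) :=
              Real.rpow_le_rpow (Nat.cast_nonneg _) h4 (by linarith)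
          _ = (3 * (N : ℝ)) ^ (1 - 2 * δ) := by
              rw [← Real.rpow_natCast, ← Real.rpow_mul (by positivity)]
              congr 1
              push_cast
              ring
          _ = (3 : ℝ) ^ (1 - 2 * δ) * (N : ℝ) ^ (1 - 2 * δ) := Real.mul_rpow (by norm_num) hN0.le
          _ ≤ 3 * (N : ℝ) ^ (1 - 2 * δ) := by
              apply mul_le_mul_of_nonneg_right _ (by positivity)
              calc (3 : ℝ) ^ (1 - 2 * δ) ≤ (3 : ℝ) ^ (1 : ℝ) :=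
                    Real.rpow_le_rpow_of_exponent_le (by norm_num) (by linarith)
                _ = 3 := Real.rpow_one 3
      have h6 : (((B i).biUnion (fun b : ℕ => Icc ((Nat.sqrt b - 1) / 2) ((Nat.sqrt b + 1) / 2))).card : ℝ) ≤
          ((B i).card : ℝ) * 2 := by exact_mod_cast h2
      linarith
    have h2 : ((((range I).filter (fun i => XX i ≤ (2 * N + 1) ^ 2)).biUnion (fun i : ℕ =>
      (B i).biUnion (fun b : ℕ => Icc ((Nat.sqrt b - 1) / 2) ((Nat.sqrt b + 1) / 2)))).card : ℝ) ≤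
      ∑ i ∈ (range I).filter (fun i => XX i ≤ (2 * N + 1) ^ 2),
        (((B i).biUnion (fun b : ℕ => Icc ((Nat.sqrt b - 1) / 2) ((Nat.sqrt b + 1) / 2))).card : ℝ) := by
      exact_mod_cast card_biUnion_le
    refine h2.trans ((sum_le_card_nsmul _ _ _ h1).trans ?_)
    rw [nsmul_eq_mul]
    apply mul_le_mul_of_nonneg_right _ (by positivity)
    have h3 : (((range I).filter (fun i => XX i ≤ (2 * N + 1) ^ 2)).card : ℝ) ≤ I := by
      have : ((range I).filter (fun i => XX i ≤ (2 * N + 1) ^ 2)).card ≤ I := by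
        exact (card_filter_le _ _).trans (by rw [card_range])
      exact_mod_cast this
    refine h3.trans ?_
    have h4 : (Nat.log 2 ((2 * N + 1) ^ 2) : ℝ) * Real.log 2 ≤ Real.log (((2 * N + 1) ^ 2 : ℕ) : ℝ) := by
      rw [← Real.log_pow]
      apply Real.log_le_log (by positivity)
      have := Nat.pow_log_le_self 2 (x := (2 * N + 1) ^ 2) (by positivity)
      exact_mod_cast this
    have h5 : Real.log (((2 * N + 1) ^ 2 : ℕ) : ℝ) ≤ 2 * (Real.log 3 + Real.log N) := by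
      rw [Nat.cast_pow, Real.log_pow, ← Real.log_mul (by norm_num) hN0.ne']
      push_cast
      apply mul_le_mul_of_nonneg_left _ (by norm_num)
      apply Real.log_le_log (by positivity)
      linarith
    have h6 : Real.log 3 ≤ 2 := by
      have := Real.log_le_sub_one_of_pos (show (0 : ℝ) < 3 by norm_num)
      linarith
    have h7 := Real.log_two_gt_d9
    have h8 : 0 ≤ Real.log N := Real.log_nonneg (by linarith)
    have h9 : (0 : ℝ) ≤ (Nat.log 2 ((2 * N + 1) ^ 2) : ℝ) := Nat.cast_nonneg _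
    rw [hI]
    push_cast
    nlinarith
  have h1 := (card_le_card hcov).trans (card_union_le _ _)
  rw [Nat.card_Icc, Nat.add_sub_cancel] at h1
  have h2 : ((⌊(N : ℝ) ^ (1 - δ)⌋₊ : ℕ) : ℝ) ≤ (N : ℝ) ^ (1 - δ) := Nat.floor_le (by positivity)
  have h3 : ((((Icc 1 N).filter (fun k : ℕ => (k : ℝ) ≤ (N : ℝ) ^ (1 - δ) ∨
      ∃ i, XX i ≤ (2 * k + 1) ^ 2 ∧ ∃ b ∈ B i, (2 * k - 1) ^ 2 ≤ b ∧ b ≤ (2 * k + 1) ^ 2)).card : ℕ) : ℝ) ≤
      ((⌊(N : ℝ) ^ (1 - δ)⌋₊ : ℕ) : ℝ) + (Bk.card : ℝ) := by exact_mod_cast h1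
  linarith

/-- sizes for one `k` -/
lemma k_sizes {k x y : ℕ} (hk : 100 ≤ k) (hx : (2 * k - 1) ^ 2 ≤ x) (hy : y ≤ (2 * k + 1) ^ 2) :
    3.9 * (k : ℝ) ^ 2 ≤ x ∧ (y : ℝ) ≤ 4.1 * (k : ℝ) ^ 2 ∧ (y : ℝ) ≤ 1.1 * x := by
  have hkr : (100 : ℝ) ≤ k := by exact_mod_cast hk
  have hx' : (2 * (k : ℝ) - 1) ^ 2 ≤ x := by
    have e : (((2 * k - 1) ^ 2 : ℕ) : ℝ) = (2 * (k : ℝ) - 1) ^ 2 := by
      rw [Nat.cast_pow, Nat.cast_sub (by omega)]
      push_cast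
      ring
    rw [← e]
    exact_mod_cast hx
  have hy' : (y : ℝ) ≤ (2 * (k : ℝ) + 1) ^ 2 := by exact_mod_cast hy
  refine ⟨by nlinarith, by nlinarith, by nlinarith⟩

/-- the threshold for one `k` -/
lemma k_len {δ : ℝ} (hδ : 0 < δ) (hδ' : δ < 1 / 2) : ∃ k₀ : ℕ, 100 ≤ k₀ ∧ ∀ k : ℕ, k₀ ≤ k → ∀ X : ℕ,
    (X : ℝ) ≤ 4.1 * (k : ℝ) ^ 2 → (X : ℝ) ^ (1 / 2 - δ) ≤ (k : ℝ) ^ (1 - δ) := by
  have h : ∀ᶠ k : ℕ in atTop, (3 : ℝ) ≤ (k : ℝ) ^ δ :=
    ((tendsto_rpow_atTop hδ).comp tendsto_natCast_atTop_atTop).eventually_ge_atTop _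
  obtain ⟨k₀, hk₀⟩ := eventually_atTop.1 (h.and (eventually_ge_atTop 100))
  refine ⟨max k₀ 100, le_max_right _ _, fun k hk X hX => ?_⟩
  obtain ⟨h1, h2⟩ := hk₀ k ((le_max_left _ _).trans hk)
  have hkr : (100 : ℝ) ≤ k := by exact_mod_cast h2
  have hk0 : (0 : ℝ) < k := by linarith
  calc (X : ℝ) ^ (1 / 2 - δ) ≤ ((3 * (k : ℝ)) ^ 2) ^ (1 / 2 - δ) := by
        apply Real.rpow_le_rpow (Nat.cast_nonneg _) _ (by linarith)
        nlinarith
    _ = (3 * (k : ℝ)) ^ (1 - 2 * δ) := by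
        rw [← Real.rpow_natCast, ← Real.rpow_mul (by positivity)]
        congr 1
        push_cast
        ring
    _ = (3 : ℝ) ^ (1 - 2 * δ) * (k : ℝ) ^ (1 - 2 * δ) := Real.mul_rpow (by norm_num) hk0.le
    _ ≤ (k : ℝ) ^ δ * (k : ℝ) ^ (1 - 2 * δ) := by
        apply mul_le_mul_of_nonneg_right _ (by positivity)
        refine le_trans ?_ h1
        calc (3 : ℝ) ^ (1 - 2 * δ) ≤ (3 : ℝ) ^ (1 : ℝ) :=
              Real.rpow_le_rpow_of_exponent_le (by norm_num) (by linarith)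
          _ = 3 := Real.rpow_one 3
    _ = (k : ℝ) ^ (1 - δ) := by
        rw [← Real.rpow_add hk0]
        congr 1
        ring

/-- **IK** -/
theorem s_IK (hG : S_GEN) : S_IK := by
  classical
  obtain ⟨δ, δ₁, c₀, hδ, hδ₁, hδ₁', hc₀, hG⟩ := hG
  obtain ⟨μ, hμd⟩ : ∃ μ, μ = min δ (1 / 4) := ⟨_, rfl⟩
  have hμ : 0 < μ := by rw [hμd]; exact lt_min hδ (by norm_num)
  have hμδ : μ ≤ δ := by rw [hμd]; exact min_le_left _ _
  have hμ4 : μ ≤ 1 / 4 := by rw [hμd]; exact min_le_right _ _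
  refine ⟨μ / 2, δ₁, c₀, by positivity, hδ₁, hδ₁', hc₀, fun Pr C hPr => ?_⟩
  obtain ⟨c, X₀, hc, hX⟩ := hG Pr C hPr
  obtain ⟨k₀, hk₀, hk₀'⟩ := k_len hμ (by linarith)
  obtain ⟨N₁, hN₁⟩ := few_k hμ (by linarith)
  obtain ⟨N₂, hN₂⟩ := eventually_atTop.1 (((tendsto_rpow_atTop (by linarith : (0 : ℝ) < 1 - μ)).comp
    tendsto_natCast_atTop_atTop).eventually_ge_atTop (max (k₀ : ℝ) X₀ + 1))
  refine ⟨c / 4 ^ C, max N₁ N₂, by positivity, fun N hN => ?_⟩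
  -- exceptional points
  have hBex : ∀ i : ℕ, ∃ B : Finset ℕ, (B.card : ℝ) ≤ (XX i : ℝ) ^ (1 / 2 - μ) ∧ (X₀ ≤ XX i → ∀ x y : ℕ, XX i ≤ x → y ≤ 2 * XX i →
      (x : ℝ) + (XX i : ℝ) ^ (1 / 2 - μ) ≤ y → Disjoint B (Icc x y) →
      c * ((y : ℝ) - x) / Real.log (XX i) ^ C ≤ (((Ioo x y).filter Pr).card : ℝ)) := by
    intro i
    have hX1 : (1 : ℝ) ≤ XX i := by exact_mod_cast XX_pos i
    by_cases hi : X₀ ≤ XX i
    · obtain ⟨B, hB1, hB2⟩ := hX (XX i) hi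
      have h1 : (XX i : ℝ) ^ (1 / 2 - δ) ≤ (XX i : ℝ) ^ (1 / 2 - μ) :=
        Real.rpow_le_rpow_of_exponent_le hX1 (by linarith)
      exact ⟨B, hB1.trans h1, fun _ x y h2 h3 h4 h5 => hB2 x y h2 h3 (by linarith) h5⟩
    · exact ⟨∅, by rw [card_empty, Nat.cast_zero]; positivity, fun h => absurd h hi⟩
  choose B hB1 hB2 using hBex
  have h1 := hN₁ N ((le_max_left _ _).trans hN) B hB1
  have h2 := hN₂ N ((le_max_right _ _).trans hN)
  refine le_trans ?_ h1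
  rw [Nat.cast_le]
  apply card_le_card
  intro k hk
  rw [mem_filter] at hk ⊢
  obtain ⟨hkI, hbad⟩ := hk
  refine ⟨hkI, ?_⟩
  by_contra hcon
  push Not at hcon
  obtain ⟨hc1, hc2⟩ := hcon
  apply hbad
  intro x y hx hy hxy
  have hkb : max (k₀ : ℝ) X₀ + 1 < k := lt_of_le_of_lt h2 hc1
  have hkk : k₀ ≤ k := by
    have : (k₀ : ℝ) ≤ k := by linarith [le_max_left (k₀ : ℝ) X₀]
    exact_mod_cast this
  have hkX : (X₀ : ℝ) ≤ k := by linarith [le_max_right (k₀ : ℝ) X₀]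
  have hk100 : 100 ≤ k := hk₀.trans hkk
  have hkr : (100 : ℝ) ≤ k := by exact_mod_cast hk100
  obtain ⟨s1, s2, s3⟩ := k_sizes hk100 hx hy
  obtain ⟨i, hi1, hi2⟩ := XX_find (x := x) (by
    have : (4 : ℝ) ≤ x := by nlinarith
    exact_mod_cast this) s3
  have hXx : (XX i : ℝ) ≤ x := by exact_mod_cast hi1
  have hxyr : (x : ℝ) ≤ y := by
    have : 0 < (k : ℝ) ^ (1 - μ / 2) := by positivity
    linarith
  have hXX : (x : ℝ) ≤ 2 * XX i := by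
    have : (y : ℝ) ≤ 2 * XX i := by exact_mod_cast hi2
    linarith
  have hX41 : (XX i : ℝ) ≤ 4.1 * (k : ℝ) ^ 2 := hXx.trans (hxyr.trans s2)
  have hXi0 : X₀ ≤ XX i := by
    have : (X₀ : ℝ) ≤ XX i := by nlinarith
    exact_mod_cast this
  have hlen : (x : ℝ) + (XX i : ℝ) ^ (1 / 2 - μ) ≤ y := by
    have h3 := hk₀' k hkk (XX i) hX41
    have h4 : (k : ℝ) ^ (1 - μ) ≤ (k : ℝ) ^ (1 - μ / 2) :=
      Real.rpow_le_rpow_of_exponent_le (by linarith) (by linarith)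
    linarith
  have hdis : Disjoint (B i) (Icc x y) := by
    rw [disjoint_left]
    intro b hb hb'
    rw [mem_Icc] at hb'
    refine absurd (hb'.2.trans hy) (not_le.2 (hc2 i ?_ b hb (hx.trans hb'.1)))
    have : x ≤ y := by exact_mod_cast hxyr
    exact hi1.trans (this.trans hy)
  have hfin := hB2 i hXi0 x y hi1 hi2 hlen hdis
  refine le_trans ?_ hfin
  have hlX : Real.log (XX i) ≤ 4 * Real.log k := by
    have h3 : (XX i : ℝ) ≤ (k : ℝ) ^ 4 := by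
      refine hX41.trans ?_
      have h5 : (4.1 : ℝ) ≤ (k : ℝ) ^ 2 := by nlinarith
      calc 4.1 * (k : ℝ) ^ 2 ≤ (k : ℝ) ^ 2 * (k : ℝ) ^ 2 := mul_le_mul_of_nonneg_right h5 (by positivity)
        _ = (k : ℝ) ^ 4 := by ring
    have h4 := Real.log_le_log (by exact_mod_cast XX_pos i) h3
    rw [Real.log_pow] at h4
    exact_mod_cast h4
  have hlX0 : 0 < Real.log (XX i) := by
    apply Real.log_pos
    have : (1 : ℝ) < 2 * XX i := by nlinarith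
    nlinarith
  have hyx0 : 0 ≤ (y : ℝ) - x := by linarith
  calc c / 4 ^ C * ((y : ℝ) - x) / Real.log k ^ C = c * ((y : ℝ) - x) / (4 * Real.log k) ^ C := by
        rw [mul_pow]
        field_simp
    _ ≤ c * ((y : ℝ) - x) / Real.log (XX i) ^ C := by
        apply div_le_div_of_nonneg_left (by positivity) (by positivity)
        exact pow_le_pow_left₀ hlX0.le hlX C

end Pool.Agent.L7h18.BP
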