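import Pool.Agent.L7h18.BP.Ik

/-!
# Project BP: transfer with a margin, and the hypothesis `HW` from the engine
-/

set_option autoImplicit false

namespace Pool.Agent.L7h18.BP

open Finset Filter
open Pool.Agent.L7h88.BW (th)

open Classical in
/-- **IKG**: like `S_IK`, with room for `g n` -/
theorem s_IKG (hI : S_IK) : ∃ δ δ₁ c₀ : ℝ, 0 < δ ∧ 0 < δ₁ ∧ δ₁ ≤ 1 / 100 ∧ 0 < c₀ ∧ ∀ (Pr : ℕ → Prop) (C : ℕ),
    HW δ₁ c₀ Pr C → ∀ (A : ℝ) (g : ℕ → ℝ), 0 ≤ A → (∀ n : ℕ, 1 ≤ n → g n ≤ A * (1 + Real.log n)) →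
    ∃ (c : ℝ) (N₀ : ℕ), 0 < c ∧ ∀ N : ℕ, N₀ ≤ N →
    (((Icc 1 N).filter (fun k => ¬ ∀ x y : ℕ, (2 * k - 1) ^ 2 ≤ x → y ≤ (2 * k + 1) ^ 2 →
      (x : ℝ) + (k : ℝ) ^ (1 - δ) ≤ y → c * ((y : ℝ) - x) / Real.log k ^ C ≤
        (((Ioo x y).filter (fun n : ℕ => (n : ℝ) + g n < y ∧ Pr n)).card : ℝ))).card : ℝ) ≤ (N : ℝ) ^ (1 - δ) := by
  obtain ⟨δ, δ₁, c₀, hδ, hδ₁, hδ₁', hc₀, hI⟩ := hI
  obtain ⟨μ, hμd⟩ : ∃ μ, μ = min δ (1 / 4) := ⟨_, rfl⟩
  have hμ : 0 < μ := by rw [hμd]; exact lt_min hδ (by norm_num)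
  have hμδ : μ ≤ δ := by rw [hμd]; exact min_le_left _ _
  have hμ4 : μ ≤ 1 / 4 := by rw [hμd]; exact min_le_right _ _
  refine ⟨μ / 2, δ₁, c₀, by positivity, hδ₁, hδ₁', hc₀, fun Pr C hPr A g hA hg => ?_⟩
  obtain ⟨c, N₁, hc, hN₁⟩ := hI Pr C hPr
  -- the threshold for k
  have hk : ∀ᶠ k : ℕ in atTop, 2 * (k : ℝ) ^ (1 - μ) + 2 * (A * (3 + 2 * Real.log k)) + 4 ≤ (k : ℝ) ^ (1 - μ / 2) := by
    have g1 : Tendsto (fun N : ℕ => (N : ℝ) ^ (-(μ / 2))) atTop (nhds 0) :=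
      (tendsto_rpow_neg_atTop (by positivity)).comp tendsto_natCast_atTop_atTop
    have g2 : Tendsto (fun N : ℕ => Real.log N / (N : ℝ) ^ (1 / 2 : ℝ)) atTop (nhds 0) :=
      ((isLittleO_log_rpow_atTop (r := 1 / 2) (by norm_num)).tendsto_div_nhds_zero).comp tendsto_natCast_atTop_atTop
    have g3 : Tendsto (fun N : ℕ => (N : ℝ) ^ (1 / 2 : ℝ)) atTop atTop :=
      (tendsto_rpow_atTop (by norm_num)).comp tendsto_natCast_atTop_atTop
    filter_upwards [g1.eventually (gt_mem_nhds (show (0 : ℝ) < 1 / 8 by norm_num)),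
      g2.eventually (gt_mem_nhds (show (0 : ℝ) < 1 / (16 * (A + 1)) by positivity)),
      g3.eventually_ge_atTop (16 * (6 * A + 4)), eventually_ge_atTop 2] with k q1 q2 q3 q5
    have hk2 : (2 : ℝ) ≤ k := by exact_mod_cast q5
    have hk0 : (0 : ℝ) < k := by linarith
    have hlog : 0 ≤ Real.log k := Real.log_nonneg (by linarith)
    have hp : 0 < (k : ℝ) ^ (1 - μ / 2) := by positivity
    have hh : (k : ℝ) ^ (1 / 2 : ℝ) ≤ (k : ℝ) ^ (1 - μ / 2) :=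
      Real.rpow_le_rpow_of_exponent_le (by linarith) (by linarith)
    have r1 : (k : ℝ) ^ (1 - μ) ≤ 1 / 8 * (k : ℝ) ^ (1 - μ / 2) := by
      have : (k : ℝ) ^ (1 - μ) = (k : ℝ) ^ (-(μ / 2)) * (k : ℝ) ^ (1 - μ / 2) := by
        rw [← Real.rpow_add hk0]; congr 1; ring
      rw [this]
      exact mul_le_mul_of_nonneg_right q1.le hp.le
    have r2 : 4 * A * Real.log k ≤ 1 / 4 * (k : ℝ) ^ (1 - μ / 2) := by
      rw [div_lt_iff₀ (by positivity)] at q2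
      have h1 : Real.log k ≤ 1 / (16 * (A + 1)) * (k : ℝ) ^ (1 - μ / 2) := q2.le.trans (by gcongr)
      calc 4 * A * Real.log k ≤ 4 * (A + 1) * Real.log k := by nlinarith
        _ ≤ 4 * (A + 1) * (1 / (16 * (A + 1)) * (k : ℝ) ^ (1 - μ / 2)) :=
            mul_le_mul_of_nonneg_left h1 (by positivity)
        _ = 1 / 4 * (k : ℝ) ^ (1 - μ / 2) := by field_simp; norm_num
    have r3 : 6 * A + 4 ≤ 1 / 16 * (k : ℝ) ^ (1 - μ / 2) := by linarith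
    nlinarith
  obtain ⟨k₀, hk₀⟩ := eventually_atTop.1 hk
  obtain ⟨N₂, hN₂⟩ := eventually_atTop.1 (((tendsto_rpow_atTop (by positivity : (0 : ℝ) < μ / 4)).comp
    tendsto_natCast_atTop_atTop).eventually_ge_atTop ((k₀ : ℝ) + 104))
  refine ⟨c / 2, max N₁ (max N₂ 1), by positivity, fun N hN => ?_⟩
  have h1 := hN₁ N ((le_max_left _ _).trans hN)
  have h2 : (k₀ : ℝ) + 104 ≤ (N : ℝ) ^ (μ / 4) := hN₂ N ((le_max_left _ _).trans ((le_max_right _ _).trans hN))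
  have hN1 : 1 ≤ N := (le_max_right _ _).trans ((le_max_right _ _).trans hN)
  have hNr : (1 : ℝ) ≤ N := by exact_mod_cast hN1
  have hcov : (Icc 1 N).filter (fun k => ¬ ∀ x y : ℕ, (2 * k - 1) ^ 2 ≤ x → y ≤ (2 * k + 1) ^ 2 →
      (x : ℝ) + (k : ℝ) ^ (1 - μ / 2) ≤ y → c / 2 * ((y : ℝ) - x) / Real.log k ^ C ≤
        (((Ioo x y).filter (fun n : ℕ => (n : ℝ) + g n < y ∧ Pr n)).card : ℝ)) ⊆
      Icc 1 (k₀ + 100) ∪ (Icc 1 N).filter (fun k => ¬ ∀ x y : ℕ, (2 * k - 1) ^ 2 ≤ x → y ≤ (2 * k + 1) ^ 2 →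
        (x : ℝ) + (k : ℝ) ^ (1 - δ) ≤ y → c * ((y : ℝ) - x) / Real.log k ^ C ≤
        (((Ioo x y).filter Pr).card : ℝ)) := by
    intro k hk
    rw [mem_filter] at hk
    obtain ⟨hkI, hbad⟩ := hk
    rw [mem_Icc] at hkI
    by_cases hks : k ≤ k₀ + 100
    · exact mem_union_left _ (mem_Icc.2 ⟨hkI.1, hks⟩)
    refine mem_union_right _ ?_
    rw [mem_filter]
    refine ⟨mem_Icc.2 hkI, fun hgood => hbad ?_⟩
    intro x y hx hy hxy
    have hk1 := hk₀ k (by omega)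
    have hk100 : 100 ≤ k := by omega
    have hkr : (100 : ℝ) ≤ k := by exact_mod_cast hk100
    obtain ⟨s1, s2, s3⟩ := k_sizes hk100 hx hy
    have hlk : 0 < Real.log k := Real.log_pos (by linarith)
    have hx0 : (0 : ℝ) < x := by nlinarith
    obtain ⟨L, hL⟩ : ∃ L, L = ⌈A * (3 + 2 * Real.log k)⌉₊ := ⟨_, rfl⟩
    have hA0 : 0 ≤ A * (3 + 2 * Real.log k) := by positivity
    have hL1 : A * (3 + 2 * Real.log k) ≤ L := by rw [hL]; exact Nat.le_ceil _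
    have hL2 : (L : ℝ) < A * (3 + 2 * Real.log k) + 1 := by rw [hL]; exact Nat.ceil_lt_add_one hA0
    have hkp : 0 < (k : ℝ) ^ (1 - μ) := by positivity
    have hLy : L ≤ y := by
      have : (L : ℝ) ≤ y := by linarith
      exact_mod_cast this
    have hcast : ((y - L : ℕ) : ℝ) = (y : ℝ) - L := Nat.cast_sub hLy
    have h3 : (k : ℝ) ^ (1 - δ) ≤ (k : ℝ) ^ (1 - μ) :=
      Real.rpow_le_rpow_of_exponent_le (by linarith) (by linarith)
    have h4 := hgood x (y - L) hx ((Nat.sub_le _ _).trans hy) (by rw [hcast]; linarith)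
    rw [hcast] at h4
    have h5 : c / 2 * ((y : ℝ) - x) / Real.log k ^ C ≤ c * ((y : ℝ) - L - x) / Real.log k ^ C := by
      apply div_le_div_of_nonneg_right _ (by positivity)
      have : ((y : ℝ) - x) / 2 ≤ (y : ℝ) - L - x := by linarith
      calc c / 2 * ((y : ℝ) - x) = c * (((y : ℝ) - x) / 2) := by ring
        _ ≤ c * ((y : ℝ) - L - x) := mul_le_mul_of_nonneg_left this hc.le
    refine (h5.trans h4).trans ?_
    rw [Nat.cast_le]
    apply card_le_card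
    intro n hn
    rw [mem_filter, mem_Ioo] at hn ⊢
    obtain ⟨⟨hn1, hn2⟩, hP⟩ := hn
    have hnr : (n : ℝ) < (y : ℝ) - L := by rw [← hcast]; exact_mod_cast hn2
    have hny : n < y := lt_of_lt_of_le hn2 (Nat.sub_le _ _)
    refine ⟨⟨hn1, hny⟩, ?_, hP⟩
    have hn0 : 1 ≤ n := by omega
    have hn0r : (0 : ℝ) < n := by exact_mod_cast hn0
    have h6 := hg n hn0
    have h7 : Real.log n ≤ 2 + 2 * Real.log k := by
      have h8 : (n : ℝ) ≤ 4.1 * (k : ℝ) ^ 2 := by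
        have : (n : ℝ) < y := by exact_mod_cast hny
        linarith
      have h9 := Real.log_le_log hn0r h8
      rw [Real.log_mul (by norm_num) (by positivity), Real.log_pow] at h9
      have h10 : Real.log 4.1 ≤ 2 := by
        rw [Real.log_le_iff_le_exp (by norm_num)]
        have h11 : Real.exp 2 = Real.exp 1 * Real.exp 1 := by rw [← Real.exp_add]; norm_num
        have h12 := Real.exp_one_gt_d9
        rw [h11]
        nlinarith
      push_cast at h9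
      linarith
    have h8 : A * (1 + Real.log n) ≤ A * (3 + 2 * Real.log k) := mul_le_mul_of_nonneg_left (by linarith) hA
    linarith
  have hc1 := (card_le_card hcov).trans (card_union_le _ _)
  rw [Nat.card_Icc, Nat.add_sub_cancel] at hc1
  have hc2 : ((((Icc 1 N).filter (fun k => ¬ ∀ x y : ℕ, (2 * k - 1) ^ 2 ≤ x → y ≤ (2 * k + 1) ^ 2 →
      (x : ℝ) + (k : ℝ) ^ (1 - μ / 2) ≤ y → c / 2 * ((y : ℝ) - x) / Real.log k ^ C ≤
        (((Ioo x y).filter (fun n : ℕ => (n : ℝ) + g n < y ∧ Pr n)).card : ℝ))).card : ℕ) : ℝ) ≤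
      ((k₀ + 100 : ℕ) : ℝ) + (N : ℝ) ^ (1 - δ) := by
    have : ((((Icc 1 N).filter (fun k => ¬ ∀ x y : ℕ, (2 * k - 1) ^ 2 ≤ x → y ≤ (2 * k + 1) ^ 2 →
      (x : ℝ) + (k : ℝ) ^ (1 - μ / 2) ≤ y → c / 2 * ((y : ℝ) - x) / Real.log k ^ C ≤
        (((Ioo x y).filter (fun n : ℕ => (n : ℝ) + g n < y ∧ Pr n)).card : ℝ))).card : ℕ) : ℝ) ≤
        ((k₀ + 100 : ℕ) : ℝ) + ((((Icc 1 N).filter (fun k => ¬ ∀ x y : ℕ, (2 * k - 1) ^ 2 ≤ x → y ≤ (2 * k + 1) ^ 2 →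
        (x : ℝ) + (k : ℝ) ^ (1 - δ) ≤ y → c * ((y : ℝ) - x) / Real.log k ^ C ≤
        (((Ioo x y).filter Pr).card : ℝ))).card : ℕ) : ℝ) := by exact_mod_cast hc1
    linarith
  refine hc2.trans ?_
  push_cast
  have h5 : (N : ℝ) ^ (1 - δ) ≤ (N : ℝ) ^ (1 - μ) := Real.rpow_le_rpow_of_exponent_le hNr (by linarith)
  have h6 : (N : ℝ) ^ (1 - μ / 2) = (N : ℝ) ^ (μ / 4) * ((N : ℝ) ^ (μ / 4) * (N : ℝ) ^ (1 - μ)) := by
    rw [← Real.rpow_add (by linarith), ← Real.rpow_add (by linarith)]; congr 1; ring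
  have h7 : 1 ≤ (N : ℝ) ^ (1 - μ) := Real.one_le_rpow hNr (by linarith)
  have h8 : (104 : ℝ) ≤ (N : ℝ) ^ (μ / 4) := by
    have : (0 : ℝ) ≤ k₀ := Nat.cast_nonneg _
    linarith
  rw [h6]
  have h9 : (N : ℝ) ^ (μ / 4) * 1 ≤ (N : ℝ) ^ (μ / 4) * (N : ℝ) ^ (1 - μ) :=
    mul_le_mul_of_nonneg_left h7 (by linarith)
  have h10 : (N : ℝ) ^ (1 - μ) ≤ (N : ℝ) ^ (μ / 4) * (N : ℝ) ^ (1 - μ) := by nlinarith
  nlinarith

open Classical in
/-- `HW` from the engine: size of the window -/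
lemma HW_of (hE : S_EQW) {δ₁ c₀ : ℝ} (hδ : 0 < δ₁) (hδ' : δ₁ ≤ 1 / 100) (hc₀ : 0 < c₀) (Λ : ℝ) (hΛ : 0 < Λ)
    (Pr : ℕ → Prop) (C K A X₀ : ℕ) (c : ℝ) (hc : 0 < c)
    (h : ∀ X : ℕ, X₀ ≤ X → ∀ ω : Wd, (∀ n ∈ ω.Q, X ≤ n) → Hyp K A (δ₁ / 2) Λ (c₀ / 4) X ω →
      c * ω.H / Real.log X ^ C ≤ ((ω.Q.filter Pr).card : ℝ)) : HW δ₁ c₀ Pr C := by
  obtain ⟨A', YE, hE⟩ := hE δ₁ c₀ Λ K A hδ hδ' hc₀ hΛ
  have hX : ∀ᶠ Y : ℝ in atTop, max X₀ 3 ≤ ⌊Real.exp (Y - 1 / 4)⌋₊ := by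
    have h1 : Tendsto (fun Y : ℝ => Real.exp (Y - 1 / 4)) atTop atTop :=
      Real.tendsto_exp_atTop.comp (tendsto_atTop_add_const_right _ _ tendsto_id)
    exact (tendsto_nat_floor_atTop.comp h1).eventually_ge_atTop _
  obtain ⟨YX, hYX⟩ := eventually_atTop.1 hX
  refine ⟨A', c / 2, max YE (max YX 1), by positivity, ?_⟩
  intro Y hY κ u hκ1 hκ2 hu1 hu2 hth hBV
  simp only [max_le_iff] at hY
  obtain ⟨hY1, hY3, hY4⟩ := hY
  have hκ0 : 0 < κ := (Real.exp_pos _).trans_le hκ1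
  have hX3 := hYX Y hY3
  simp only [max_le_iff] at hX3
  obtain ⟨hX1, hX3⟩ := hX3
  have H1 := hE Y hY1 κ u hκ1 hκ2 hu1 hu2 hth hBV
  have R1 := h _ hX1 _ (by
    intro n hn
    rw [mem_Wu] at hn
    apply Nat.floor_le_of_le
    exact (Real.exp_le_exp.2 hu1).trans hn.2.1.le) H1
  have hH : κ * Real.exp Y / 2 ≤ (Wu u κ).H := by
    show _ ≤ Real.exp (u + κ) - Real.exp u
    have h1 : Real.exp (u + κ) = Real.exp u * Real.exp κ := Real.exp_add _ _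
    have h2 := Real.add_one_le_exp κ
    have h3 : Real.exp (Y - 1 / 4) ≤ Real.exp u := Real.exp_le_exp.2 hu1
    have h4 : Real.exp (Y - 1 / 4) = Real.exp Y * Real.exp (-(1 / 4)) := by
      rw [← Real.exp_add]; congr 1
    have h5 : 3 / 4 ≤ Real.exp (-(1 / 4 : ℝ)) := by
      have := Real.add_one_le_exp (-(1 / 4 : ℝ))
      linarith
    have h6 := Real.exp_pos Y
    have h7 : Real.exp Y * (3 / 4) ≤ Real.exp u := by
      have := mul_le_mul_of_nonneg_left h5 h6.le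
      linarith
    rw [h1]
    have h8 : Real.exp u * (κ + 1) ≤ Real.exp u * Real.exp κ :=
      mul_le_mul_of_nonneg_left h2 (Real.exp_pos _).le
    have h9 : κ * (Real.exp Y * (3 / 4)) ≤ κ * Real.exp u := mul_le_mul_of_nonneg_left h7 hκ0.le
    have h10 : 0 < κ * Real.exp Y := by positivity
    linarith
  obtain ⟨X, hXd⟩ : ∃ X, X = ⌊Real.exp (Y - 1 / 4)⌋₊ := ⟨_, rfl⟩
  have hXr : (3 : ℝ) ≤ X := by rw [hXd]; exact_mod_cast hX3
  have hlog0 : 0 < Real.log X := Real.log_pos (by linarith)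
  have hlogY : Real.log X ≤ Y := by
    have h1 : (X : ℝ) ≤ Real.exp (Y - 1 / 4) := by rw [hXd]; exact Nat.floor_le (Real.exp_pos _).le
    have h2 := Real.log_le_log (by linarith) h1
    rw [Real.log_exp] at h2
    linarith
  refine le_trans ?_ R1
  rw [← hXd]
  have h2 : Real.log X ^ C ≤ Y ^ C := pow_le_pow_left₀ hlog0.le hlogY C
  have h3 : (c / 2) * (κ * Real.exp Y) ≤ c * (Wu u κ).H := by
    have := mul_le_mul_of_nonneg_left hH hc.le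
    linarith
  calc (c / 2) * (κ * Real.exp Y) / Y ^ C ≤ (c / 2) * (κ * Real.exp Y) / Real.log X ^ C := by
        apply div_le_div_of_nonneg_left (by positivity) (by positivity) h2
    _ ≤ _ := div_le_div_of_nonneg_right h3 (by positivity)

open Classical in
/-- the property of CLB -/
def Cll (m : ℕ) (lam : ℝ) (n : ℕ) : Prop := m ≤ ((Ioc n ⌊(n : ℝ) + lam * Real.log n⌋₊).filter Nat.Prime).card

lemma HW_clb (hE : S_EQW) (hC : S_CLB) {δ₁ c₀ : ℝ} (hδ : 0 < δ₁) (hδ' : δ₁ ≤ 1 / 100) (hc₀ : 0 < c₀) (m : ℕ)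
    (lam : ℝ) (hlam : 0 < lam) : HW δ₁ c₀ (Cll m lam) 0 := by
  classical
  obtain ⟨K, A, X₀, c, hc, hC⟩ := hC (δ₁ / 2) (c₀ / 4) lam m (by linarith) (by linarith) (by linarith) hlam
  refine HW_of hE hδ hδ' hc₀ lam hlam _ 0 K A (max X₀ 1) c hc ?_
  intro X hX ω hω hH
  rw [pow_zero, div_one]
  refine (hC X ((le_max_left _ _).trans hX) ω hH).trans ?_
  rw [Nat.cast_le]
  apply card_le_card
  intro n hn
  rw [mem_filter] at hn ⊢
  refine ⟨hn.1, ?_⟩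
  have hX1 : 1 ≤ X := (le_max_right _ _).trans hX
  have hXn := hω n hn.1
  have hXr : (1 : ℝ) ≤ X := by exact_mod_cast hX1
  have hXnr : (X : ℝ) ≤ n := by exact_mod_cast hXn
  have h1 : m ≤ ((Ioc n (n + ⌊lam * Real.log X⌋₊)).filter Nat.Prime).card := by
    apply ca_prime
    unfold ca
    exact hn.2
  unfold Cll
  refine h1.trans ?_
  apply card_le_card
  apply filter_subset_filter
  apply Ioc_subset_Ioc_right
  apply Nat.le_floor
  push_cast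
  have h14 : Real.log (X : ℝ) ≤ Real.log n := Real.log_le_log (by linarith) hXnr
  have h15 : ((⌊lam * Real.log (X : ℝ)⌋₊ : ℕ) : ℝ) ≤ lam * Real.log (X : ℝ) :=
    Nat.floor_le (mul_nonneg hlam.le (Real.log_nonneg hXr))
  have h16 := mul_le_mul_of_nonneg_left h14 hlam.le
  linarith

end Pool.Agent.L7h18.BP
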