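import Pool.Agent.L7h18.BP.Stm
import Pool.Agent.L7h76.BW.Msq
import Pool.Agent.L7h76.BW.Px
import Pool.Agent.L7h26.BW.Base
import Pool.Agent.Q298.KS.Tri

/-! Project BP (helper18), part NRX: near the line one. Lemmas. -/

set_option autoImplicit false

namespace Pool.Agent.L7h18.BP

open Finset Filter MeasureTheory
open Pool.Agent.H376R2.MR (ch DP FK w)
open Pool.Agent.Q240.KS (cf sp ty ed DY zY pic)
open Pool.Agent.Q298.KS (lo hi cb cf_abs one_le_lo sum_inv_window cb_le one_le_cb)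
open Pool.Agent.L7h88.BW
open Pool.Agent.L7h76.BW (poly_exp PX_one mem_FK mem_prm rhs_le prim_ne prim_P Kc_le Kc1_le Fc_le
  Fc_pos fk_le PX_eq)

/-- the trivial bound of a factor -/
theorem norm_PX_le {q : ℕ} (χ : DirichletCharacter ℂ q) (z : ℕ) (t : Fin 3) (d : ℕ) (k : ℤ) :
    ‖PX χ z t d k‖ ≤ 2 * cb t d := by
  rw [PX_eq]
  refine (norm_sum_le _ _).trans ?_
  have h4 : (0 : ℝ) ≤ cb t d := (zero_le_one).trans (one_le_cb t d)
  calc ∑ n ∈ Ico (lo d) (hi d), ‖((cf z t d n : ℝ) : ℂ) * (χ (n : ZMod q) * ch k (Real.log n))‖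
      ≤ ∑ n ∈ Ico (lo d) (hi d), cb t d * (1 / n) := by
        refine sum_le_sum fun n hn => ?_
        rw [mem_Ico] at hn
        rw [norm_mul, norm_mul, Pool.Agent.Q298.KS.norm_ch, mul_one, Complex.norm_real, Real.norm_eq_abs]
        have h1 := cf_abs z t d n ((one_le_lo d).trans hn.1) hn.2
        have h2 := χ.norm_le_one (n : ZMod q)
        calc |cf z t d n| * ‖χ (n : ZMod q)‖ ≤ cb t d / n * 1 :=
              mul_le_mul h1 h2 (norm_nonneg _) (by positivity)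
          _ = cb t d * (1 / n) := by ring
    _ = cb t d * ∑ n ∈ Ico (lo d) (hi d), (1 : ℝ) / n := by rw [mul_sum]
    _ ≤ cb t d * (1 + 1 / 10) := mul_le_mul_of_nonneg_left (sum_inv_window d) h4
    _ ≤ 2 * cb t d := by linarith

/-- a Moebius factor is zero beyond the cut -/
lemma PX_zero' {Y : ℝ} {q : ℕ} (χ : DirichletCharacter ℂ q) {d : ℕ} (hd : 4 * Y + 9 < (d : ℝ))
    (k : ℤ) : PX χ (zY Y) 0 d k = 0 := by
  unfold PX
  apply sum_eq_zero
  intro n hn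
  have h0 : cf (zY Y) 0 d n = 0 := by
    by_contra hne
    have h1 := abs_le.mp (Pool.Agent.Q95.KS.cf_ne hne)
    have h2 : n ≤ zY Y := by
      by_contra hc
      apply hne
      unfold cf
      rw [if_pos rfl, if_neg hc]
      simp
    unfold sp at hn
    rw [mem_Icc] at hn
    have h3 : (n : ℝ) ≤ Real.exp ((Y + 2) / 5) := by
      have h4 : (n : ℝ) ≤ zY Y := by exact_mod_cast h2
      refine h4.trans ?_
      unfold zY
      exact Nat.floor_le (Real.exp_pos _).le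
    have h5 : Real.log n ≤ (Y + 2) / 5 := by
      rw [Real.log_le_iff_le_exp (by exact_mod_cast hn.1)]
      exact h3
    linarith [h1.1]
  rw [h0]
  simp

/-- a smooth factor of length at least `e^{Y/2000}` is small -/
lemma nr_small (hA : S_SMA) (hC : S_SMC) : ∃ ε₀ : ℝ, 0 < ε₀ ∧ ∀ ε : ℝ, 0 < ε → ε ≤ ε₀ → ∃ Y₀ : ℝ,
    ∀ Y : ℝ, Y₀ ≤ Y → ∀ (f : ℕ) (_ : NeZero f) (χ : DirichletCharacter ℂ f) (z : ℕ) (t : Fin 3) (d : ℕ)
      (k : ℤ), (f : ℝ) ≤ Real.exp (ε * Y) → χ ≠ 1 → t ≠ 0 → Y / 100 ≤ d → (d : ℝ) ≤ 9 * Y →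
      |(k : ℝ)| ≤ Real.exp (0.505 * Y) → ‖PX χ z t d k‖ < Real.exp (-(ε * Y)) := by
  obtain ⟨Ca, hCa, hA⟩ := hA
  obtain ⟨C1, η₁, hC1, hη, hη2, hC⟩ := hC 1100
  refine ⟨min (1 / 100000) (η₁ / 10000), by positivity, fun ε hε hε0 => ?_⟩
  have he1 : ε ≤ 1 / 100000 := hε0.trans (min_le_left _ _)
  have he2 : ε ≤ η₁ / 10000 := hε0.trans (min_le_right _ _)
  obtain ⟨Y1, hY1⟩ := poly_exp (21 * Ca) 1 (c := 1 / 10000) (by norm_num)
  obtain ⟨Y2, hY2⟩ := poly_exp (201 * C1) 2 (c := η₁ / 20000) (by positivity)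
  refine ⟨max 1 (max Y1 Y2), fun Y hY f hf χ z t d k hfY hχ ht hd1 hd2 hk => ?_⟩
  have hYo : 1 ≤ Y := (le_max_left _ _).trans hY
  have hy1 := hY1 Y ((le_max_left _ _).trans ((le_max_right _ _).trans hY))
  have hy2 := hY2 Y ((le_max_right _ _).trans ((le_max_right _ _).trans hY))
  have hY0 : 0 < Y := by linarith
  have hd0 : (0 : ℝ) ≤ d := Nat.cast_nonneg d
  have hd10 : 1 + (d : ℝ) ≤ 10 * Y := by linarith
  rcases le_or_gt |(k : ℝ)| (Real.exp ((d : ℝ) / 40)) with hks | hks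
  · have h2 := hA f hf χ z t d k hχ ht
    have h3 : 1 ≤ Real.exp ((d : ℝ) / 40) := Real.one_le_exp (by positivity)
    have h4 : Ca * f * (1 + |(k : ℝ)|) * (1 + d) * Real.exp (-((d : ℝ) / 20)) ≤
        Ca * Real.exp (ε * Y) * (2 * Real.exp ((d : ℝ) / 40)) * (10 * Y) * Real.exp (-((d : ℝ) / 20)) := by
      apply mul_le_mul_of_nonneg_right _ (Real.exp_pos _).le
      apply mul_le_mul _ hd10 (by positivity) (by positivity)
      apply mul_le_mul _ (by linarith) (by positivity) (by positivity)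
      exact mul_le_mul_of_nonneg_left hfY (by linarith)
    have h5 : Ca * Real.exp (ε * Y) * (2 * Real.exp ((d : ℝ) / 40)) * (10 * Y) * Real.exp (-((d : ℝ) / 20)) =
        20 * Ca * Y * Real.exp (ε * Y + (d : ℝ) / 40 + -((d : ℝ) / 20)) := by
      rw [Real.exp_add, Real.exp_add]
      ring
    have h6 : Real.exp (ε * Y + (d : ℝ) / 40 + -((d : ℝ) / 20)) ≤ Real.exp (-(ε * Y) + -(1 / 10000 * Y)) := by
      apply Real.exp_le_exp.2
      nlinarith
    have h7 : 20 * Ca * Y < Real.exp (1 / 10000 * Y) := by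
      rw [pow_one] at hy1
      refine lt_of_lt_of_le ?_ hy1
      nlinarith
    calc ‖PX χ z t d k‖ ≤ 20 * Ca * Y * Real.exp (ε * Y + (d : ℝ) / 40 + -((d : ℝ) / 20)) := by
          rw [← h5]; exact h2.trans h4
      _ ≤ 20 * Ca * Y * Real.exp (-(ε * Y) + -(1 / 10000 * Y)) :=
          mul_le_mul_of_nonneg_left h6 (by positivity)
      _ < Real.exp (1 / 10000 * Y) * Real.exp (-(ε * Y) + -(1 / 10000 * Y)) :=
          mul_lt_mul_of_pos_right h7 (Real.exp_pos _)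
      _ = Real.exp (-(ε * Y)) := by
          rw [← Real.exp_add]
          congr 1
          ring
  · have hk0 : k ≠ 0 := by
      rintro rfl
      rw [Int.cast_zero, abs_zero] at hks
      have := Real.exp_pos ((d : ℝ) / 40)
      linarith
    have hk6 : |(k : ℝ)| ≤ Real.exp ((1100 : ℕ) * d / 20) := by
      refine hk.trans (Real.exp_le_exp.mpr ?_)
      push_cast
      linarith
    have h2 := hC f hf χ z t d k ht hk0 hk6
    have q2 : |(k : ℝ)| ^ (-(1 / 2) : ℝ) ≤ Real.exp (-(η₁ / 4000 * Y)) := by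
      calc |(k : ℝ)| ^ (-(1 / 2) : ℝ) ≤ (Real.exp ((d : ℝ) / 40)) ^ (-(1 / 2) : ℝ) :=
            Real.rpow_le_rpow_of_nonpos (Real.exp_pos _) hks.le (by norm_num)
        _ = Real.exp (-((d : ℝ) / 80)) := by
            rw [← Real.exp_mul]
            congr 1
            ring
        _ ≤ _ := by
            apply Real.exp_le_exp.2
            nlinarith
    have q3 : Real.exp (-(η₁ * d / 20)) ≤ Real.exp (-(η₁ / 4000 * Y)) := by
      apply Real.exp_le_exp.mpr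
      nlinarith
    have h4 : C1 * f * (1 + (d : ℝ)) ^ 2 * (|(k : ℝ)| ^ (-(1 / 2) : ℝ) + Real.exp (-(η₁ * d / 20))) ≤
        C1 * Real.exp (ε * Y) * (10 * Y) ^ 2 * (2 * Real.exp (-(η₁ / 4000 * Y))) := by
      apply mul_le_mul _ (by linarith) (by positivity) (by positivity)
      apply mul_le_mul _ (pow_le_pow_left₀ (by positivity) hd10 2) (by positivity) (by positivity)
      exact mul_le_mul_of_nonneg_left hfY (by linarith)
    have h5 : C1 * Real.exp (ε * Y) * (10 * Y) ^ 2 * (2 * Real.exp (-(η₁ / 4000 * Y))) =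
        200 * C1 * Y ^ 2 * Real.exp (ε * Y + -(η₁ / 4000 * Y)) := by
      rw [Real.exp_add]
      ring
    have h6 : Real.exp (ε * Y + -(η₁ / 4000 * Y)) ≤ Real.exp (-(ε * Y) + -(η₁ / 20000 * Y)) := by
      apply Real.exp_le_exp.2
      nlinarith
    have h7 : 200 * C1 * Y ^ 2 < Real.exp (η₁ / 20000 * Y) := by
      refine lt_of_lt_of_le ?_ hy2
      have : 0 < C1 * Y ^ 2 := by positivity
      linarith
    calc ‖PX χ z t d k‖ ≤ 200 * C1 * Y ^ 2 * Real.exp (ε * Y + -(η₁ / 4000 * Y)) := by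
          rw [← h5]; exact h2.trans h4
      _ ≤ 200 * C1 * Y ^ 2 * Real.exp (-(ε * Y) + -(η₁ / 20000 * Y)) :=
          mul_le_mul_of_nonneg_left h6 (by positivity)
      _ < Real.exp (η₁ / 20000 * Y) * Real.exp (-(ε * Y) + -(η₁ / 20000 * Y)) :=
          mul_lt_mul_of_pos_right h7 (Real.exp_pos _)
      _ = Real.exp (-(ε * Y)) := by
          rw [← Real.exp_add]
          congr 1
          ring

/-- the lengths of the factors of a tuple with a near frequency -/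
lemma nr_len {Y ε : ℝ} (hY : 400 ≤ Y) {d : Fin 10 → ℕ} (hd : d ∈ DY Y) {f : ℕ} {χ : DirichletCharacter ℂ f}
    {k : ℤ} (hN : NR ε Y d χ k)
    (hs : ∀ (t : Fin 3) (e : ℕ), t ≠ 0 → Y / 100 ≤ e → (e : ℝ) ≤ 9 * Y → ‖PX χ (zY Y) t e k‖ < Real.exp (-(ε * Y))) :
    (∀ i : Fin 10, (i : ℕ) < 5 → 3.8 * Y ≤ d i ∧ (d i : ℝ) ≤ 4 * Y + 9) ∧
      ∀ i : Fin 10, 5 ≤ (i : ℕ) → (d i : ℝ) ≤ Y / 100 := by
  obtain ⟨hN1, hN2⟩ := hN
  have h1 : ∀ i : Fin 10, 5 ≤ (i : ℕ) → (d i : ℝ) ≤ Y / 100 := by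
    intro i hi
    by_contra hc
    push Not at hc
    have ht : ty i ≠ 0 := by
      by_cases h9 : (i : ℕ) < 9
      · rw [Pool.Agent.Q95.KS.ty1 hi h9]; decide
      · rw [Pool.Agent.Q95.KS.ty2 (by omega)]; decide
    have h2 := hs (ty i) (d i) ht hc.le (by have := hN1 i; linarith)
    exact absurd (hN2 i) (not_le.2 h2)
  have h2 : ∀ i : Fin 10, (i : ℕ) < 5 → (d i : ℝ) ≤ 4 * Y + 9 := by
    intro i hi
    by_contra hc
    push Not at hc
    have h3 := hN2 i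
    rw [Pool.Agent.Q95.KS.ty0 hi, PX_zero' χ hc, norm_zero] at h3
    exact absurd h3 (not_le.2 (Real.exp_pos _))
  refine ⟨fun i hi => ⟨?_, h2 i hi⟩, h1⟩
  have hsum := (abs_le.1 (Pool.Agent.Q95.KS.DY_sum hd)).1
  have e : ∑ j : Fin 10, (d j : ℝ) = d 0 + d 1 + d 2 + d 3 + d 4 + d 5 + d 6 + d 7 + d 8 + d 9 := by
    simp only [Fin.sum_univ_succ, Fin.sum_univ_zero]
    simp
    ring_nf
  rw [e] at hsum
  have a0 := h2 0 (by decide)
  have a1 := h2 1 (by decide)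
  have a2 := h2 2 (by decide)
  have a3 := h2 3 (by decide)
  have a4 := h2 4 (by decide)
  have a5 := h1 5 (by decide)
  have a6 := h1 6 (by decide)
  have a7 := h1 7 (by decide)
  have a8 := h1 8 (by decide)
  have a9 := h1 9 (by decide)
  have hi' : i = 0 ∨ i = 1 ∨ i = 2 ∨ i = 3 ∨ i = 4 := by
    revert hi; revert i; decide
  rcases hi' with rfl | rfl | rfl | rfl | rfl <;> linarith

/-- the number of near pairs -/
lemma nr_count {C : ℕ} (hM : ∀ (F K z : ℕ) (tt : Fin 10 → Fin 3) (d : Fin 10 → ℕ), 1 ≤ F → 1 ≤ K →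
    ∑ f ∈ Icc 1 F, ∑ χ ∈ prm f (fun _ => True), ∑ k ∈ FK K, ‖∏ i, PX χ z (tt i) (d i) k‖ ^ 2 ≤
      C * (1 + ∑ i, (d i : ℝ)) ^ C * (1 + (F : ℝ) ^ 2 * K * Real.exp (-((∑ i, (d i : ℝ)) / 20))))
    {F K z : ℕ} (hF : 1 ≤ F) (hK : 1 ≤ K) {e : ℕ} {ε Y : ℝ}
    (S : ∀ f : ℕ, DirichletCharacter ℂ f → Finset ℤ) (hS : ∀ f χ, S f χ ⊆ FK K)
    (hb : ∀ f ∈ Icc 2 F, ∀ χ ∈ prm f (fun _ => True), ∀ k ∈ S f χ,
      Real.exp (-(ε * Y)) ≤ ‖PX χ z 0 e k‖) :
    (∑ f ∈ Icc 2 F, ∑ χ ∈ prm f (fun _ => True), ((S f χ).card : ℝ)) * Real.exp (-(8 * ε * Y)) ≤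
      C * (1 + 4 * (e : ℝ)) ^ C * (1 + (F : ℝ) ^ 2 * K * Real.exp (-(4 * (e : ℝ) / 20))) := by
  classical
  set tt : Fin 10 → Fin 3 := fun i => if (i : ℕ) < 4 then 0 else 1 with htt
  set d : Fin 10 → ℕ := fun i => if (i : ℕ) < 4 then e else 0 with hd
  have hsum : ∑ i, (d i : ℝ) = 4 * e := by
    rw [hd]
    simp only [Fin.sum_univ_succ, Fin.sum_univ_zero]
    simp
    ring
  have hprod : ∀ (f : ℕ) (χ : DirichletCharacter ℂ f) (k : ℤ), ∏ i, PX χ z (tt i) (d i) k = PX χ z 0 e k ^ 4 := by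
    intro f χ k
    rw [hd, htt]
    simp only [Fin.prod_univ_succ, Fin.prod_univ_zero]
    simp [PX_one]
    ring
  have h1 := hM F K z tt d hF hK
  rw [hsum] at h1
  refine le_trans ?_ h1
  rw [sum_mul]
  refine (sum_le_sum fun f hf => ?_).trans (sum_le_sum_of_subset_of_nonneg
    (Icc_subset_Icc_left (by norm_num : 1 ≤ 2)) fun f _ _ => sum_nonneg fun χ _ => sum_nonneg fun k _ => by positivity)
  rw [sum_mul]
  refine sum_le_sum fun χ hχ => ?_
  refine le_trans ?_ (sum_le_sum_of_subset_of_nonneg (hS f χ) fun k _ _ => by positivity)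
  rw [← nsmul_eq_mul, ← sum_const]
  refine sum_le_sum fun k hk => ?_
  rw [hprod, norm_pow, ← pow_mul]
  calc Real.exp (-(8 * ε * Y)) = Real.exp (-(ε * Y)) ^ (4 * 2) := by
        rw [← Real.exp_nat_mul]
        congr 1
        push_cast
        ring
    _ ≤ _ := pow_le_pow_left₀ (Real.exp_pos _).le (hb f hf χ hχ k hk) _

end Pool.Agent.L7h18.BP
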